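import Mathlib

/-!
# Triangulable dilation surfaces: moduli space, strata, the action of `SL(2, ℝ)`

A triangulable dilation surface is glued from finitely many triangles of the plane `ℂ` along maps
`z ↦ a z + b`, `a > 0`. The sides of the triangles are numbered by `Fin N`; `σ h` is the side glued
to the side `h`, `φ h` is the side following `h` counterclockwise in the same triangle and `v h` is
the vector of the side `h` (in the chart of its triangle, each triangle being oriented
counterclockwise).

Two such triangulated surfaces are the same dilation surface if and only if they are connected by a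
sequence of moves: renumbering the sides, changing the scale of the charts of the triangles, and
flips of a diagonal of a strictly convex quadrilateral.
-/

set_option autoImplicit false

namespace Pool.Agent.W729.Dil

noncomputable section

/-- Raw data: the gluing `σ`, the rotation `φ` in the triangles, the vectors `v` of the sides. -/
abbrev Raw (N : ℕ) : Type := (Fin N → Fin N) × (Fin N → Fin N) × (Fin N → ℂ)

/-- The conditions for `(σ, φ, v)` to describe a connected surface glued from triangles by
dilations, with Euclidean cone points (of angle a multiple of `2 π`) at the vertices. -/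
structure IsTri {N : ℕ} (σ φ : Fin N → Fin N) (v : Fin N → ℂ) : Prop where
  /-- the sides are glued in pairs -/
  inv : ∀ h, σ (σ h) = h
  /-- no side is glued to itself -/
  nofix : ∀ h, σ h ≠ h
  /-- the faces are triangles -/
  tri : ∀ h, φ (φ (φ h)) = h
  /-- the faces are triangles -/
  trinofix : ∀ h, φ h ≠ h
  /-- the surface is connected -/
  conn : ∀ s : Set (Fin N), s.Nonempty → (∀ h ∈ s, σ h ∈ s ∧ φ h ∈ s) → s = Set.univ
  /-- the sides of a triangle close up -/
  closed : ∀ h, v h + v (φ h) + v (φ (φ h)) = 0
  /-- the triangles are nondegenerate and oriented counterclockwise -/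
  pos : ∀ h, 0 < (star (v h) * v (φ h)).im
  /-- sides are glued by dilations `z ↦ r z + b`, `r > 0`, reversing the direction of the side -/
  glue : ∀ h, ∃ r : ℝ, 0 < r ∧ v (σ h) = -(r : ℂ) * v h
  /-- the linear holonomy around every vertex is trivial: one can attach a scale `κ h > 0` to the
  corner where the side `h` starts, so that all gluings respect the scales of the corners (the
  gluing along `h`, by the factor `‖v (σ h)‖ / ‖v h‖`, identifies the corner at the end of `h`,
  which is the one where `φ h` starts, with the one where `σ h` starts) -/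
  hol : ∃ κ : Fin N → ℝ, (∀ h, 0 < κ h) ∧ ∀ h, κ (σ h) * ‖v h‖ = κ (φ h) * ‖v (σ h)‖

/-- Triangulated dilation surfaces with `N` sides of triangles, topologised by the vectors of the
sides (and the discrete topology for the combinatorial data). -/
abbrev Surf (N : ℕ) : Type := {x : Raw N // IsTri x.1 x.2.1 x.2.2}

namespace Surf

variable {N : ℕ}

/-- the gluing of the sides -/
def σ (x : Surf N) : Fin N → Fin N := x.1.1

/-- the next side of the triangle, counterclockwise -/
def φ (x : Surf N) : Fin N → Fin N := x.1.2.1

/-- the vectors of the sides -/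
def v (x : Surf N) : Fin N → ℂ := x.1.2.2

end Surf

/-- `y` is obtained from `x` by renumbering the sides. -/
def Relabel {N : ℕ} (x y : Surf N) : Prop :=
  ∃ e : Fin N ≃ Fin N, ∀ h, y.σ (e h) = e (x.σ h) ∧ y.φ (e h) = e (x.φ h) ∧ y.v (e h) = x.v h

/-- `y` is obtained from `x` by changing the scales of the charts of the triangles. -/
def Rescale {N : ℕ} (x y : Surf N) : Prop :=
  ∃ s : Fin N → ℝ, ∀ h, 0 < s h ∧ s (x.φ h) = s h ∧
    y.σ h = x.σ h ∧ y.φ h = x.φ h ∧ y.v h = (s h : ℂ) * x.v h

/-- `y` is obtained from `x` by a flip: the triangles with sides `h, a, b` and `h', c, d`, where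
`h` and `h' = σ h` are glued by a translation, form a quadrilateral with sides `a, b, c, d`; the
diagonal `h` is replaced by the other diagonal, so that the new triangles have the sides `h, d, a`
and `h', b, c`. (Both new triangles are nondegenerate and positively oriented since `y` is a
triangulated surface, so the quadrilateral is strictly convex.) -/
def Flip {N : ℕ} (x y : Surf N) : Prop :=
  ∃ h a b h' c d : Fin N,
    (h' ≠ a ∧ h' ≠ b) ∧ x.σ h = h' ∧ x.v h' = -x.v h ∧
    (x.φ h = a ∧ x.φ a = b ∧ x.φ b = h) ∧ (x.φ h' = c ∧ x.φ c = d ∧ x.φ d = h') ∧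
    (y.φ h = d ∧ y.φ d = a ∧ y.φ a = h) ∧ (y.φ h' = b ∧ y.φ b = c ∧ y.φ c = h') ∧
    y.σ = x.σ ∧ y.v h' = -y.v h ∧ (∀ z, z ≠ h → z ≠ h' → y.v z = x.v z) ∧
    ∀ z, z ≠ h → z ≠ a → z ≠ b → z ≠ h' → z ≠ c → z ≠ d → y.φ z = x.φ z

/-- The elementary moves between triangulations of the same dilation surface. -/
def Move {N : ℕ} (x y : Surf N) : Prop := Relabel x y ∨ Rescale x y ∨ Flip x y

/-- Two triangulated surfaces are the same dilation surface: they are connected by moves. (Any two
geodesic triangulations of a dilation surface with the same vertices are connected by flips: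
flipping an edge which is not locally Delaunay increases the sorted vector of all angles, which is
invariant under dilations, so after finitely many flips one arrives at a Delaunay triangulation, and
two Delaunay triangulations differ by flips inside the cells of the Delaunay decomposition.) -/
def sameSurface (N : ℕ) : Setoid (Surf N) := Relation.EqvGen.setoid Move

/-- The moduli space of triangulable dilation surfaces which have triangulations with `N / 3`
triangles, with the quotient topology (the vectors of the sides of a triangulation are local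
coordinates). It is the union of the triangulable loci of the strata of surfaces of genus `g` with
`n` cone points, `N = 6 (2 g - 2 + n)`. -/
abbrev Moduli (N : ℕ) : Type := Quotient (sameSurface N)

/-- The point of the moduli space given by a triangulated surface. -/
def Surf.toModuli {N : ℕ} (x : Surf N) : Moduli N := Quotient.mk (sameSurface N) x

/-- The linear action of a real `2 × 2` matrix on `ℂ = ℝ²`. -/
def lin (A : Matrix.SpecialLinearGroup (Fin 2) ℝ) (z : ℂ) : ℂ :=
  ⟨A 0 0 * z.re + A 0 1 * z.im, A 1 0 * z.re + A 1 1 * z.im⟩

section lin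

variable (A : Matrix.SpecialLinearGroup (Fin 2) ℝ)

lemma lin_add (z w : ℂ) : lin A (z + w) = lin A z + lin A w := by
  apply Complex.ext <;> simp [lin] <;> ring

lemma lin_real_mul (r : ℝ) (z : ℂ) : lin A ((r : ℂ) * z) = (r : ℂ) * lin A z := by
  apply Complex.ext <;> simp [lin] <;> ring

lemma lin_neg (z : ℂ) : lin A (-z) = -lin A z := by
  apply Complex.ext <;> simp [lin] <;> ring

lemma lin_zero : lin A 0 = 0 := by
  apply Complex.ext <;> simp [lin]

lemma lin_cross (z w : ℂ) : (star (lin A z) * lin A w).im = (star z * w).im := by
  have hd := A.2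
  rw [Matrix.det_fin_two] at hd
  simp only [lin, Complex.mul_im, Complex.star_def, Complex.conj_re, Complex.conj_im]
  have : (A 0 0 * A 1 1 - A 0 1 * A 1 0 : ℝ) = 1 := hd
  linear_combination (z.re * w.im - z.im * w.re) * this

end lin

lemma ne_zero_of_pos {z w : ℂ} (h : 0 < (star z * w).im) : z ≠ 0 := by
  rintro rfl
  simp at h

/-- The linear action on triangulated surfaces: post-composition of the charts with the linear
map. -/
def Surf.act {N : ℕ} (A : Matrix.SpecialLinearGroup (Fin 2) ℝ) (x : Surf N) : Surf N :=
  ⟨(x.σ, x.φ, fun h => lin A (x.v h)), by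
    obtain ⟨⟨σ, φ, v⟩, hx⟩ := x
    refine ⟨hx.inv, hx.nofix, hx.tri, hx.trinofix, hx.conn, fun h => ?_, fun h => ?_, fun h => ?_, ?_⟩
    · show lin A (v h) + lin A (v (φ h)) + lin A (v (φ (φ h))) = 0
      rw [← lin_add, ← lin_add, hx.closed h, lin_zero]
    · show 0 < (star (lin A (v h)) * lin A (v (φ h))).im
      rw [lin_cross]; exact hx.pos h
    · obtain ⟨r, hr, h1⟩ := hx.glue h
      refine ⟨r, hr, ?_⟩
      show lin A (v (σ h)) = -(r : ℂ) * lin A (v h)
      have h1' : v (σ h) = -((r : ℂ) * v h) := by
        have := h1
        simp only [neg_mul] at this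
        exact this
      rw [h1', lin_neg, lin_real_mul]
      ring
    · obtain ⟨κ, hκ, h2⟩ := hx.hol
      refine ⟨κ, hκ, fun h => ?_⟩
      show κ (σ h) * ‖lin A (v h)‖ = κ (φ h) * ‖lin A (v (σ h))‖
      obtain ⟨r, hr, h1⟩ := hx.glue h
      have h1' : v (σ h) = -((r : ℂ) * v h) := by
        have := h1
        simp only [neg_mul] at this
        exact this
      have h3 := h2 h
      simp only at h3
      have hne : ‖v h‖ ≠ 0 := norm_ne_zero_iff.2 (ne_zero_of_pos (hx.pos h))
      rw [h1', norm_neg, norm_mul, Complex.norm_real, Real.norm_of_nonneg hr.le] at h3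
      have h4 : κ (σ h) = κ (φ h) * r := by
        apply mul_right_cancel₀ hne
        rw [h3]; ring
      rw [h4, h1', lin_neg, lin_real_mul, norm_neg, norm_mul, Complex.norm_real,
        Real.norm_of_nonneg hr.le]
      ring⟩

/-- The `SL(2, ℝ)`-orbit of a point of the moduli space. -/
def orbit {N : ℕ} (X : Moduli N) : Set (Moduli N) :=
  {Y | ∃ (x : Surf N) (A : Matrix.SpecialLinearGroup (Fin 2) ℝ),
    x.toModuli = X ∧ (x.act A).toModuli = Y}

/-- The interior angle of the triangle of the side `h` at the corner where `h` starts. -/
def Surf.angle {N : ℕ} (x : Surf N) (h : Fin N) : ℝ :=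
  Complex.arg (-x.v (x.φ (x.φ h)) / x.v h)

/-- The sides `h` and `h'` start at the same vertex of the surface: one gets from `h` to `h'` by
turning counterclockwise around the vertex. -/
def Surf.SameVertex {N : ℕ} (x : Surf N) (h h' : Fin N) : Prop :=
  ∃ m : ℕ, (fun z => x.σ (x.φ (x.φ z)))^[m] h = h'

/-- The surface has `n` vertices, with cone angles `2 π k i`, `i < n`. -/
def Surf.HasConeAngles {N n : ℕ} (x : Surf N) (k : Fin n → ℕ) : Prop :=
  ∃ p : Fin N → Fin n, Function.Surjective p ∧ (∀ h h', p h = p h' ↔ x.SameVertex h h') ∧
    ∀ i, ∑ h with p h = i, x.angle h = 2 * Real.pi * k i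

/-- The triangulable locus of the stratum of dilation surfaces of genus `g` with `n` cone points of
angles `2 π k i`, `i < n`. Since `N / 6 = 2 g - 2 + n`, there are `2 (2 g - 2 + n)` triangles,
`3 (2 g - 2 + n)` edges and `n` vertices, so the Euler characteristic is `2 - 2 g`. -/
def triangulableStratum (g n : ℕ) (k : Fin n → ℕ) : Set (Moduli (6 * (2 * g - 2 + n))) :=
  {X | ∃ x : Surf (6 * (2 * g - 2 + n)), x.toModuli = X ∧ x.HasConeAngles k}

end

end Pool.Agent.W729.Dil
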