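import Pool.Agent.W729.D1

/-!
Real-number core of the invariance under flips.
-/

set_option autoImplicit false

namespace Pool.Agent.W729.Dil

/-- A corner at height `y` above a horizontal saddle connection of scale `k` has scale `κ`. -/
def Typed (H1 H2 k y κ : ℝ) : Prop :=
  (0 ≤ y ∧ y = H1 * (κ - k)) ∨ (y ≤ 0 ∧ y = -(H2 * (κ - k)))

/-- change of the heights of a side -/
def Up (α β k α' β' k' : ℝ) : Prop :=
  (α' = α ∧ β' = β ∧ k' = k) ∨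
  (0 ≤ α ∧ 0 ≤ β ∧ (0 < α ∨ 0 < β) ∧ 0 ≤ α' ∧ 0 ≤ β') ∨
  (α ≤ 0 ∧ β ≤ 0 ∧ (α < 0 ∨ β < 0) ∧ α' ≤ 0 ∧ β' ≤ 0)

lemma Up.refl (α β k : ℝ) : Up α β k α β k := Or.inl ⟨rfl, rfl, rfl⟩

/-- agreement of the structures on the two sides of an edge; `n1`, `n2` are the lengths of the edge
in the two charts -/
def Ag (n1 n2 α1 β1 k1 α2 β2 k2 : ℝ) : Prop :=
  (k2 * n1 = k1 * n2 ∧ α2 * n1 = β1 * n2 ∧ β2 * n1 = α1 * n2) ∨
  (0 ≤ α1 ∧ 0 ≤ β1 ∧ 0 ≤ α2 ∧ 0 ≤ β2) ∨ (α1 ≤ 0 ∧ β1 ≤ 0 ∧ α2 ≤ 0 ∧ β2 ≤ 0)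

lemma Ag.symm {n1 n2 α1 β1 k1 α2 β2 k2 : ℝ} (h : Ag n1 n2 α1 β1 k1 α2 β2 k2) :
    Ag n2 n1 α2 β2 k2 α1 β1 k1 := by
  rcases h with ⟨h1, h2, h3⟩ | ⟨h1, h2, h3, h4⟩ | ⟨h1, h2, h3, h4⟩
  · exact Or.inl ⟨h1.symm, h3.symm, h2.symm⟩
  · exact Or.inr (Or.inl ⟨h3, h4, h1, h2⟩)
  · exact Or.inr (Or.inr ⟨h3, h4, h1, h2⟩)

lemma nonneg_of_mul_eq {n1 n2 x y : ℝ} (h1 : 0 < n1) (h2 : 0 < n2) (h : x * n1 = y * n2)
    (hy : 0 ≤ y) : 0 ≤ x := by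
  by_contra hx
  push Not at hx
  have := mul_neg_of_neg_of_pos hx h1
  have := mul_nonneg hy h2.le
  linarith

lemma nonpos_of_mul_eq {n1 n2 x y : ℝ} (h1 : 0 < n1) (h2 : 0 < n2) (h : x * n1 = y * n2)
    (hy : y ≤ 0) : x ≤ 0 := by
  by_contra hx
  push Not at hx
  have := mul_pos hx h1
  have := mul_nonpos_of_nonpos_of_nonneg hy h2.le
  linarith

lemma Ag.up {n1 n2 α1 β1 k1 α2 β2 k2 α' β' k' : ℝ} (hn1 : 0 < n1) (hn2 : 0 < n2)
    (h : Ag n1 n2 α1 β1 k1 α2 β2 k2) (hu : Up α1 β1 k1 α' β' k') :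
    Ag n1 n2 α' β' k' α2 β2 k2 := by
  rcases hu with ⟨rfl, rfl, rfl⟩ | ⟨u1, u2, u3, u4, u5⟩ | ⟨u1, u2, u3, u4, u5⟩
  · exact h
  · refine Or.inr (Or.inl ?_)
    rcases h with ⟨h1, h2, h3⟩ | ⟨h1, h2, h3, h4⟩ | ⟨h1, h2, h3, h4⟩
    · exact ⟨u4, u5, nonneg_of_mul_eq hn1 hn2 h2 u2, nonneg_of_mul_eq hn1 hn2 h3 u1⟩
    · exact ⟨u4, u5, h3, h4⟩
    · exfalso; rcases u3 with h | h <;> linarith
  · refine Or.inr (Or.inr ?_)
    rcases h with ⟨h1, h2, h3⟩ | ⟨h1, h2, h3, h4⟩ | ⟨h1, h2, h3, h4⟩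
    · exact ⟨u4, u5, nonpos_of_mul_eq hn1 hn2 h2 u2, nonpos_of_mul_eq hn1 hn2 h3 u1⟩
    · exfalso; rcases u3 with h | h <;> linarith
    · exact ⟨u4, u5, h3, h4⟩

lemma Typed.of_nonneg {H1 H2 k y κ : ℝ} (hH1 : 0 < H1) (hH2 : 0 < H2) (h : Typed H1 H2 k y κ)
    (hy : 0 ≤ y) : y = H1 * (κ - k) := by
  rcases h with h | ⟨h, h'⟩
  · exact h.2
  · have h0 : y = 0 := le_antisymm h hy
    rw [h0] at h' ⊢
    have : H2 * (κ - k) = 0 := by linarith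
    rcases mul_eq_zero.1 this with h1 | h1
    · linarith
    · rw [h1]; ring

lemma Typed.neg {H1 H2 k y κ : ℝ} (h : Typed H1 H2 k y κ) : Typed H2 H1 k (-y) κ := by
  rcases h with ⟨h, h'⟩ | ⟨h, h'⟩
  · exact Or.inr ⟨by linarith, by rw [h']⟩
  · exact Or.inl ⟨by linarith, by rw [h']; ring⟩

lemma Up.neg {α β k α' β' k' : ℝ} (h : Up α β k α' β' k') : Up (-α) (-β) k (-α') (-β') k' := by
  rcases h with ⟨rfl, rfl, rfl⟩ | ⟨u1, u2, u3, u4, u5⟩ | ⟨u1, u2, u3, u4, u5⟩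
  · exact Or.inl ⟨rfl, rfl, rfl⟩
  · exact Or.inr (Or.inr ⟨by linarith, by linarith, by rcases u3 with h | h; exact Or.inl (by linarith); exact Or.inr (by linarith), by linarith, by linarith⟩)
  · exact Or.inr (Or.inl ⟨by linarith, by linarith, by rcases u3 with h | h; exact Or.inl (by linarith); exact Or.inr (by linarith), by linarith, by linarith⟩)

/-- The conclusion of the core lemma: new offsets `δa` (for the first triangle), `δc` (for the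
second one) and a new chord scale `K`. -/
def Concl (H1 H2 k1 k2 p1 r1 q1 p2 r2 s2 κP κR κQ κS : ℝ) : Prop :=
  ∃ δa δc K : ℝ, 0 < K ∧ p1 + δa = p2 + δc ∧ r1 + δa = r2 + δc ∧
    Typed H1 H2 K (p1 + δa) κP ∧ Typed H1 H2 K (r1 + δa) κR ∧
    Typed H1 H2 K (q1 + δa) κQ ∧ Typed H1 H2 K (s2 + δc) κS ∧
    Up r1 q1 k1 (r1 + δa) (q1 + δa) K ∧ Up q1 p1 k1 (q1 + δa) (p1 + δa) K ∧
    Up p2 s2 k2 (p2 + δc) (s2 + δc) K ∧ Up s2 r2 k2 (s2 + δc) (r2 + δc) K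

lemma core_ge {H1 H2 k1 k2 p1 r1 q1 p2 r2 s2 κP κR κQ κS A1 A2 B1 : ℝ}
    (hH1 : 0 < H1) (hH2 : 0 < H2) (hk1 : 0 < k1) (hk2 : 0 < k2)
    (hA1 : 0 < A1) (hA2 : 0 < A2) (hB1 : 0 < B1) (hB2 : B1 < A1 + A2)
    (hconv : B1 * (r1 - p1) = A1 * (s2 - p2) + A2 * (q1 - p1))
    (hpr : p2 - p1 = r2 - r1) (hδ : p2 ≤ p1)
    (hp1 : 0 ≤ p1) (hr1 : 0 ≤ r1) (hp2 : 0 ≤ p2) (hr2 : 0 ≤ r2)
    (tp1 : Typed H1 H2 k1 p1 κP) (tr1 : Typed H1 H2 k1 r1 κR) (tq1 : Typed H1 H2 k1 q1 κQ)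
    (tp2 : Typed H1 H2 k2 p2 κP) (tr2 : Typed H1 H2 k2 r2 κR) (ts2 : Typed H1 H2 k2 s2 κS) :
    Concl H1 H2 k1 k2 p1 r1 q1 p2 r2 s2 κP κR κQ κS := by
  have e1 := tp1.of_nonneg hH1 hH2 hp1
  have e2 := tp2.of_nonneg hH1 hH2 hp2
  have hd : p2 - p1 = H1 * (k1 - k2) := by rw [e1, e2]; ring
  by_cases hq : 0 ≤ q1 + (p2 - p1)
  · -- use the second chord
    have hq1 : 0 ≤ q1 := by linarith
    have e3 := tq1.of_nonneg hH1 hH2 hq1
    refine ⟨p2 - p1, 0, k2, hk2, by ring, by linarith, ?_, ?_, ?_, ?_, ?_, ?_, ?_, ?_⟩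
    · rw [show p1 + (p2 - p1) = p2 by ring]; exact tp2
    · rw [show r1 + (p2 - p1) = r2 by linarith]; exact tr2
    · exact Or.inl ⟨hq, by rw [hd, e3]; ring⟩
    · rw [add_zero]; exact ts2
    · by_cases h0 : p2 - p1 = 0
      · have : k2 = k1 := by
          rw [h0] at hd
          rcases mul_eq_zero.1 hd.symm with h | h <;> linarith
        exact Or.inl ⟨by linarith, by linarith, this⟩
      · have h1 : p2 - p1 < 0 := lt_of_le_of_ne (by linarith) h0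
        exact Or.inr (Or.inl ⟨hr1, hq1, Or.inl (by linarith), by linarith, by linarith⟩)
    · by_cases h0 : p2 - p1 = 0
      · have : k2 = k1 := by
          rw [h0] at hd
          rcases mul_eq_zero.1 hd.symm with h | h <;> linarith
        exact Or.inl ⟨by linarith, by linarith, this⟩
      · have h1 : p2 - p1 < 0 := lt_of_le_of_ne (by linarith) h0
        exact Or.inr (Or.inl ⟨hq1, hp1, Or.inr (by linarith), by linarith, by linarith⟩)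
    · rw [add_zero, add_zero]; exact Up.refl _ _ _
    · rw [add_zero, add_zero]; exact Up.refl _ _ _
  · -- use the first chord
    push Not at hq
    have key : (A1 + A2 - B1) * p2 + B1 * r2 = A1 * s2 + A2 * (q1 + (p2 - p1)) := by
      have : r1 = r2 - (p2 - p1) := by linarith
      rw [this] at hconv
      linear_combination hconv
    have hs : 0 ≤ s2 := by
      by_contra hs
      push Not at hs
      have h1 := mul_neg_of_pos_of_neg hA1 hs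
      have h2 := mul_neg_of_pos_of_neg hA2 hq
      have h3 := mul_nonneg (by linarith : 0 ≤ A1 + A2 - B1) hp2
      have h4 := mul_nonneg hB1.le hr2
      linarith
    have e3 := ts2.of_nonneg hH1 hH2 hs
    have h2 := mul_neg_of_pos_of_neg hA2 hq
    refine ⟨0, p1 - p2, k1, hk1, by ring, by linarith, ?_, ?_, ?_, ?_, ?_, ?_, ?_, ?_⟩
    · rw [add_zero]; exact tp1
    · rw [add_zero]; exact tr1
    · rw [add_zero]; exact tq1
    · exact Or.inl ⟨by linarith, by rw [e3]; linear_combination -hd⟩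
    · rw [add_zero, add_zero]; exact Up.refl _ _ _
    · rw [add_zero, add_zero]; exact Up.refl _ _ _
    · refine Or.inr (Or.inl ⟨hp2, hs, ?_, by linarith, by linarith⟩)
      by_contra hcon
      push Not at hcon
      have h3 : p2 = 0 := le_antisymm hcon.1 hp2
      have h4 : s2 = 0 := le_antisymm hcon.2 hs
      rw [h4] at key
      have h5 := mul_nonneg (by linarith : 0 ≤ A1 + A2 - B1) hp2
      have h6 := mul_nonneg hB1.le hr2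
      linarith
    · refine Or.inr (Or.inl ⟨hs, hr2, ?_, by linarith, by linarith⟩)
      by_contra hcon
      push Not at hcon
      have h4 : s2 = 0 := le_antisymm hcon.1 hs
      rw [h4] at key
      have h5 := mul_nonneg (by linarith : 0 ≤ A1 + A2 - B1) hp2
      have h6 := mul_nonneg hB1.le hr2
      linarith

lemma core_ge' {H1 H2 k1 k2 p1 r1 q1 p2 r2 s2 κP κR κQ κS A1 A2 B1 : ℝ}
    (hH1 : 0 < H1) (hH2 : 0 < H2) (hk1 : 0 < k1) (hk2 : 0 < k2)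
    (hA1 : 0 < A1) (hA2 : 0 < A2) (hB1 : 0 < B1) (hB2 : B1 < A1 + A2)
    (hconv : B1 * (r1 - p1) = A1 * (s2 - p2) + A2 * (q1 - p1))
    (hpr : p2 - p1 = r2 - r1)
    (hp1 : 0 ≤ p1) (hr1 : 0 ≤ r1) (hp2 : 0 ≤ p2) (hr2 : 0 ≤ r2)
    (tp1 : Typed H1 H2 k1 p1 κP) (tr1 : Typed H1 H2 k1 r1 κR) (tq1 : Typed H1 H2 k1 q1 κQ)
    (tp2 : Typed H1 H2 k2 p2 κP) (tr2 : Typed H1 H2 k2 r2 κR) (ts2 : Typed H1 H2 k2 s2 κS) :
    Concl H1 H2 k1 k2 p1 r1 q1 p2 r2 s2 κP κR κQ κS := by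
  rcases le_total p2 p1 with hδ | hδ
  · exact core_ge hH1 hH2 hk1 hk2 hA1 hA2 hB1 hB2 hconv hpr hδ hp1 hr1 hp2 hr2 tp1 tr1 tq1 tp2 tr2 ts2
  · -- exchange the two triangles: P ↔ R, Q ↔ S
    have hconv' : (A1 + A2 - B1) * (p2 - r2) = A2 * (q1 - r1) + A1 * (s2 - r2) := by
      have : r1 = r2 - p2 + p1 := by linarith
      rw [this] at hconv ⊢
      linear_combination hconv
    obtain ⟨δa, δc, K, hK, c1, c2, c3, c4, c5, c6, c7, c8, c9, c10⟩ :=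
      core_ge (k1 := k2) (k2 := k1) (p1 := r2) (r1 := p2) (q1 := s2) (p2 := r1) (r2 := p1) (s2 := q1)
        (κP := κR) (κR := κP) (κQ := κS) (κS := κQ)
        hH1 hH2 hk2 hk1 hA2 hA1 (by linarith : 0 < A1 + A2 - B1) (by linarith)
        hconv' (by linarith) (by linarith) hr2 hp2 hr1 hp1 tr2 tp2 ts2 tr1 tp1 tq1
    exact ⟨δc, δa, K, hK, c2.symm, c1.symm, c2 ▸ c4, c1 ▸ c3, c6, c5, c9, c10, c7, c8⟩

lemma core {H1 H2 k1 k2 p1 r1 q1 p2 r2 s2 κP κR κQ κS A1 A2 B1 n : ℝ}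
    (hH1 : 0 < H1) (hH2 : 0 < H2) (hk1 : 0 < k1) (hk2 : 0 < k2) (hn : 0 < n)
    (hA1 : 0 < A1) (hA2 : 0 < A2) (hB1 : 0 < B1) (hB2 : B1 < A1 + A2)
    (hconv : B1 * (r1 - p1) = A1 * (s2 - p2) + A2 * (q1 - p1))
    (hpr : p2 - p1 = r2 - r1)
    (hag : Ag n n p1 r1 k1 r2 p2 k2)
    (tp1 : Typed H1 H2 k1 p1 κP) (tr1 : Typed H1 H2 k1 r1 κR) (tq1 : Typed H1 H2 k1 q1 κQ)
    (tp2 : Typed H1 H2 k2 p2 κP) (tr2 : Typed H1 H2 k2 r2 κR) (ts2 : Typed H1 H2 k2 s2 κS) :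
    Concl H1 H2 k1 k2 p1 r1 q1 p2 r2 s2 κP κR κQ κS := by
  rcases hag with ⟨h1, h2, h3⟩ | ⟨hp1, hr1, hr2, hp2⟩ | ⟨hp1, hr1, hr2, hp2⟩
  · have e1 : k2 = k1 := mul_right_cancel₀ hn.ne' h1
    have e2 : r2 = r1 := mul_right_cancel₀ hn.ne' h2
    have e3 : p2 = p1 := mul_right_cancel₀ hn.ne' h3
    subst e1 e2 e3
    refine ⟨0, 0, k2, hk2, by ring, by ring, ?_, ?_, ?_, ?_, ?_, ?_, ?_, ?_⟩
    all_goals simp only [add_zero]
    all_goals first | assumption | exact Up.refl _ _ _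
  · exact core_ge' hH1 hH2 hk1 hk2 hA1 hA2 hB1 hB2 hconv hpr hp1 hr1 hp2 hr2 tp1 tr1 tq1 tp2 tr2 ts2
  · have := core_ge' (p1 := -p1) (r1 := -r1) (q1 := -q1) (p2 := -p2) (r2 := -r2) (s2 := -s2)
      hH2 hH1 hk1 hk2 hA1 hA2 hB1 hB2 (by linarith)
      (by linarith) (by linarith) (by linarith) (by linarith) (by linarith)
      tp1.neg tr1.neg tq1.neg tp2.neg tr2.neg ts2.neg
    obtain ⟨δa, δc, K, hK, c1, c2, c3, c4, c5, c6, c7, c8, c9, c10⟩ := this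
    refine ⟨-δa, -δc, K, hK, by linarith, by linarith, ?_, ?_, ?_, ?_, ?_, ?_, ?_, ?_⟩
    · have := c3.neg; rwa [show -(-p1 + δa) = p1 + -δa by ring] at this
    · have := c4.neg; rwa [show -(-r1 + δa) = r1 + -δa by ring] at this
    · have := c5.neg; rwa [show -(-q1 + δa) = q1 + -δa by ring] at this
    · have := c6.neg; rwa [show -(-s2 + δc) = s2 + -δc by ring] at this
    · have := c7.neg
      rwa [neg_neg, neg_neg, show -(-r1 + δa) = r1 + -δa by ring, show -(-q1 + δa) = q1 + -δa by ring] at this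
    · have := c8.neg
      rwa [neg_neg, neg_neg, show -(-q1 + δa) = q1 + -δa by ring, show -(-p1 + δa) = p1 + -δa by ring] at this
    · have := c9.neg
      rwa [neg_neg, neg_neg, show -(-p2 + δc) = p2 + -δc by ring, show -(-s2 + δc) = s2 + -δc by ring] at this
    · have := c10.neg
      rwa [neg_neg, neg_neg, show -(-s2 + δc) = s2 + -δc by ring, show -(-r2 + δc) = r2 + -δc by ring] at this

end Pool.Agent.W729.Dil
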