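import Pool.Agent.W729.D2

/-!
The structure given by a separating horizontal saddle connection, and its invariance under moves.
-/

set_option autoImplicit false

namespace Pool.Agent.W729.Dil

noncomputable section

variable {N : ℕ}

lemma Surf.inv (x : Surf N) (h : Fin N) : x.σ (x.σ h) = h := x.2.inv h
lemma Surf.nofix (x : Surf N) (h : Fin N) : x.σ h ≠ h := x.2.nofix h
lemma Surf.tri (x : Surf N) (h : Fin N) : x.φ (x.φ (x.φ h)) = h := x.2.tri h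
lemma Surf.trinofix (x : Surf N) (h : Fin N) : x.φ h ≠ h := x.2.trinofix h
lemma Surf.closed (x : Surf N) (h : Fin N) : x.v h + x.v (x.φ h) + x.v (x.φ (x.φ h)) = 0 :=
  x.2.closed h
lemma Surf.pos (x : Surf N) (h : Fin N) : 0 < (star (x.v h) * x.v (x.φ h)).im := x.2.pos h
lemma Surf.glue (x : Surf N) (h : Fin N) : ∃ r : ℝ, 0 < r ∧ x.v (x.σ h) = -(r : ℂ) * x.v h :=
  x.2.glue h
lemma Surf.v_ne (x : Surf N) (h : Fin N) : x.v h ≠ 0 := ne_zero_of_pos (x.pos h)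
lemma Surf.norm_pos (x : Surf N) (h : Fin N) : 0 < ‖x.v h‖ := norm_pos_iff.2 (x.v_ne h)

lemma Surf.φ_inj (x : Surf N) {h h' : Fin N} (e : x.φ h = x.φ h') : h = h' := by
  rw [← x.tri h, ← x.tri h', e]

lemma Surf.σ_inj (x : Surf N) {h h' : Fin N} (e : x.σ h = x.σ h') : h = h' := by
  rw [← x.inv h, ← x.inv h', e]

/-- corner scales of a surface -/
def ScaleOn (x : Surf N) (κ : Fin N → ℝ) : Prop :=
  (∀ h, 0 < κ h) ∧ ∀ h, κ (x.σ h) * ‖x.v h‖ = κ (x.φ h) * ‖x.v (x.σ h)‖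

/-- The structure: heights `y` and chord scales `k0`. -/
structure RS (x : Surf N) (κ : Fin N → ℝ) (ω : ℂ →ₗ[ℝ] ℝ) (H1 H2 : ℝ) (y k0 : Fin N → ℝ) :
    Prop where
  kpos : ∀ h, 0 < k0 h
  kφ : ∀ h, k0 (x.φ h) = k0 h
  yφ : ∀ h, y (x.φ h) = y h + ω (x.v h)
  ty : ∀ h, Typed H1 H2 (k0 h) (y h) (κ h)
  ag : ∀ h, Ag ‖x.v h‖ ‖x.v (x.σ h)‖ (y h) (y (x.φ h)) (k0 h) (y (x.σ h)) (y (x.φ (x.σ h)))
    (k0 (x.σ h))

/-- existence of the structure -/
def HasR (x : Surf N) (κ : Fin N → ℝ) (ω : ℂ →ₗ[ℝ] ℝ) (H1 H2 : ℝ) : Prop :=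
  ∃ y k0, RS x κ ω H1 H2 y k0

/-- general flips, with corner scales -/
structure FlipG (x y : Surf N) (κ κ' : Fin N → ℝ) (h a b h' c d k k' : Fin N) : Prop where
  ha : h' ≠ a
  hb : h' ≠ b
  xσ : x.σ h = h'
  xv : x.v h' = -x.v h
  x1 : x.φ h = a
  x2 : x.φ a = b
  x3 : x.φ b = h
  x4 : x.φ h' = c
  x5 : x.φ c = d
  x6 : x.φ d = h'
  y1 : y.φ k = d
  y2 : y.φ d = a
  y3 : y.φ a = k
  y4 : y.φ k' = b
  y5 : y.φ b = c
  y6 : y.φ c = k'
  yσ : y.σ = x.σ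
  yv : y.v k' = -y.v k
  off : ∀ z, z ≠ h → z ≠ h' → y.v z = x.v z
  offφ : ∀ z, z ≠ h → z ≠ a → z ≠ b → z ≠ h' → z ≠ c → z ≠ d → y.φ z = x.φ z
  kk : (k = h ∧ k' = h') ∨ (k = h' ∧ k' = h)
  κ1 : κ h' = κ a
  κ2 : κ h = κ c
  κ3 : κ' k = κ b
  κ4 : κ' k' = κ d
  κ5 : ∀ z, z ≠ h → z ≠ h' → κ' z = κ z

namespace FlipG

variable {x y : Surf N} {κ κ' : Fin N → ℝ} {h a b h' c d k k' : Fin N}

lemma ne1 (F : FlipG x y κ κ' h a b h' c d k k') : a ≠ h := by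
  rw [← F.x1]; exact x.trinofix h
lemma ne2 (F : FlipG x y κ κ' h a b h' c d k k') : b ≠ a := by
  rw [← F.x2]; exact x.trinofix a
lemma ne3 (F : FlipG x y κ κ' h a b h' c d k k') : h ≠ b := by
  have := x.trinofix b
  rwa [F.x3] at this
lemma ne4 (F : FlipG x y κ κ' h a b h' c d k k') : c ≠ h' := by
  rw [← F.x4]; exact x.trinofix h'
lemma ne5 (F : FlipG x y κ κ' h a b h' c d k k') : d ≠ c := by
  rw [← F.x5]; exact x.trinofix c
lemma ne6 (F : FlipG x y κ κ' h a b h' c d k k') : h' ≠ d := by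
  have := x.trinofix d
  rwa [F.x6] at this
lemma ne7 (F : FlipG x y κ κ' h a b h' c d k k') : h' ≠ h := by
  rw [← F.xσ]; exact x.nofix h
lemma ne8 (F : FlipG x y κ κ' h a b h' c d k k') : d ≠ h := by
  intro e; apply F.ha; rw [← F.x6, e, F.x1]
lemma ne9 (F : FlipG x y κ κ' h a b h' c d k k') : d ≠ a := by
  intro e; apply F.hb; rw [← F.x6, e, F.x2]
lemma ne10 (F : FlipG x y κ κ' h a b h' c d k k') : d ≠ b := by
  intro e; apply F.ne7; rw [← F.x6, e, F.x3]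
lemma ne11 (F : FlipG x y κ κ' h a b h' c d k k') : c ≠ h := by
  intro e; apply F.ne9; rw [← F.x5, e, F.x1]
lemma ne12 (F : FlipG x y κ κ' h a b h' c d k k') : c ≠ a := by
  intro e; apply F.ne10; rw [← F.x5, e, F.x2]
lemma ne13 (F : FlipG x y κ κ' h a b h' c d k k') : c ≠ b := by
  intro e; apply F.ne8; rw [← F.x5, e, F.x3]

lemma symm (F : FlipG x y κ κ' h a b h' c d k k') : FlipG y x κ' κ k d a k' b c h' h := by
  have n1 := F.ne1; have n2 := F.ne2; have n3 := F.ne3; have n4 := F.ne4; have n5 := F.ne5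
  have n6 := F.ne6; have n7 := F.ne7; have n8 := F.ne8; have n9 := F.ne9; have n10 := F.ne10
  have n11 := F.ne11; have n12 := F.ne12; have n13 := F.ne13; have n14 := F.ha; have n15 := F.hb
  have hσ' : x.σ h' = h := by rw [← F.xσ, x.inv]
  have hxv : x.v h = -x.v h' := by rw [F.xv, neg_neg]
  have kd : κ' d = κ d := F.κ5 d n8 n6.symm
  have kb : κ' b = κ b := F.κ5 b n3.symm n15.symm
  have ka : κ' a = κ a := F.κ5 a n1 n14.symm
  have kc : κ' c = κ c := F.κ5 c n11 n4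
  constructor
  · rcases F.kk with ⟨e1, e2⟩ | ⟨e1, e2⟩ <;> subst e1 e2
    · exact n6
    · exact n8.symm
  · rcases F.kk with ⟨e1, e2⟩ | ⟨e1, e2⟩ <;> subst e1 e2
    · exact n14
    · exact n1.symm
  · rw [F.yσ]
    rcases F.kk with ⟨e1, e2⟩ | ⟨e1, e2⟩ <;> subst e1 e2
    · exact F.xσ
    · exact hσ'
  · exact F.yv
  · exact F.y1
  · exact F.y2
  · exact F.y3
  · exact F.y4
  · exact F.y5
  · exact F.y6
  · exact F.x4
  · exact F.x5
  · exact F.x6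
  · exact F.x1
  · exact F.x2
  · exact F.x3
  · exact F.yσ.symm
  · exact hxv
  · intro z h1 h2
    rcases F.kk with ⟨e1, e2⟩ | ⟨e1, e2⟩ <;> subst e1 e2
    · exact (F.off z h1 h2).symm
    · exact (F.off z h2 h1).symm
  · intro z h1 h2 h3 h4 h5 h6
    rcases F.kk with ⟨e1, e2⟩ | ⟨e1, e2⟩ <;> subst e1 e2
    · exact (F.offφ z h1 h3 h5 h4 h6 h2).symm
    · exact (F.offφ z h4 h3 h5 h1 h6 h2).symm
  · rcases F.kk with ⟨e1, e2⟩ | ⟨e1, e2⟩ <;> subst e1 e2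
    · exact Or.inr ⟨rfl, rfl⟩
    · exact Or.inl ⟨rfl, rfl⟩
  · rw [F.κ4, kd]
  · rw [F.κ3, kb]
  · rw [ka, F.κ1]
  · rw [kc, F.κ2]
  · intro z h1 h2
    rcases F.kk with ⟨e1, e2⟩ | ⟨e1, e2⟩ <;> subst e1 e2
    · exact (F.κ5 z h1 h2).symm
    · exact (F.κ5 z h2 h1).symm

end FlipG

/-- oriented area -/
def cr (z w : ℂ) : ℝ := z.re * w.im - z.im * w.re

lemma cr_eq (z w : ℂ) : (star z * w).im = cr z w := by
  simp [cr]; ring

lemma cr_identity (r s q : ℂ) : ((cr s q : ℝ) : ℂ) * r = ((cr r q : ℝ) : ℂ) * s + ((cr s r : ℝ) : ℂ) * q := by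
  apply Complex.ext <;> simp [cr] <;> ring

lemma omega_smul (ω : ℂ →ₗ[ℝ] ℝ) (t : ℝ) (z : ℂ) : ω ((t : ℂ) * z) = t * ω z := by
  have : (t : ℂ) * z = t • z := by rw [Complex.real_smul]
  rw [this, map_smul, smul_eq_mul]

lemma RS_flip {x y : Surf N} {κ κ' : Fin N → ℝ} {h a b h' c d k k' : Fin N}
    (F : FlipG x y κ κ' h a b h' c d k k') {ω : ℂ →ₗ[ℝ] ℝ} {H1 H2 : ℝ} (hH1 : 0 < H1) (hH2 : 0 < H2)
    (hR : HasR x κ ω H1 H2) : HasR y κ' ω H1 H2 := by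
  obtain ⟨Y, K0, R⟩ := hR
  have n1 := F.ne1; have n2 := F.ne2; have n3 := F.ne3; have n4 := F.ne4; have n5 := F.ne5
  have n6 := F.ne6; have n7 := F.ne7; have n8 := F.ne8; have n9 := F.ne9; have n10 := F.ne10
  have n11 := F.ne11; have n12 := F.ne12; have n13 := F.ne13; have n14 := F.ha; have n15 := F.hb
  have hσ' : x.σ h' = h := by rw [← F.xσ, x.inv]
  -- vector identities
  have vb : x.v h + x.v a + x.v b = 0 := by
    have := x.closed h; rwa [F.x1, F.x2] at this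
  have vd : x.v h' + x.v c + x.v d = 0 := by
    have := x.closed h'; rwa [F.x4, F.x5] at this
  have ya : y.v a = x.v a := F.off a n1 n14.symm
  have yb : y.v b = x.v b := F.off b n3.symm n15.symm
  have yc : y.v c = x.v c := F.off c n11 n4
  have yd : y.v d = x.v d := F.off d n8 n6.symm
  -- the areas
  set A1 := cr (x.v h) (-x.v b) with hA1
  set A2 := cr (x.v c) (x.v h) with hA2
  set B1 := cr (x.v c) (-x.v b) with hB1
  have pA1 : 0 < A1 := by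
    have := x.pos h
    rw [F.x1, cr_eq] at this
    have e : x.v a = -x.v h - x.v b := by linear_combination vb
    rw [e] at this
    rw [hA1]; simp only [cr, Complex.neg_re, Complex.neg_im, Complex.sub_re, Complex.sub_im] at this ⊢
    linarith
  have pA2 : 0 < A2 := by
    have := x.pos h'
    rw [F.x4, cr_eq, F.xv] at this
    rw [hA2]; simp only [cr, Complex.neg_re, Complex.neg_im] at this ⊢
    linarith
  have pB1 : 0 < B1 := by
    have := y.pos b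
    rw [F.y5, cr_eq, yb, yc] at this
    rw [hB1]; simp only [cr, Complex.neg_re, Complex.neg_im] at this ⊢
    linarith
  have pB2 : B1 < A1 + A2 := by
    have := y.pos d
    rw [F.y2, cr_eq, yd, ya] at this
    have e : x.v a = -x.v h - x.v b := by linear_combination vb
    have e' : x.v d = x.v h - x.v c := by
      have := vd; rw [F.xv] at this; linear_combination this
    rw [e, e'] at this
    rw [hB1, hA1, hA2]
    simp only [cr, Complex.neg_re, Complex.neg_im, Complex.sub_re, Complex.sub_im] at this ⊢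
    nlinarith
  -- heights
  have w1 : Y a = Y h + ω (x.v h) := by have := R.yφ h; rwa [F.x1] at this
  have w2 : Y b = Y a + ω (x.v a) := by have := R.yφ a; rwa [F.x2] at this
  have w3 : Y h = Y b + ω (x.v b) := by have := R.yφ b; rwa [F.x3] at this
  have w4 : Y c = Y h' - ω (x.v h) := by
    have := R.yφ h'; rw [F.x4, F.xv, map_neg] at this; linarith
  have w5 : Y d = Y c + ω (x.v c) := by have := R.yφ c; rwa [F.x5] at this
  have w6 : Y h' = Y d + ω (x.v d) := by have := R.yφ d; rwa [F.x6] at this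
  have q1 : K0 a = K0 h := by have := R.kφ h; rwa [F.x1] at this
  have q2 : K0 b = K0 h := by have := R.kφ a; rw [F.x2] at this; rw [this, q1]
  have q3 : K0 c = K0 h' := by have := R.kφ h'; rwa [F.x4] at this
  have q4 : K0 d = K0 h' := by have := R.kφ c; rw [F.x5] at this; rw [this, q3]
  have hconv : B1 * (Y a - Y h) = A1 * (Y d - Y c) + A2 * (Y b - Y h) := by
    have := congrArg ω (cr_identity (x.v h) (x.v c) (-x.v b))
    rw [map_add, omega_smul, omega_smul, omega_smul, map_neg] at this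
    have e1 : Y a - Y h = ω (x.v h) := by linarith
    have e2 : Y d - Y c = ω (x.v c) := by linarith
    have e3 : Y b - Y h = -ω (x.v b) := by linarith
    rw [e1, e2, e3]
    exact this
  have hnorm : ‖x.v h'‖ = ‖x.v h‖ := by rw [F.xv, norm_neg]
  have hag : Ag ‖x.v h‖ ‖x.v h‖ (Y h) (Y a) (K0 h) (Y h') (Y c) (K0 h') := by
    have := R.ag h
    rwa [F.xσ, F.x1, F.x4, hnorm] at this
  have tP1 := R.ty h
  have tR1 := R.ty a
  have tQ1 := R.ty b
  have tR2 := R.ty h'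
  have tP2 := R.ty c
  have tS2 := R.ty d
  rw [q1] at tR1
  rw [q2] at tQ1
  rw [q3] at tP2
  rw [q4] at tS2
  rw [F.κ2] at tP1
  rw [F.κ1] at tR2
  obtain ⟨δa, δc, K, hK, c1, c2, c3, c4, c5, c6, c7, c8, c9, c10⟩ :=
    core hH1 hH2 (R.kpos h) (R.kpos h') (x.norm_pos h) pA1 pA2 pB1 pB2 hconv (by linarith) hag
      tP1 tR1 tQ1 tP2 tR2 tS2
  -- the new structure
  let Y' : Fin N → ℝ := fun z => if z = k then Y b + δa else if z = k' then Y d + δc else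
    if z = a then Y a + δa else if z = b then Y b + δa else if z = c then Y c + δc else
    if z = d then Y d + δc else Y z
  let K' : Fin N → ℝ := fun z => if z = k then K else if z = k' then K else
    if z = a then K else if z = b then K else if z = c then K else
    if z = d then K else K0 z
  -- distinctness with k, k'
  have m1 : a ≠ k ∧ b ≠ k ∧ c ≠ k ∧ d ≠ k ∧ a ≠ k' ∧ b ≠ k' ∧ c ≠ k' ∧ d ≠ k' ∧ k' ≠ k := by
    rcases F.kk with ⟨e1, e2⟩ | ⟨e1, e2⟩ <;> rw [e1, e2]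
    · exact ⟨n1, n3.symm, n11, n8, n14.symm, n15.symm, n4, n6.symm, n7⟩
    · exact ⟨n14.symm, n15.symm, n4, n6.symm, n1, n3.symm, n11, n8, n7.symm⟩
  obtain ⟨m1, m2, m3, m4, m5, m6, m7, m8, m9⟩ := m1
  have Yk : Y' k = Y b + δa := by simp [Y']
  have Yk' : Y' k' = Y d + δc := by simp [Y', m9]
  have Ya : Y' a = Y a + δa := by simp [Y', m1, m5]
  have Yb : Y' b = Y b + δa := by simp [Y', m2, m6, n2]
  have Yc : Y' c = Y c + δc := by simp [Y', m3, m7, n12, n13]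
  have Yd : Y' d = Y d + δc := by simp [Y', m4, m8, n9, n10, n5]
  have Kk : K' k = K := by simp [K']
  have Kk' : K' k' = K := by simp [K', m9]
  have Ka : K' a = K := by simp [K', m1, m5]
  have Kb : K' b = K := by simp [K', m2, m6, n2]
  have Kc : K' c = K := by simp [K', m3, m7, n12, n13]
  have Kd : K' d = K := by simp [K', m4, m8, n9, n10, n5]
  have hkz : ∀ z, z ≠ h → z ≠ h' → z ≠ k ∧ z ≠ k' := by
    intro z h1 h2
    rcases F.kk with ⟨e1, e2⟩ | ⟨e1, e2⟩ <;> rw [e1, e2]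
    · exact ⟨h1, h2⟩
    · exact ⟨h2, h1⟩
  have hkz' : ∀ z, z ≠ k → z ≠ k' → z ≠ h ∧ z ≠ h' := by
    intro z h1 h2
    rcases F.kk with ⟨e1, e2⟩ | ⟨e1, e2⟩ <;> rw [e1] at h1 <;> rw [e2] at h2
    · exact ⟨h1, h2⟩
    · exact ⟨h2, h1⟩
  have Yo : ∀ z, z ≠ h → z ≠ a → z ≠ b → z ≠ h' → z ≠ c → z ≠ d → Y' z = Y z := by
    intro z h1 h2 h3 h4 h5 h6
    obtain ⟨h7, h8⟩ := hkz z h1 h4
    simp [Y', h2, h3, h5, h6, h7, h8]
  have Ko : ∀ z, z ≠ h → z ≠ a → z ≠ b → z ≠ h' → z ≠ c → z ≠ d → K' z = K0 z := by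
    intro z h1 h2 h3 h4 h5 h6
    obtain ⟨h7, h8⟩ := hkz z h1 h4
    simp [K', h2, h3, h5, h6, h7, h8]
  -- the successor of a side off the quadrilateral is off the quadrilateral
  have off6 : ∀ z, z ≠ h → z ≠ a → z ≠ b → z ≠ h' → z ≠ c → z ≠ d →
      x.φ z ≠ h ∧ x.φ z ≠ a ∧ x.φ z ≠ b ∧ x.φ z ≠ h' ∧ x.φ z ≠ c ∧ x.φ z ≠ d := by
    intro z h1 h2 h3 h4 h5 h6
    refine ⟨?_, ?_, ?_, ?_, ?_, ?_⟩
    · intro e; exact h3 (x.φ_inj (e.trans F.x3.symm))
    · intro e; exact h1 (x.φ_inj (e.trans F.x1.symm))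
    · intro e; exact h2 (x.φ_inj (e.trans F.x2.symm))
    · intro e; exact h6 (x.φ_inj (e.trans F.x6.symm))
    · intro e; exact h4 (x.φ_inj (e.trans F.x4.symm))
    · intro e; exact h5 (x.φ_inj (e.trans F.x5.symm))
  -- case distinction
  have cases7 : ∀ z : Fin N, z = k ∨ z = k' ∨ z = a ∨ z = b ∨ z = c ∨ z = d ∨
      (z ≠ h ∧ z ≠ a ∧ z ≠ b ∧ z ≠ h' ∧ z ≠ c ∧ z ≠ d) := by
    intro z
    by_cases g1 : z = k
    · exact Or.inl g1
    by_cases g2 : z = k'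
    · exact Or.inr (Or.inl g2)
    by_cases g3 : z = a
    · exact Or.inr (Or.inr (Or.inl g3))
    by_cases g4 : z = b
    · exact Or.inr (Or.inr (Or.inr (Or.inl g4)))
    by_cases g5 : z = c
    · exact Or.inr (Or.inr (Or.inr (Or.inr (Or.inl g5))))
    by_cases g6 : z = d
    · exact Or.inr (Or.inr (Or.inr (Or.inr (Or.inr (Or.inl g6)))))
    obtain ⟨g7, g8⟩ := hkz' z g1 g2
    exact Or.inr (Or.inr (Or.inr (Or.inr (Or.inr (Or.inr ⟨g7, g3, g4, g8, g5, g6⟩)))))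
  have yvk : y.v k = -(x.v d + x.v a) := by
    have := y.closed k
    rw [F.y1, F.y2, yd, ya] at this
    linear_combination this
  have omk : ω (y.v k) = -(ω (x.v d) + ω (x.v a)) := by rw [yvk, map_neg, map_add]
  -- the upper estimates
  have hup : ∀ z, z ≠ k → z ≠ k' →
      Up (Y z) (Y (x.φ z)) (K0 z) (Y' z) (Y' (y.φ z)) (K' z) := by
    intro z h1 h2
    rcases cases7 z with e | e | e | e | e | e | ⟨g1, g2, g3, g4, g5, g6⟩
    · exact absurd e h1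
    · exact absurd e h2
    · subst e
      rw [F.x2, F.y3, Ya, Yk, Ka, q1]; exact c7
    · subst e
      rw [F.x3, F.y5, Yb, Yc, Kb, q2, ← c1]; exact c8
    · subst e
      rw [F.x5, F.y6, Yc, Yk', Kc, q3]; exact c9
    · subst e
      rw [F.x6, F.y2, Yd, Ya, Kd, q4, c2]; exact c10
    · obtain ⟨f1, f2, f3, f4, f5, f6⟩ := off6 z g1 g2 g3 g4 g5 g6
      rw [F.offφ z g1 g2 g3 g4 g5 g6, Yo z g1 g2 g3 g4 g5 g6, Ko z g1 g2 g3 g4 g5 g6,
        Yo _ f1 f2 f3 f4 f5 f6]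
      exact Up.refl _ _ _
  refine ⟨Y', K', ?_, ?_, ?_, ?_, ?_⟩
  · intro z
    rcases cases7 z with e | e | e | e | e | e | ⟨g1, g2, g3, g4, g5, g6⟩
    · rw [e, Kk]; exact hK
    · rw [e, Kk']; exact hK
    · rw [e, Ka]; exact hK
    · rw [e, Kb]; exact hK
    · rw [e, Kc]; exact hK
    · rw [e, Kd]; exact hK
    · rw [Ko z g1 g2 g3 g4 g5 g6]; exact R.kpos z
  · intro z
    rcases cases7 z with e | e | e | e | e | e | ⟨g1, g2, g3, g4, g5, g6⟩
    · rw [e, F.y1, Kk, Kd]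
    · rw [e, F.y4, Kk', Kb]
    · rw [e, F.y3, Kk, Ka]
    · rw [e, F.y5, Kb, Kc]
    · rw [e, F.y6, Kk', Kc]
    · rw [e, F.y2, Ka, Kd]
    · obtain ⟨f1, f2, f3, f4, f5, f6⟩ := off6 z g1 g2 g3 g4 g5 g6
      rw [F.offφ z g1 g2 g3 g4 g5 g6, Ko z g1 g2 g3 g4 g5 g6, Ko _ f1 f2 f3 f4 f5 f6]
      exact R.kφ z
  · intro z
    rcases cases7 z with e | e | e | e | e | e | ⟨g1, g2, g3, g4, g5, g6⟩
    · rw [e, F.y1, Yk, Yd, omk]; linarith
    · rw [e, F.y4, Yk', Yb, F.yv, map_neg, omk]; linarith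
    · rw [e, F.y3, Yk, Ya, ya]; linarith
    · rw [e, F.y5, Yb, Yc, yb]; linarith
    · rw [e, F.y6, Yk', Yc, yc]; linarith
    · rw [e, F.y2, Ya, Yd, yd]; linarith
    · obtain ⟨f1, f2, f3, f4, f5, f6⟩ := off6 z g1 g2 g3 g4 g5 g6
      rw [F.offφ z g1 g2 g3 g4 g5 g6, Yo z g1 g2 g3 g4 g5 g6, Yo _ f1 f2 f3 f4 f5 f6,
        F.off z g1 g4]
      exact R.yφ z
  · intro z
    rcases cases7 z with e | e | e | e | e | e | ⟨g1, g2, g3, g4, g5, g6⟩
    · rw [e, Kk, Yk, F.κ3]; exact c5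
    · rw [e, Kk', Yk', F.κ4]; exact c6
    · rw [e, Ka, Ya, F.κ5 a n1 n14.symm]; exact c4
    · rw [e, Kb, Yb, F.κ5 b n3.symm n15.symm]; exact c5
    · rw [e, Kc, Yc, F.κ5 c n11 n4, ← c1]; exact c3
    · rw [e, Kd, Yd, F.κ5 d n8 n6.symm]; exact c6
    · rw [Ko z g1 g2 g3 g4 g5 g6, Yo z g1 g2 g3 g4 g5 g6, F.κ5 z g1 g4]
      exact R.ty z
  · intro z
    have hσk : x.σ k = k' := by
      rcases F.kk with ⟨e1, e2⟩ | ⟨e1, e2⟩ <;> rw [e1, e2]
      · exact F.xσ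
      · exact hσ'
    have hσk' : x.σ k' = k := by rw [← hσk, x.inv]
    have hnk : ‖y.v k'‖ = ‖y.v k‖ := by rw [F.yv, norm_neg]
    rw [F.yσ]
    by_cases g1 : z = k
    · rw [g1, hσk, F.y1, F.y4, hnk, Kk, Kk', Yk, Yk', Yd, Yb]
      exact Or.inl ⟨rfl, rfl, rfl⟩
    by_cases g2 : z = k'
    · rw [g2, hσk', F.y1, F.y4, hnk, Kk, Kk', Yk, Yk', Yd, Yb]
      exact Or.inl ⟨rfl, rfl, rfl⟩
    have g3 : x.σ z ≠ k := by intro e; apply g2; rw [← x.inv z, e, hσk]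
    have g4 : x.σ z ≠ k' := by intro e; apply g1; rw [← x.inv z, e, hσk']
    obtain ⟨f1, f2⟩ := hkz' z g1 g2
    obtain ⟨f3, f4⟩ := hkz' _ g3 g4
    rw [F.off z f1 f2, F.off _ f3 f4]
    have s1 := (R.ag z).up (x.norm_pos _) (x.norm_pos _) (hup z g1 g2)
    exact (s1.symm.up (x.norm_pos _) (x.norm_pos _) (hup _ g3 g4)).symm

end

end Pool.Agent.W729.Dil
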