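import Pool.Agent.W729.D3

/-!
Transport of the structure along moves.
-/

set_option autoImplicit false

namespace Pool.Agent.W729.Dil

noncomputable section

variable {N : ℕ}

lemma HasR_relabel {x y : Surf N} {κ κ' : Fin N → ℝ} (e : Fin N ≃ Fin N)
    (he : ∀ h, y.σ (e h) = e (x.σ h) ∧ y.φ (e h) = e (x.φ h) ∧ y.v (e h) = x.v h)
    (hκ : ∀ h, κ' (e h) = κ h) {ω : ℂ →ₗ[ℝ] ℝ} {H1 H2 : ℝ}
    (hR : HasR x κ ω H1 H2) : HasR y κ' ω H1 H2 := by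
  obtain ⟨Y, K0, R⟩ := hR
  refine ⟨fun z => Y (e.symm z), fun z => K0 (e.symm z), ?_, ?_, ?_, ?_, ?_⟩
  · intro z; exact R.kpos _
  · intro z
    obtain ⟨h, rfl⟩ := e.surjective z
    simp only [(he h).2.1, Equiv.symm_apply_apply]
    exact R.kφ h
  · intro z
    obtain ⟨h, rfl⟩ := e.surjective z
    simp only [(he h).2.1, (he h).2.2, Equiv.symm_apply_apply]
    exact R.yφ h
  · intro z
    obtain ⟨h, rfl⟩ := e.surjective z
    simp only [hκ, Equiv.symm_apply_apply]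
    exact R.ty h
  · intro z
    obtain ⟨h, rfl⟩ := e.surjective z
    simp only [(he _).1, (he _).2.1, (he _).2.2, Equiv.symm_apply_apply]
    exact R.ag h

lemma Typed.smul {H1 H2 k y κ s : ℝ} (hs : 0 < s) (h : Typed H1 H2 k y κ) :
    Typed H1 H2 (s * k) (s * y) (s * κ) := by
  rcases h with ⟨h, h'⟩ | ⟨h, h'⟩
  · exact Or.inl ⟨by positivity, by rw [h']; ring⟩
  · exact Or.inr ⟨mul_nonpos_of_nonneg_of_nonpos hs.le h, by rw [h']; ring⟩

lemma Ag.smul {n1 n2 α1 β1 k1 α2 β2 k2 s t : ℝ} (hs : 0 < s) (ht : 0 < t)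
    (h : Ag n1 n2 α1 β1 k1 α2 β2 k2) :
    Ag (s * n1) (t * n2) (s * α1) (s * β1) (s * k1) (t * α2) (t * β2) (t * k2) := by
  rcases h with ⟨h1, h2, h3⟩ | ⟨h1, h2, h3, h4⟩ | ⟨h1, h2, h3, h4⟩
  · refine Or.inl ⟨?_, ?_, ?_⟩
    · linear_combination (s * t) * h1
    · linear_combination (s * t) * h2
    · linear_combination (s * t) * h3
  · exact Or.inr (Or.inl ⟨by positivity, by positivity, by positivity, by positivity⟩)
  · exact Or.inr (Or.inr ⟨mul_nonpos_of_nonneg_of_nonpos hs.le h1,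
      mul_nonpos_of_nonneg_of_nonpos hs.le h2, mul_nonpos_of_nonneg_of_nonpos ht.le h3,
      mul_nonpos_of_nonneg_of_nonpos ht.le h4⟩)

lemma HasR_rescale {x y : Surf N} {κ κ' : Fin N → ℝ} (s : Fin N → ℝ)
    (hs : ∀ h, 0 < s h ∧ s (x.φ h) = s h ∧ y.σ h = x.σ h ∧ y.φ h = x.φ h ∧
      y.v h = (s h : ℂ) * x.v h)
    (hκ : ∀ h, κ' h = s h * κ h) {ω : ℂ →ₗ[ℝ] ℝ} {H1 H2 : ℝ}
    (hR : HasR x κ ω H1 H2) : HasR y κ' ω H1 H2 := by
  obtain ⟨Y, K0, R⟩ := hR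
  have hn : ∀ h, ‖y.v h‖ = s h * ‖x.v h‖ := by
    intro h
    rw [(hs h).2.2.2.2, norm_mul, Complex.norm_real, Real.norm_of_nonneg (hs h).1.le]
  refine ⟨fun z => s z * Y z, fun z => s z * K0 z, ?_, ?_, ?_, ?_, ?_⟩
  · intro z; exact mul_pos (hs z).1 (R.kpos z)
  · intro z
    simp only [(hs z).2.2.2.1, (hs z).2.1, R.kφ]
  · intro z
    simp only [(hs z).2.2.2.1, (hs z).2.1, (hs z).2.2.2.2, R.yφ, omega_smul]
    ring
  · intro z
    simp only [hκ]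
    exact (R.ty z).smul (hs z).1
  · intro z
    simp only [hn, (hs z).2.2.1, (hs z).2.2.2.1, (hs z).2.1, (hs (x.σ z)).2.2.2.1, (hs (x.σ z)).2.1]
    exact (R.ag z).smul (hs z).1 (hs _).1

/-- transport of scales and structures -/
def Rel (x : Surf N) (κ : Fin N → ℝ) (y : Surf N) (κ' : Fin N → ℝ) : Prop :=
  ScaleOn x κ ∧ ScaleOn y κ' ∧ ∀ (ω : ℂ →ₗ[ℝ] ℝ) (H1 H2 q : ℝ), 0 < H1 → 0 < H2 → 0 < q →
    (HasR x (fun h => q * κ h) ω H1 H2 ↔ HasR y (fun h => q * κ' h) ω H1 H2)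

lemma Rel.refl {x : Surf N} {κ : Fin N → ℝ} (h : ScaleOn x κ) : Rel x κ x κ :=
  ⟨h, h, fun _ _ _ _ _ _ _ => Iff.rfl⟩

lemma Rel.symm {x y : Surf N} {κ κ' : Fin N → ℝ} (h : Rel x κ y κ') : Rel y κ' x κ :=
  ⟨h.2.1, h.1, fun ω H1 H2 q a b c => (h.2.2 ω H1 H2 q a b c).symm⟩

lemma Rel.trans {x y z : Surf N} {κ κ' κ'' : Fin N → ℝ} (h : Rel x κ y κ') (h' : Rel y κ' z κ'') :
    Rel x κ z κ'' :=
  ⟨h.1, h'.2.1, fun ω H1 H2 q a b c => (h.2.2 ω H1 H2 q a b c).trans (h'.2.2 ω H1 H2 q a b c)⟩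

/-- one step lifting -/
def Lifts (x y : Surf N) : Prop := ∀ κ, ScaleOn x κ → ∃ κ', Rel x κ y κ'

lemma lifts_relabel {x y : Surf N} (e : Fin N ≃ Fin N)
    (he : ∀ h, y.σ (e h) = e (x.σ h) ∧ y.φ (e h) = e (x.φ h) ∧ y.v (e h) = x.v h) : Lifts x y := by
  intro κ hκ
  refine ⟨fun z => κ (e.symm z), hκ, ⟨fun z => hκ.1 _, ?_⟩, ?_⟩
  · intro z
    obtain ⟨h, rfl⟩ := e.surjective z
    simp only [(he _).1, (he _).2.1, (he _).2.2, Equiv.symm_apply_apply]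
    exact hκ.2 h
  · intro ω H1 H2 q _ _ _
    constructor
    · exact HasR_relabel e he (by simp)
    · refine HasR_relabel e.symm ?_ (by simp)
      intro h
      obtain ⟨h, rfl⟩ := e.surjective h
      simp [(he h).1, (he h).2.1, (he h).2.2]

lemma lifts_rescale {x y : Surf N} (s : Fin N → ℝ)
    (hs : ∀ h, 0 < s h ∧ s (x.φ h) = s h ∧ y.σ h = x.σ h ∧ y.φ h = x.φ h ∧
      y.v h = (s h : ℂ) * x.v h) : Lifts x y := by
  intro κ hκ
  have hn : ∀ h, ‖y.v h‖ = s h * ‖x.v h‖ := by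
    intro h
    rw [(hs h).2.2.2.2, norm_mul, Complex.norm_real, Real.norm_of_nonneg (hs h).1.le]
  refine ⟨fun z => s z * κ z, hκ, ⟨fun z => mul_pos (hs z).1 (hκ.1 _), ?_⟩, ?_⟩
  · intro z
    simp only [hn, (hs z).2.2.1, (hs z).2.2.2.1, (hs z).2.1]
    linear_combination (s (x.σ z) * s z) * hκ.2 z
  · intro ω H1 H2 q _ _ _
    constructor
    · exact HasR_rescale s hs (fun h => by ring)
    · refine HasR_rescale (fun h => (s h)⁻¹) ?_ ?_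
      · intro h
        have h0 := (hs h).1
        have h0' : (s h : ℂ) ≠ 0 := by exact_mod_cast h0.ne'
        refine ⟨inv_pos.2 h0, ?_, (hs h).2.2.1.symm, (hs h).2.2.2.1.symm, ?_⟩
        · rw [(hs h).2.2.2.1, (hs h).2.1]
        · rw [(hs h).2.2.2.2]
          push_cast
          field_simp
      · intro h
        have h0 := (hs h).1
        field_simp

/-- a flip without scales -/
abbrev FlipD (x y : Surf N) (h a b h' c d k k' : Fin N) : Prop :=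
  FlipG x y (fun _ => 1) (fun _ => 1) h a b h' c d k k'

lemma FlipD.exists_scale {x y : Surf N} {h a b h' c d k k' : Fin N}
    (F : FlipD x y h a b h' c d k k') {κ : Fin N → ℝ} (hκ : ScaleOn x κ) :
    ∃ κ', ScaleOn y κ' ∧ FlipG x y κ κ' h a b h' c d k k' := by
  have n1 := F.ne1; have n2 := F.ne2; have n3 := F.ne3; have n4 := F.ne4; have n5 := F.ne5
  have n6 := F.ne6; have n7 := F.ne7; have n8 := F.ne8; have n9 := F.ne9; have n10 := F.ne10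
  have n11 := F.ne11; have n12 := F.ne12; have n13 := F.ne13; have n14 := F.ha; have n15 := F.hb
  have hσ' : x.σ h' = h := by rw [← F.xσ, x.inv]
  have hnorm : ‖x.v h'‖ = ‖x.v h‖ := by rw [F.xv, norm_neg]
  have hkz : ∀ z, z ≠ h → z ≠ h' → z ≠ k ∧ z ≠ k' := by
    intro z h1 h2
    rcases F.kk with ⟨e1, e2⟩ | ⟨e1, e2⟩ <;> rw [e1, e2]
    · exact ⟨h1, h2⟩
    · exact ⟨h2, h1⟩
  have hkz' : ∀ z, z ≠ k → z ≠ k' → z ≠ h ∧ z ≠ h' := by
    intro z h1 h2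
    rcases F.kk with ⟨e1, e2⟩ | ⟨e1, e2⟩ <;> rw [e1] at h1 <;> rw [e2] at h2
    · exact ⟨h1, h2⟩
    · exact ⟨h2, h1⟩
  have m9 : k' ≠ k := by
    rcases F.kk with ⟨e1, e2⟩ | ⟨e1, e2⟩ <;> rw [e1, e2]
    · exact n7
    · exact n7.symm
  have hσk : x.σ k = k' := by
    rcases F.kk with ⟨e1, e2⟩ | ⟨e1, e2⟩ <;> rw [e1, e2]
    · exact F.xσ
    · exact hσ'
  have hσk' : x.σ k' = k := by rw [← hσk, x.inv]
  have κ1 : κ h' = κ a := by
    have := hκ.2 h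
    rw [F.xσ, F.x1, hnorm] at this
    exact mul_right_cancel₀ (x.norm_pos h).ne' this
  have κ2 : κ h = κ c := by
    have := hκ.2 h'
    rw [hσ', F.x4, hnorm] at this
    exact mul_right_cancel₀ (x.norm_pos h).ne' this
  let κ' : Fin N → ℝ := fun z => if z = k then κ b else if z = k' then κ d else κ z
  have κ3 : κ' k = κ b := by simp [κ']
  have κ4 : κ' k' = κ d := by simp [κ', m9]
  have κ5' : ∀ z, z ≠ k → z ≠ k' → κ' z = κ z := by
    intro z h1 h2; simp [κ', h1, h2]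
  have κ5 : ∀ z, z ≠ h → z ≠ h' → κ' z = κ z := by
    intro z h1 h2
    obtain ⟨h3, h4⟩ := hkz z h1 h2
    exact κ5' z h3 h4
  refine ⟨κ', ⟨?_, ?_⟩, ?_⟩
  · intro z
    by_cases g1 : z = k
    · rw [g1, κ3]; exact hκ.1 _
    by_cases g2 : z = k'
    · rw [g2, κ4]; exact hκ.1 _
    rw [κ5' z g1 g2]; exact hκ.1 _
  · intro z
    rw [F.yσ]
    by_cases g1 : z = k
    · rw [g1, hσk, F.y1, κ4, F.yv, norm_neg, κ5 d n8 n6.symm]
    by_cases g2 : z = k'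
    · rw [g2, hσk', F.y4, κ3, F.yv, norm_neg, κ5 b n3.symm n15.symm]
    have g3 : x.σ z ≠ k := by intro e; apply g2; rw [← x.inv z, e, hσk]
    have g4 : x.σ z ≠ k' := by intro e; apply g1; rw [← x.inv z, e, hσk']
    obtain ⟨f1, f2⟩ := hkz' z g1 g2
    obtain ⟨f3, f4⟩ := hkz' _ g3 g4
    rw [F.off z f1 f2, F.off _ f3 f4, κ5 _ f3 f4, hκ.2 z]
    congr 1
    -- κ (x.φ z) = κ' (y.φ z)
    by_cases g5 : z = a
    · rw [g5, F.x2, F.y3, κ3]
    by_cases g6 : z = b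
    · rw [g6, F.x3, F.y5, κ5 c n11 n4, κ2]
    by_cases g7 : z = c
    · rw [g7, F.x5, F.y6, κ4]
    by_cases g8 : z = d
    · rw [g8, F.x6, F.y2, κ5 a n1 n14.symm, κ1]
    rw [F.offφ z f1 g5 g6 f2 g7 g8]
    refine (κ5 _ ?_ ?_).symm
    · intro e; exact g6 (x.φ_inj (e.trans F.x3.symm))
    · intro e; exact g8 (x.φ_inj (e.trans F.x6.symm))
  · exact
      { ha := F.ha, hb := F.hb, xσ := F.xσ, xv := F.xv, x1 := F.x1, x2 := F.x2, x3 := F.x3,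
        x4 := F.x4, x5 := F.x5, x6 := F.x6, y1 := F.y1, y2 := F.y2, y3 := F.y3, y4 := F.y4,
        y5 := F.y5, y6 := F.y6, yσ := F.yσ, yv := F.yv, off := F.off, offφ := F.offφ,
        kk := F.kk, κ1 := κ1, κ2 := κ2, κ3 := κ3, κ4 := κ4, κ5 := κ5 }

lemma FlipG.smul {x y : Surf N} {κ κ' : Fin N → ℝ} {h a b h' c d k k' : Fin N}
    (F : FlipG x y κ κ' h a b h' c d k k') (q : ℝ) :
    FlipG x y (fun z => q * κ z) (fun z => q * κ' z) h a b h' c d k k' :=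
  { ha := F.ha, hb := F.hb, xσ := F.xσ, xv := F.xv, x1 := F.x1, x2 := F.x2, x3 := F.x3,
    x4 := F.x4, x5 := F.x5, x6 := F.x6, y1 := F.y1, y2 := F.y2, y3 := F.y3, y4 := F.y4,
    y5 := F.y5, y6 := F.y6, yσ := F.yσ, yv := F.yv, off := F.off, offφ := F.offφ,
    kk := F.kk, κ1 := by rw [F.κ1], κ2 := by rw [F.κ2], κ3 := by rw [F.κ3],
    κ4 := by rw [F.κ4], κ5 := fun z h1 h2 => by rw [F.κ5 z h1 h2] }

lemma lifts_flip {x y : Surf N} {h a b h' c d k k' : Fin N}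
    (F : FlipD x y h a b h' c d k k') : Lifts x y := by
  intro κ hκ
  obtain ⟨κ', hκ', G⟩ := F.exists_scale hκ
  exact ⟨κ', hκ, hκ', fun ω H1 H2 q h1 h2 _ =>
    ⟨RS_flip (G.smul q) h1 h2, RS_flip (G.smul q).symm h1 h2⟩⟩

lemma Flip.flipD {x y : Surf N} (F : Flip x y) :
    ∃ h a b h' c d, FlipD x y h a b h' c d h h' := by
  obtain ⟨h, a, b, h', c, d, ⟨f1, f2⟩, f3, f4, ⟨f5, f6, f7⟩, ⟨f8, f9, f10⟩, ⟨f11, f12, f13⟩,
    ⟨f14, f15, f16⟩, f17, f18, f19, f20⟩ := F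
  exact ⟨h, a, b, h', c, d,
    { ha := f1, hb := f2, xσ := f3, xv := f4, x1 := f5, x2 := f6, x3 := f7,
      x4 := f8, x5 := f9, x6 := f10, y1 := f11, y2 := f12, y3 := f13, y4 := f14,
      y5 := f15, y6 := f16, yσ := f17, yv := f18, off := f19, offφ := f20,
      kk := Or.inl ⟨rfl, rfl⟩, κ1 := rfl, κ2 := rfl, κ3 := rfl,
      κ4 := rfl, κ5 := fun z h1 h2 => rfl }⟩

lemma lifts_move {x y : Surf N} (m : Move x y) : Lifts x y ∧ Lifts y x := by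
  rcases m with ⟨e, he⟩ | ⟨s, hs⟩ | F
  · refine ⟨lifts_relabel e he, lifts_relabel e.symm ?_⟩
    intro h
    obtain ⟨h, rfl⟩ := e.surjective h
    simp [(he h).1, (he h).2.1, (he h).2.2]
  · refine ⟨lifts_rescale s hs, lifts_rescale (fun h => (s h)⁻¹) ?_⟩
    intro h
    have h0 := (hs h).1
    have h0' : (s h : ℂ) ≠ 0 := by exact_mod_cast h0.ne'
    refine ⟨inv_pos.2 h0, ?_, (hs h).2.2.1.symm, (hs h).2.2.2.1.symm, ?_⟩
    · rw [(hs h).2.2.2.1, (hs h).2.1]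
    · rw [(hs h).2.2.2.2]
      push_cast
      field_simp
  · obtain ⟨h, a, b, h', c, d, G⟩ := F.flipD
    exact ⟨lifts_flip G, lifts_flip G.symm⟩

lemma Lifts.trans {x y z : Surf N} (h1 : Lifts x y) (h2 : Lifts y z) : Lifts x z := by
  intro κ hκ
  obtain ⟨κ', r1⟩ := h1 κ hκ
  obtain ⟨κ'', r2⟩ := h2 κ' r1.2.1
  exact ⟨κ'', r1.trans r2⟩

/-- Transport along the equivalence relation. -/
theorem lifts_of_same {x y : Surf N} (h : (sameSurface N) x y) : Lifts x y := by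
  have h' : Relation.EqvGen Move x y := h
  have : Lifts x y ∧ Lifts y x := by
    induction h' with
    | rel x y m => exact lifts_move m
    | refl x => exact ⟨fun κ hκ => ⟨κ, Rel.refl hκ⟩, fun κ hκ => ⟨κ, Rel.refl hκ⟩⟩
    | symm x y _ ih => exact ⟨(ih ‹_›).2, (ih ‹_›).1⟩
    | trans x y z _ _ ih1 ih2 => exact ⟨(ih1 ‹_›).1.trans (ih2 ‹_›).1, (ih2 ‹_›).2.trans (ih1 ‹_›).2⟩
  exact this.1

end

end Pool.Agent.W729.Dil
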