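import Pool.Agent.W729.D4

/-!
Transport of the structure along the linear action.
-/

set_option autoImplicit false

namespace Pool.Agent.W729.Dil

noncomputable section

variable {N : ℕ}

/-- the linear map of a matrix -/
def linL (A : Matrix.SpecialLinearGroup (Fin 2) ℝ) : ℂ →ₗ[ℝ] ℂ where
  toFun := lin A
  map_add' := lin_add A
  map_smul' := by
    intro r z
    rw [Complex.real_smul, lin_real_mul, RingHom.id_apply, Complex.real_smul]

lemma lin_mul (A B : Matrix.SpecialLinearGroup (Fin 2) ℝ) (z : ℂ) :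
    lin (A * B) z = lin A (lin B z) := by
  apply Complex.ext <;>
    simp [lin, Matrix.SpecialLinearGroup.coe_mul, Matrix.mul_apply, Fin.sum_univ_two] <;> ring

lemma lin_one (z : ℂ) : lin 1 z = z := by
  apply Complex.ext <;> simp [lin]

/-- the linear map of a matrix, as an equivalence -/
def linE (A : Matrix.SpecialLinearGroup (Fin 2) ℝ) : ℂ ≃ₗ[ℝ] ℂ :=
  LinearEquiv.ofLinearMap (linL A) (linL A⁻¹)
    (by
      apply LinearMap.ext; intro z
      show lin A (lin A⁻¹ z) = z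
      rw [← lin_mul, mul_inv_cancel, lin_one])
    (by
      apply LinearMap.ext; intro z
      show lin A⁻¹ (lin A z) = z
      rw [← lin_mul, inv_mul_cancel, lin_one])

lemma linE_apply (A : Matrix.SpecialLinearGroup (Fin 2) ℝ) (z : ℂ) : linE A z = lin A z := rfl

lemma act_σ (A : Matrix.SpecialLinearGroup (Fin 2) ℝ) (x : Surf N) : (x.act A).σ = x.σ := rfl
lemma act_φ (A : Matrix.SpecialLinearGroup (Fin 2) ℝ) (x : Surf N) : (x.act A).φ = x.φ := rfl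
lemma act_v (A : Matrix.SpecialLinearGroup (Fin 2) ℝ) (x : Surf N) (h : Fin N) :
    (x.act A).v h = lin A (x.v h) := rfl

/-- the ratio of the lengths is preserved by the action -/
lemma act_ratio (A : Matrix.SpecialLinearGroup (Fin 2) ℝ) (x : Surf N) (h : Fin N) :
    ∃ r : ℝ, 0 < r ∧ ‖x.v (x.σ h)‖ = r * ‖x.v h‖ ∧
      ‖(x.act A).v (x.σ h)‖ = r * ‖(x.act A).v h‖ := by
  obtain ⟨r, hr, h1⟩ := x.glue h
  refine ⟨r, hr, ?_, ?_⟩
  · rw [h1, neg_mul, norm_neg, norm_mul, Complex.norm_real, Real.norm_of_nonneg hr.le]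
  · rw [act_v, act_v, h1, neg_mul, lin_neg, lin_real_mul, norm_neg, norm_mul, Complex.norm_real,
      Real.norm_of_nonneg hr.le]

lemma scaleOn_act (A : Matrix.SpecialLinearGroup (Fin 2) ℝ) (x : Surf N) (κ : Fin N → ℝ) :
    ScaleOn (x.act A) κ ↔ ScaleOn x κ := by
  unfold ScaleOn
  rw [act_σ, act_φ]
  refine and_congr_right fun _ => forall_congr' fun h => ?_
  obtain ⟨r, hr, h1, h2⟩ := act_ratio A x h
  rw [h1, h2]
  have p1 := x.norm_pos h
  have p2 := (x.act A).norm_pos h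
  constructor
  · intro e
    have : κ (x.σ h) = κ (x.φ h) * r := by
      apply mul_right_cancel₀ p2.ne'; rw [e]; ring
    rw [this]; ring
  · intro e
    have : κ (x.σ h) = κ (x.φ h) * r := by
      apply mul_right_cancel₀ p1.ne'; rw [e]; ring
    rw [this]; ring

lemma Ag_ratio {n n' r α1 β1 k1 α2 β2 k2 : ℝ} (hn : 0 < n)
    (h : Ag n (r * n) α1 β1 k1 α2 β2 k2) : Ag n' (r * n') α1 β1 k1 α2 β2 k2 := by
  rcases h with ⟨h1, h2, h3⟩ | h | h
  · have e1 : k2 = k1 * r := by apply mul_right_cancel₀ hn.ne'; rw [h1]; ring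
    have e2 : α2 = β1 * r := by apply mul_right_cancel₀ hn.ne'; rw [h2]; ring
    have e3 : β2 = α1 * r := by apply mul_right_cancel₀ hn.ne'; rw [h3]; ring
    exact Or.inl ⟨by rw [e1]; ring, by rw [e2]; ring, by rw [e3]; ring⟩
  · exact Or.inr (Or.inl h)
  · exact Or.inr (Or.inr h)

lemma HasR_act (A : Matrix.SpecialLinearGroup (Fin 2) ℝ) (x : Surf N) (κ : Fin N → ℝ)
    (ω : ℂ →ₗ[ℝ] ℝ) (H1 H2 : ℝ) :
    HasR (x.act A) κ ω H1 H2 ↔ HasR x κ (ω ∘ₗ (linE A).toLinearMap) H1 H2 := by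
  constructor
  · rintro ⟨y, k0, R⟩
    refine ⟨y, k0, R.kpos, R.kφ, R.yφ, R.ty, ?_⟩
    intro h
    obtain ⟨r, hr, h1, h2⟩ := act_ratio A x h
    have := R.ag h
    rw [act_σ, act_φ, h2] at this
    rw [h1]
    exact Ag_ratio ((x.act A).norm_pos h) this
  · rintro ⟨y, k0, R⟩
    refine ⟨y, k0, R.kpos, R.kφ, R.yφ, R.ty, ?_⟩
    intro h
    obtain ⟨r, hr, h1, h2⟩ := act_ratio A x h
    have := R.ag h
    rw [h1] at this
    rw [act_σ, act_φ, h2]
    exact Ag_ratio (x.norm_pos h) this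

/-- transport of scales and structures, allowing linear maps -/
def RelG (x : Surf N) (κ : Fin N → ℝ) (y : Surf N) (κ' : Fin N → ℝ) : Prop :=
  ScaleOn x κ ∧ ScaleOn y κ' ∧ ∃ L : ℂ ≃ₗ[ℝ] ℂ, ∀ (ω : ℂ →ₗ[ℝ] ℝ) (H1 H2 q : ℝ),
    0 < H1 → 0 < H2 → 0 < q →
    (HasR x (fun h => q * κ h) ω H1 H2 ↔
      HasR y (fun h => q * κ' h) (ω ∘ₗ L.toLinearMap) H1 H2)

lemma RelG.trans {x y z : Surf N} {κ κ' κ'' : Fin N → ℝ} (h : RelG x κ y κ')
    (h' : RelG y κ' z κ'') : RelG x κ z κ'' := by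
  obtain ⟨a1, a2, L, hL⟩ := h
  obtain ⟨b1, b2, M, hM⟩ := h'
  refine ⟨a1, b2, M.trans L, fun ω H1 H2 q c1 c2 c3 => ?_⟩
  rw [hL ω H1 H2 q c1 c2 c3, hM _ H1 H2 q c1 c2 c3]
  rfl

lemma Rel.relG {x y : Surf N} {κ κ' : Fin N → ℝ} (h : Rel x κ y κ') : RelG x κ y κ' :=
  ⟨h.1, h.2.1, LinearEquiv.refl ℝ ℂ, fun ω H1 H2 q a b c => h.2.2 ω H1 H2 q a b c⟩

lemma RelG_act (A : Matrix.SpecialLinearGroup (Fin 2) ℝ) (x : Surf N) {κ : Fin N → ℝ}
    (h : ScaleOn x κ) : RelG (x.act A) κ x κ :=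
  ⟨(scaleOn_act A x κ).2 h, h, linE A, fun ω H1 H2 q _ _ _ => HasR_act A x _ ω H1 H2⟩

lemma RelG_act' (A : Matrix.SpecialLinearGroup (Fin 2) ℝ) (x : Surf N) {κ : Fin N → ℝ}
    (h : ScaleOn x κ) : RelG x κ (x.act A) κ := by
  refine ⟨h, (scaleOn_act A x κ).2 h, (linE A).symm, fun ω H1 H2 q _ _ _ => ?_⟩
  rw [HasR_act A x]
  have : (ω ∘ₗ (linE A).symm.toLinearMap) ∘ₗ (linE A).toLinearMap = ω := by
    apply LinearMap.ext; intro z; simp
  rw [this]

/-- Two surfaces in the same orbit have corresponding structures. -/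
theorem relG_of_orbit {x y : Surf N} {Y : Moduli N} (hx : x.toModuli ∈ orbit Y)
    (hy : y.toModuli ∈ orbit Y) {κ : Fin N → ℝ} (hκ : ScaleOn x κ) : ∃ κ', RelG x κ y κ' := by
  obtain ⟨x', A, h1, h2⟩ := hx
  obtain ⟨y', B, h3, h4⟩ := hy
  have e1 : (sameSurface N) x (x'.act A) := Quotient.exact h2.symm
  have e2 : (sameSurface N) x' y' := Quotient.exact (h1.trans h3.symm)
  have e3 : (sameSurface N) (y'.act B) y := Quotient.exact h4
  obtain ⟨κ1, r1⟩ := lifts_of_same e1 κ hκ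
  have s1 := (scaleOn_act A x' κ1).1 r1.2.1
  obtain ⟨κ2, r2⟩ := lifts_of_same e2 κ1 s1
  have s2 := (scaleOn_act B y' κ2).2 r2.2.1
  obtain ⟨κ3, r3⟩ := lifts_of_same e3 κ2 s2
  exact ⟨κ3, (r1.relG.trans (RelG_act A x' s1)).trans
    ((r2.relG.trans (RelG_act' B y' r2.2.1)).trans r3.relG)⟩

end

end Pool.Agent.W729.Dil
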