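import Pool.Agent.W729.D5

/-!
The quotient map to the moduli space is open.
-/

set_option autoImplicit false

namespace Pool.Agent.W729.Dil

noncomputable section

open Topology Filter

variable {N : ℕ}

/-- surfaces near `y` are the same as surfaces near `x` -/
def LL (x y : Surf N) : Prop :=
  ∀ U ∈ 𝓝 x, ∀ᶠ y' in 𝓝 y, ∃ x' ∈ U, (sameSurface N) x' y'

lemma LL.refl (x : Surf N) : LL x x := fun U hU => by
  filter_upwards [hU] with y' hy'
  exact ⟨y', hy', (sameSurface N).refl y'⟩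

lemma LL.trans {x y z : Surf N} (h1 : LL x y) (h2 : LL y z) : LL x z := by
  intro U hU
  filter_upwards [h2 _ (h1 U hU)] with z' hz'
  obtain ⟨y', ⟨x', hx', e1⟩, e2⟩ := hz'
  exact ⟨x', hx', (sameSurface N).trans e1 e2⟩

lemma LL_of_map {x y : Surf N} (ρ : Surf N → Raw N) (hc : ContinuousAt ρ y) (hy : ρ y = x.1)
    (h : ∀ᶠ y' in 𝓝 y, ∃ x' : Surf N, x'.1 = ρ y' ∧ (sameSurface N) x' y') : LL x y := by
  intro U hU
  rw [nhds_subtype_eq_comap, mem_comap] at hU
  obtain ⟨V, hV, hVU⟩ := hU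
  have h1 : ∀ᶠ y' in 𝓝 y, ρ y' ∈ V := hc.eventually (by rw [hy]; exact hV)
  filter_upwards [h, h1] with y' h2 h3
  obtain ⟨x', e1, e2⟩ := h2
  exact ⟨x', hVU (by show x'.1 ∈ V; rw [e1]; exact h3), e2⟩

lemma same_of_move {x y : Surf N} (m : Move x y) : (sameSurface N) x y :=
  Relation.EqvGen.rel _ _ m

lemma continuous_σ : Continuous fun x : Surf N => x.σ := continuous_subtype_val.fst
lemma continuous_φ : Continuous fun x : Surf N => x.φ := continuous_subtype_val.snd.fst
lemma continuous_v (h : Fin N) : Continuous fun x : Surf N => x.v h :=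
  (continuous_apply h).comp continuous_subtype_val.snd.snd

lemma eventually_σ (x : Surf N) : ∀ᶠ x' in 𝓝 x, x'.σ = x.σ := by
  have : IsOpen {f : Fin N → Fin N | f = x.σ} := isOpen_discrete _
  exact (this.preimage continuous_σ).mem_nhds rfl

lemma eventually_φ (x : Surf N) : ∀ᶠ x' in 𝓝 x, x'.φ = x.φ := by
  have : IsOpen {f : Fin N → Fin N | f = x.φ} := isOpen_discrete _
  exact (this.preimage continuous_φ).mem_nhds rfl

/-- renumbering -/
lemma exists_relabel (e : Fin N ≃ Fin N) (y : Surf N) :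
    ∃ x : Surf N, x.1 = (fun z => e (y.σ (e.symm z)), fun z => e (y.φ (e.symm z)),
      fun z => y.v (e.symm z)) ∧ Relabel y x := by
  refine ⟨⟨(fun z => e (y.σ (e.symm z)), fun z => e (y.φ (e.symm z)),
      fun z => y.v (e.symm z)), ?_⟩, rfl, e, ?_⟩
  · refine ⟨?_, ?_, ?_, ?_, ?_, ?_, ?_, ?_, ?_⟩
    · intro h; simp [y.inv]
    · intro h h'
      apply y.nofix (e.symm h)
      apply e.injective
      simpa using h'
    · intro h; simp [y.tri]
    · intro h h'
      apply y.trinofix (e.symm h)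
      apply e.injective
      simpa using h'
    · intro s hs hs'
      have := y.2.conn (e ⁻¹' s) ?_ ?_
      · ext z
        have h2 : e.symm z ∈ e ⁻¹' s := by rw [this]; trivial
        simpa using h2
      · obtain ⟨z, hz⟩ := hs
        exact ⟨e.symm z, by simpa using hz⟩
      · intro h hh
        have := hs' (e h) hh
        simpa [Surf.σ, Surf.φ] using this
    · intro h; simpa using y.closed (e.symm h)
    · intro h
      have := y.pos (e.symm h)
      simpa using this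
    · intro h
      obtain ⟨r, hr, h1⟩ := y.glue (e.symm h)
      refine ⟨r, hr, ?_⟩
      simpa using h1
    · obtain ⟨κ, hκ, h2⟩ := y.2.hol
      refine ⟨fun z => κ (e.symm z), fun z => hκ _, fun h => ?_⟩
      simpa [Surf.σ, Surf.φ, Surf.v] using h2 (e.symm h)
  · intro h
    refine ⟨?_, ?_, ?_⟩ <;> simp [Surf.σ, Surf.φ, Surf.v]

lemma LL_relabel {x y : Surf N} (e : Fin N ≃ Fin N)
    (he : ∀ h, x.σ (e h) = e (y.σ h) ∧ x.φ (e h) = e (y.φ h) ∧ x.v (e h) = y.v h) : LL x y := by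
  refine LL_of_map (fun y' => (fun z => e (y'.σ (e.symm z)), fun z => e (y'.φ (e.symm z)),
      fun z => y'.v (e.symm z))) ?_ ?_ ?_
  · refine Continuous.continuousAt ?_
    refine Continuous.prodMk ?_ (Continuous.prodMk ?_ ?_)
    · refine continuous_pi fun z => ?_
      exact (continuous_of_discreteTopology (f := e)).comp ((continuous_apply (e.symm z)).comp continuous_σ)
    · refine continuous_pi fun z => ?_
      exact (continuous_of_discreteTopology (f := e)).comp ((continuous_apply (e.symm z)).comp continuous_φ)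
    · exact continuous_pi fun z => continuous_v _
  · show ((_, _, _) : Raw N) = (x.σ, x.φ, x.v)
    refine Prod.ext ?_ (Prod.ext ?_ ?_)
    · funext z
      show e (y.σ (e.symm z)) = x.σ z
      rw [← (he _).1, e.apply_symm_apply]
    · funext z
      show e (y.φ (e.symm z)) = x.φ z
      rw [← (he _).2.1, e.apply_symm_apply]
    · funext z
      show y.v (e.symm z) = x.v z
      rw [← (he _).2.2, e.apply_symm_apply]
  · refine Eventually.of_forall fun y' => ?_
    obtain ⟨x', h1, h2⟩ := exists_relabel e y'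
    exact ⟨x', h1, (sameSurface N).symm (same_of_move (Or.inl h2))⟩

/-- rescaling -/
lemma exists_rescale (s : Fin N → ℝ) (y : Surf N) (hs : ∀ h, 0 < s h) (hφ : ∀ h, s (y.φ h) = s h) :
    ∃ x : Surf N, x.1 = (y.σ, y.φ, fun z => (s z : ℂ) * y.v z) ∧ Rescale y x := by
  have hsC : ∀ h, (s h : ℂ) ≠ 0 := fun h => by exact_mod_cast (hs h).ne'
  refine ⟨⟨(y.σ, y.φ, fun z => (s z : ℂ) * y.v z), ?_⟩, rfl, s, ?_⟩
  · refine ⟨y.inv, y.nofix, y.tri, y.trinofix, y.2.conn, ?_, ?_, ?_, ?_⟩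
    · intro h
      show (s h : ℂ) * y.v h + (s (y.φ h) : ℂ) * y.v (y.φ h) +
        (s (y.φ (y.φ h)) : ℂ) * y.v (y.φ (y.φ h)) = 0
      have h1 := hφ h
      have h2 : s (y.φ (y.φ h)) = s h := (hφ _).trans h1
      rw [h1, h2]
      linear_combination (s h : ℂ) * y.closed h
    · intro h
      show 0 < (star ((s h : ℂ) * y.v h) * ((s (y.φ h) : ℂ) * y.v (y.φ h))).im
      have h1 := y.pos h
      rw [cr_eq] at h1 ⊢
      have : cr ((s h : ℂ) * y.v h) ((s (y.φ h) : ℂ) * y.v (y.φ h)) =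
          s h * s (y.φ h) * cr (y.v h) (y.v (y.φ h)) := by
        simp [cr]; ring
      rw [this]
      exact mul_pos (mul_pos (hs _) (hs _)) h1
    · intro h
      obtain ⟨r, hr, h1⟩ := y.glue h
      refine ⟨s (y.σ h) * r / s h, div_pos (mul_pos (hs _) hr) (hs _), ?_⟩
      show (s (y.σ h) : ℂ) * y.v (y.σ h) = _
      rw [h1]
      push_cast
      have := hsC h
      field_simp
    · obtain ⟨κ, hκ, h2⟩ := y.2.hol
      have hn : ∀ h, ‖(s h : ℂ) * y.v h‖ = s h * ‖y.v h‖ := by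
        intro h
        rw [norm_mul, Complex.norm_real, Real.norm_of_nonneg (hs h).le]
      refine ⟨fun z => s z * κ z, fun z => mul_pos (hs _) (hκ _), fun h => ?_⟩
      show s (y.σ h) * κ (y.σ h) * ‖(s h : ℂ) * y.v h‖ =
        s (y.φ h) * κ (y.φ h) * ‖(s (y.σ h) : ℂ) * y.v (y.σ h)‖
      rw [hn, hn, hφ]
      have := h2 h
      change κ (y.σ h) * ‖y.v h‖ = κ (y.φ h) * ‖y.v (y.σ h)‖ at this
      linear_combination (s (y.σ h) * s h) * this
  · intro h
    exact ⟨hs h, hφ h, rfl, rfl, rfl⟩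

lemma LL_rescale {x y : Surf N} (s : Fin N → ℝ)
    (hs : ∀ h, 0 < s h ∧ s (y.φ h) = s h ∧ x.σ h = y.σ h ∧ x.φ h = y.φ h ∧
      x.v h = (s h : ℂ) * y.v h) : LL x y := by
  refine LL_of_map (fun y' => (y'.σ, y'.φ, fun z => (s z : ℂ) * y'.v z)) ?_ ?_ ?_
  · refine Continuous.continuousAt ?_
    refine Continuous.prodMk continuous_σ (Continuous.prodMk continuous_φ ?_)
    exact continuous_pi fun z => continuous_const.mul (continuous_v z)
  · show ((_, _, _) : Raw N) = (x.σ, x.φ, x.v)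
    refine Prod.ext ?_ (Prod.ext ?_ ?_)
    · funext z; exact ((hs z).2.2.1).symm
    · funext z; exact ((hs z).2.2.2.1).symm
    · funext z; exact ((hs z).2.2.2.2).symm
  · filter_upwards [eventually_φ y] with y' hy'
    obtain ⟨x', h1, h2⟩ := exists_rescale s y' (fun h => (hs h).1)
      (fun h => by rw [hy']; exact (hs h).2.1)
    exact ⟨x', h1, (sameSurface N).symm (same_of_move (Or.inr (Or.inl h2)))⟩

lemma FlipD.same {x y : Surf N} {h a b h' c d k k' : Fin N}
    (F : FlipD x y h a b h' c d k k') : (sameSurface N) x y := by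
  rcases F.kk with ⟨e1, e2⟩ | ⟨e1, e2⟩
  · subst e1 e2
    exact same_of_move (Or.inr (Or.inr ⟨k, a, b, k', c, d, ⟨F.ha, F.hb⟩, F.xσ, F.xv,
      ⟨F.x1, F.x2, F.x3⟩, ⟨F.x4, F.x5, F.x6⟩, ⟨F.y1, F.y2, F.y3⟩, ⟨F.y4, F.y5, F.y6⟩, F.yσ, F.yv,
      F.off, F.offφ⟩))
  · have G := F.symm
    subst e1 e2
    exact (sameSurface N).symm (same_of_move (Or.inr (Or.inr ⟨k, d, a, k', b, c, ⟨G.ha, G.hb⟩,
      G.xσ, G.xv,
      ⟨G.x1, G.x2, G.x3⟩, ⟨G.x4, G.x5, G.x6⟩, ⟨G.y1, G.y2, G.y3⟩, ⟨G.y4, G.y5, G.y6⟩, G.yσ, G.yv,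
      G.off, G.offφ⟩)))

/-- The flip of a nearby surface. -/
lemma FlipD.near {x y x1 : Surf N} {h a b h' c d k k' : Fin N}
    (F : FlipD x y h a b h' c d k k') (hσ : x1.σ = x.σ) (hφ : x1.φ = x.φ)
    (hv : x1.v h' = -x1.v h) (v2 : Fin N → ℂ)
    (off : ∀ z, z ≠ h → z ≠ h' → v2 z = x1.v z) (hk' : v2 k' = -v2 k)
    (hk : v2 k = -(x1.v d + x1.v a))
    (pos : ∀ z, 0 < (star (v2 z) * v2 (y.φ z)).im) :
    ∃ y1 : Surf N, y1.1 = (y.σ, y.φ, v2) ∧ (sameSurface N) y1 x1 := by
  have n1 := F.ne1; have n2 := F.ne2; have n3 := F.ne3; have n4 := F.ne4; have n5 := F.ne5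
  have n6 := F.ne6; have n7 := F.ne7; have n8 := F.ne8; have n9 := F.ne9; have n10 := F.ne10
  have n11 := F.ne11; have n12 := F.ne12; have n13 := F.ne13; have n14 := F.ha; have n15 := F.hb
  have hσ' : x.σ h' = h := by rw [← F.xσ, x.inv]
  have hnorm : ‖x1.v h'‖ = ‖x1.v h‖ := by rw [hv, norm_neg]
  have hkz : ∀ z, z ≠ h → z ≠ h' → z ≠ k ∧ z ≠ k' := by
    intro z h1 h2
    rcases F.kk with ⟨e1, e2⟩ | ⟨e1, e2⟩ <;> rw [e1, e2]
    · exact ⟨h1, h2⟩
    · exact ⟨h2, h1⟩
  have hkz' : ∀ z, z ≠ k → z ≠ k' → z ≠ h ∧ z ≠ h' := by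
    intro z h1 h2
    rcases F.kk with ⟨e1, e2⟩ | ⟨e1, e2⟩ <;> rw [e1] at h1 <;> rw [e2] at h2
    · exact ⟨h1, h2⟩
    · exact ⟨h2, h1⟩
  have m9 : k' ≠ k := by
    rcases F.kk with ⟨e1, e2⟩ | ⟨e1, e2⟩ <;> rw [e1, e2]
    · exact n7
    · exact n7.symm
  have hσk : x.σ k = k' := by
    rcases F.kk with ⟨e1, e2⟩ | ⟨e1, e2⟩ <;> rw [e1, e2]
    · exact F.xσ
    · exact hσ'
  have hσk' : x.σ k' = k := by rw [← hσk, x.inv]
  have va : v2 a = x1.v a := off a n1 n14.symm
  have vb : v2 b = x1.v b := off b n3.symm n15.symm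
  have vc : v2 c = x1.v c := off c n11 n4
  have vd : v2 d = x1.v d := off d n8 n6.symm
  have cl1 : x1.v h + x1.v a + x1.v b = 0 := by
    have := x1.closed h; rwa [hφ, F.x1, F.x2] at this
  have cl2 : x1.v h' + x1.v c + x1.v d = 0 := by
    have := x1.closed h'; rwa [hφ, F.x4, F.x5] at this
  have s1 : v2 k + v2 d + v2 a = 0 := by rw [hk, va, vd]; ring
  have s2 : v2 k' + v2 b + v2 c = 0 := by
    rw [hk', hk, vb, vc]
    rw [hv] at cl2
    linear_combination cl1 + cl2
  -- case distinction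
  have cases7 : ∀ z : Fin N, z = k ∨ z = k' ∨ z = a ∨ z = b ∨ z = c ∨ z = d ∨
      (z ≠ h ∧ z ≠ a ∧ z ≠ b ∧ z ≠ h' ∧ z ≠ c ∧ z ≠ d) := by
    intro z
    by_cases g1 : z = k
    · exact Or.inl g1
    by_cases g2 : z = k'
    · exact Or.inr (Or.inl g2)
    by_cases g3 : z = a
    · exact Or.inr (Or.inr (Or.inl g3))
    by_cases g4 : z = b
    · exact Or.inr (Or.inr (Or.inr (Or.inl g4)))
    by_cases g5 : z = c
    · exact Or.inr (Or.inr (Or.inr (Or.inr (Or.inl g5))))
    by_cases g6 : z = d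
    · exact Or.inr (Or.inr (Or.inr (Or.inr (Or.inr (Or.inl g6)))))
    obtain ⟨g7, g8⟩ := hkz' z g1 g2
    exact Or.inr (Or.inr (Or.inr (Or.inr (Or.inr (Or.inr ⟨g7, g3, g4, g8, g5, g6⟩)))))
  have off6 : ∀ z, z ≠ h → z ≠ a → z ≠ b → z ≠ h' → z ≠ c → z ≠ d →
      x.φ z ≠ h ∧ x.φ z ≠ a ∧ x.φ z ≠ b ∧ x.φ z ≠ h' ∧ x.φ z ≠ c ∧ x.φ z ≠ d := by
    intro z h1 h2 h3 h4 h5 h6
    refine ⟨?_, ?_, ?_, ?_, ?_, ?_⟩
    · intro e; exact h3 (x.φ_inj (e.trans F.x3.symm))
    · intro e; exact h1 (x.φ_inj (e.trans F.x1.symm))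
    · intro e; exact h2 (x.φ_inj (e.trans F.x2.symm))
    · intro e; exact h6 (x.φ_inj (e.trans F.x6.symm))
    · intro e; exact h4 (x.φ_inj (e.trans F.x4.symm))
    · intro e; exact h5 (x.φ_inj (e.trans F.x5.symm))
  have hI : IsTri y.σ y.φ v2 := by
    refine ⟨y.inv, y.nofix, y.tri, y.trinofix, y.2.conn, ?_, pos, ?_, ?_⟩
    · intro z
      rcases cases7 z with e | e | e | e | e | e | ⟨g1, g2, g3, g4, g5, g6⟩
      · subst e; rw [F.y1, F.y2]; exact s1
      · subst e; rw [F.y4, F.y5]; exact s2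
      · subst e; rw [F.y3, F.y1]; linear_combination s1
      · subst e; rw [F.y5, F.y6]; linear_combination s2
      · subst e; rw [F.y6, F.y4]; linear_combination s2
      · subst e; rw [F.y2, F.y3]; linear_combination s1
      · obtain ⟨f1, f2, f3, f4, f5, f6⟩ := off6 z g1 g2 g3 g4 g5 g6
        obtain ⟨e1, e2, e3, e4, e5, e6⟩ := off6 _ f1 f2 f3 f4 f5 f6
        rw [F.offφ z g1 g2 g3 g4 g5 g6, F.offφ _ f1 f2 f3 f4 f5 f6, off z g1 g4, off _ f1 f4,
          off _ e1 e4]
        have := x1.closed z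
        rwa [hφ] at this
    · intro z
      rw [F.yσ]
      by_cases g1 : z = k
      · rw [g1, hσk, hk']; exact ⟨1, one_pos, by push_cast; ring⟩
      by_cases g2 : z = k'
      · rw [g2, hσk', hk']; exact ⟨1, one_pos, by push_cast; ring⟩
      have g3 : x.σ z ≠ k := by intro e; apply g2; rw [← x.inv z, e, hσk]
      have g4 : x.σ z ≠ k' := by intro e; apply g1; rw [← x.inv z, e, hσk']
      obtain ⟨f1, f2⟩ := hkz' z g1 g2
      obtain ⟨f3, f4⟩ := hkz' _ g3 g4
      rw [off z f1 f2, off _ f3 f4]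
      have := x1.glue z
      rwa [hσ] at this
    · obtain ⟨κ, hκ, hκ2⟩ := x1.2.hol
      replace hκ2 : ∀ z, κ (x.σ z) * ‖x1.v z‖ = κ (x.φ z) * ‖x1.v (x.σ z)‖ := by
        intro z
        have := hκ2 z
        change κ (x1.σ z) * ‖x1.v z‖ = κ (x1.φ z) * ‖x1.v (x1.σ z)‖ at this
        rwa [hσ, hφ] at this
      have κ1 : κ h' = κ a := by
        have := hκ2 h
        rw [F.xσ, F.x1, hnorm] at this
        exact mul_right_cancel₀ (x1.norm_pos h).ne' this
      have κ2 : κ h = κ c := by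
        have := hκ2 h'
        rw [hσ', F.x4, hnorm] at this
        exact mul_right_cancel₀ (x1.norm_pos h).ne' this
      let κ' : Fin N → ℝ := fun z => if z = k then κ b else if z = k' then κ d else κ z
      have κ3 : κ' k = κ b := by simp [κ']
      have κ4 : κ' k' = κ d := by simp [κ', m9]
      have κ5' : ∀ z, z ≠ k → z ≠ k' → κ' z = κ z := by
        intro z h1 h2; simp [κ', h1, h2]
      have κ5 : ∀ z, z ≠ h → z ≠ h' → κ' z = κ z := by
        intro z h1 h2
        obtain ⟨h3, h4⟩ := hkz z h1 h2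
        exact κ5' z h3 h4
      refine ⟨κ', ?_, ?_⟩
      · intro z
        by_cases g1 : z = k
        · rw [g1, κ3]; exact hκ _
        by_cases g2 : z = k'
        · rw [g2, κ4]; exact hκ _
        rw [κ5' z g1 g2]; exact hκ _
      · intro z
        rw [F.yσ]
        by_cases g1 : z = k
        · rw [g1, hσk, F.y1, κ4, hk', norm_neg, κ5 d n8 n6.symm]
        by_cases g2 : z = k'
        · rw [g2, hσk', F.y4, κ3, hk', norm_neg, κ5 b n3.symm n15.symm]
        have g3 : x.σ z ≠ k := by intro e; apply g2; rw [← x.inv z, e, hσk]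
        have g4 : x.σ z ≠ k' := by intro e; apply g1; rw [← x.inv z, e, hσk']
        obtain ⟨f1, f2⟩ := hkz' z g1 g2
        obtain ⟨f3, f4⟩ := hkz' _ g3 g4
        rw [off z f1 f2, off _ f3 f4, κ5 _ f3 f4, hκ2 z]
        congr 1
        by_cases g5 : z = a
        · rw [g5, F.x2, F.y3, κ3]
        by_cases g6 : z = b
        · rw [g6, F.x3, F.y5, κ5 c n11 n4, κ2]
        by_cases g7 : z = c
        · rw [g7, F.x5, F.y6, κ4]
        by_cases g8 : z = d
        · rw [g8, F.x6, F.y2, κ5 a n1 n14.symm, κ1]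
        rw [F.offφ z f1 g5 g6 f2 g7 g8]
        refine (κ5 _ ?_ ?_).symm
        · intro e; exact g6 (x.φ_inj (e.trans F.x3.symm))
        · intro e; exact g8 (x.φ_inj (e.trans F.x6.symm))
  refine ⟨⟨(y.σ, y.φ, v2), hI⟩, rfl, ?_⟩
  have G : FlipD x1 (⟨(y.σ, y.φ, v2), hI⟩ : Surf N) h a b h' c d k k' :=
    { ha := F.ha, hb := F.hb, xσ := by rw [hσ]; exact F.xσ, xv := hv,
      x1 := by rw [hφ]; exact F.x1, x2 := by rw [hφ]; exact F.x2, x3 := by rw [hφ]; exact F.x3,
      x4 := by rw [hφ]; exact F.x4, x5 := by rw [hφ]; exact F.x5, x6 := by rw [hφ]; exact F.x6,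
      y1 := F.y1, y2 := F.y2, y3 := F.y3, y4 := F.y4,
      y5 := F.y5, y6 := F.y6, yσ := by rw [hσ]; exact F.yσ, yv := hk', off := off,
      offφ := by rw [hφ]; exact F.offφ,
      kk := F.kk, κ1 := rfl, κ2 := rfl, κ3 := rfl,
      κ4 := rfl, κ5 := fun z h1 h2 => rfl }
  exact (sameSurface N).symm G.same

/-- the raw flip map -/
def flipMap (y : Surf N) (h a h' c d k k' : Fin N) (x1 : Surf N) : Raw N :=
  (y.σ, y.φ, fun z =>
    if z = k then -(((‖x1.v h‖ / ‖x1.v h'‖ : ℝ) : ℂ) * x1.v d + x1.v a)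
    else if z = k' then (((‖x1.v h‖ / ‖x1.v h'‖ : ℝ) : ℂ) * x1.v d + x1.v a)
    else if z = c ∨ z = d then ((‖x1.v h‖ / ‖x1.v h'‖ : ℝ) : ℂ) * x1.v z
    else x1.v z)

lemma continuous_flipMap (y : Surf N) (h a h' c d k k' : Fin N) :
    Continuous (flipMap y h a h' c d k k') := by
  have ht : Continuous fun x1 : Surf N => ((‖x1.v h‖ / ‖x1.v h'‖ : ℝ) : ℂ) :=
    Complex.continuous_ofReal.comp
      ((continuous_v h).norm.div (continuous_v h').norm (fun x => (x.norm_pos h').ne'))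
  refine Continuous.prodMk continuous_const (Continuous.prodMk continuous_const ?_)
  refine continuous_pi fun z => ?_
  by_cases h1 : z = k
  · simp only [h1, if_true]
    exact ((ht.mul (continuous_v d)).add (continuous_v a)).neg
  by_cases h2 : z = k'
  · simp only [h2, if_true]
    split_ifs
    · exact ((ht.mul (continuous_v d)).add (continuous_v a)).neg
    · exact (ht.mul (continuous_v d)).add (continuous_v a)
  by_cases h3 : z = c ∨ z = d
  · simp only [h1, h2, h3, if_true, if_false]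
    exact ht.mul (continuous_v z)
  · simp only [h1, h2, h3, if_false]
    exact continuous_v z

lemma LL_flip {x y : Surf N} {h a b h' c d k k' : Fin N}
    (F : FlipD x y h a b h' c d k k') : LL y x := by
  have n1 := F.ne1; have n2 := F.ne2; have n3 := F.ne3; have n4 := F.ne4; have n5 := F.ne5
  have n6 := F.ne6; have n7 := F.ne7; have n8 := F.ne8; have n9 := F.ne9; have n10 := F.ne10
  have n11 := F.ne11; have n12 := F.ne12; have n13 := F.ne13; have n14 := F.ha; have n15 := F.hb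
  have hkz : ∀ z, z ≠ h → z ≠ h' → z ≠ k ∧ z ≠ k' := by
    intro z h1 h2
    rcases F.kk with ⟨e1, e2⟩ | ⟨e1, e2⟩ <;> rw [e1, e2]
    · exact ⟨h1, h2⟩
    · exact ⟨h2, h1⟩
  have hkz' : ∀ z, z ≠ k → z ≠ k' → z ≠ h ∧ z ≠ h' := by
    intro z h1 h2
    rcases F.kk with ⟨e1, e2⟩ | ⟨e1, e2⟩ <;> rw [e1] at h1 <;> rw [e2] at h2
    · exact ⟨h1, h2⟩
    · exact ⟨h2, h1⟩
  have m9 : k' ≠ k := by
    rcases F.kk with ⟨e1, e2⟩ | ⟨e1, e2⟩ <;> rw [e1, e2]
    · exact n7
    · exact n7.symm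
  have hxx : flipMap y h a h' c d k k' x = y.1 := by
    have ht : ((‖x.v h‖ / ‖x.v h'‖ : ℝ) : ℂ) = 1 := by
      rw [F.xv, norm_neg, div_self (x.norm_pos h).ne', Complex.ofReal_one]
    have ya : y.v a = x.v a := F.off a n1 n14.symm
    have yd : y.v d = x.v d := F.off d n8 n6.symm
    have yvk : y.v k = -(x.v d + x.v a) := by
      have := y.closed k
      rw [F.y1, F.y2, yd, ya] at this
      linear_combination this
    show ((_, _, _) : Raw N) = (y.σ, y.φ, y.v)
    refine Prod.ext rfl (Prod.ext rfl ?_)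
    funext z
    simp only [ht, one_mul]
    by_cases g1 : z = k
    · rw [if_pos g1, g1, yvk]
    by_cases g2 : z = k'
    · rw [if_neg g1, if_pos g2, g2, F.yv, yvk, neg_neg]
    obtain ⟨f1, f2⟩ := hkz' z g1 g2
    rw [if_neg g1, if_neg g2, F.off z f1 f2]
    split_ifs <;> rfl
  refine LL_of_map (flipMap y h a h' c d k k') (continuous_flipMap y h a h' c d k k').continuousAt
    hxx ?_
  -- positivity near `x`
  have hpos : ∀ᶠ x1 in 𝓝 x, ∀ z, 0 < (star ((flipMap y h a h' c d k k' x1).2.2 z) *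
      (flipMap y h a h' c d k k' x1).2.2 (y.φ z)).im := by
    refine Filter.eventually_all.2 fun z => ?_
    have hc : Continuous fun x1 : Surf N => (star ((flipMap y h a h' c d k k' x1).2.2 z) *
      (flipMap y h a h' c d k k' x1).2.2 (y.φ z)).im := by
      have h0 : Continuous fun x1 : Surf N => (flipMap y h a h' c d k k' x1).2.2 :=
        (continuous_flipMap y h a h' c d k k').snd.snd
      exact Complex.continuous_im.comp
        ((continuous_star.comp ((continuous_apply z).comp h0)).mul ((continuous_apply _).comp h0))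
    refine hc.continuousAt.eventually (lt_mem_nhds ?_)
    simp only [hxx]
    exact y.pos z
  filter_upwards [eventually_σ x, eventually_φ x, hpos] with x1 hσ hφ hp
  -- rescale the face of `h'`
  set t : ℝ := ‖x1.v h‖ / ‖x1.v h'‖ with ht
  have htpos : 0 < t := div_pos (x1.norm_pos h) (x1.norm_pos h')
  let s : Fin N → ℝ := fun z => if z = h' ∨ z = c ∨ z = d then t else 1
  have hs : ∀ z, 0 < s z := by
    intro z; simp only [s]; split_ifs
    · exact htpos
    · exact one_pos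
  have hsφ : ∀ z, s (x1.φ z) = s z := by
    intro z
    rw [hφ]
    have : (x.φ z = h' ∨ x.φ z = c ∨ x.φ z = d) ↔ (z = h' ∨ z = c ∨ z = d) := by
      constructor
      · rintro (e | e | e)
        · exact Or.inr (Or.inr (x.φ_inj (e.trans F.x6.symm)))
        · exact Or.inl (x.φ_inj (e.trans F.x4.symm))
        · exact Or.inr (Or.inl (x.φ_inj (e.trans F.x5.symm)))
      · rintro (e | e | e)
        · rw [e]; exact Or.inr (Or.inl F.x4)
        · rw [e]; exact Or.inr (Or.inr F.x5)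
        · rw [e]; exact Or.inl F.x6
    simp only [s, this]
  obtain ⟨x2, e1, e2⟩ := exists_rescale s x1 hs hsφ
  have e3 : x2.σ = x1.σ := by
    have := congrArg Prod.fst e1; exact this
  have e4 : x2.φ = x1.φ := by
    have := congrArg (fun p => p.2.1) e1; exact this
  have e5 : x2.v = fun z => (s z : ℂ) * x1.v z := by
    have := congrArg (fun p => p.2.2) e1; exact this
  have sh : s h = 1 := by simp [s, n7.symm, n11.symm, n8.symm]
  have sh' : s h' = t := by simp [s]
  have sa : s a = 1 := by simp [s, n14.symm, n12.symm, n9.symm]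
  have sd : s d = t := by simp [s]
  have hv : x2.v h' = -x2.v h := by
    rw [e5]
    simp only [sh, sh']
    obtain ⟨r, hr, h1⟩ := x1.glue h
    rw [hσ, F.xσ] at h1
    have h2 : ‖x1.v h'‖ = r * ‖x1.v h‖ := by
      rw [h1, neg_mul, norm_neg, norm_mul, Complex.norm_real, Real.norm_of_nonneg hr.le]
    have h3 : t * r = 1 := by
      rw [ht, h2]
      have := (x1.norm_pos h).ne'
      field_simp
    have h3' : (t : ℂ) * r = 1 := by exact_mod_cast h3
    rw [h1]
    push_cast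
    linear_combination (-x1.v h) * h3'
  have hoff : ∀ z, z ≠ h → z ≠ h' → (flipMap y h a h' c d k k' x1).2.2 z = x2.v z := by
    intro z h1 h2
    obtain ⟨g1, g2⟩ := hkz z h1 h2
    rw [e5]
    show (if z = k then _ else if z = k' then _ else if z = c ∨ z = d then _ else _) = _
    rw [if_neg g1, if_neg g2]
    by_cases g3 : z = c ∨ z = d
    · rw [if_pos g3]
      have : s z = t := by simp [s, g3]
      simp only [this, ht]
    · rw [if_neg g3]
      have : s z = 1 := by simp [s, g3, h2]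
      simp only [this, Complex.ofReal_one, one_mul]
  have hk1 : (flipMap y h a h' c d k k' x1).2.2 k' = -(flipMap y h a h' c d k k' x1).2.2 k := by
    show (if k' = k then _ else if k' = k' then _ else _) = -(if k = k then _ else _)
    rw [if_neg m9, if_pos rfl, if_pos rfl, neg_neg]
  have hk2 : (flipMap y h a h' c d k k' x1).2.2 k = -(x2.v d + x2.v a) := by
    show (if k = k then _ else _) = _
    rw [if_pos rfl, e5]
    simp only [sd, sa, Complex.ofReal_one, one_mul, ht]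
  obtain ⟨y1, f1, f2⟩ := F.near (x1 := x2) (e3.trans hσ) (e4.trans hφ) hv
    (flipMap y h a h' c d k k' x1).2.2 hoff hk1 hk2 hp
  refine ⟨y1, f1, (sameSurface N).trans f2 ((sameSurface N).symm ?_)⟩
  exact same_of_move (Or.inr (Or.inl e2))

theorem LL_of_same {x y : Surf N} (h : (sameSurface N) x y) : LL x y ∧ LL y x := by
  have h' : Relation.EqvGen Move x y := h
  induction h' with
  | rel x y m =>
    rcases m with ⟨e, he⟩ | ⟨s, hs⟩ | F
    · refine ⟨LL_relabel e.symm ?_, LL_relabel e he⟩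
      intro h
      obtain ⟨h, rfl⟩ := e.surjective h
      simp [(he h).1, (he h).2.1, (he h).2.2]
    · refine ⟨LL_rescale (fun h => (s h)⁻¹) ?_, LL_rescale s hs⟩
      intro h
      have h0 := (hs h).1
      have h0' : (s h : ℂ) ≠ 0 := by exact_mod_cast h0.ne'
      refine ⟨inv_pos.2 h0, ?_, (hs h).2.2.1.symm, (hs h).2.2.2.1.symm, ?_⟩
      · rw [(hs h).2.2.2.1, (hs h).2.1]
      · rw [(hs h).2.2.2.2]
        push_cast
        field_simp
    · obtain ⟨h, a, b, h', c, d, G⟩ := F.flipD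
      exact ⟨LL_flip G.symm, LL_flip G⟩
  | refl x => exact ⟨LL.refl x, LL.refl x⟩
  | symm x y _ ih => exact ⟨(ih ‹_›).2, (ih ‹_›).1⟩
  | trans x y z _ _ ih1 ih2 => exact ⟨(ih1 ‹_›).1.trans (ih2 ‹_›).1, (ih2 ‹_›).2.trans (ih1 ‹_›).2⟩

/-- The map to the moduli space is open. -/
theorem isOpenMap_toModuli : IsOpenMap (Surf.toModuli : Surf N → Moduli N) := by
  intro U hU
  refine isOpen_coinduced.2 ?_
  rw [isOpen_iff_mem_nhds]
  rintro y ⟨x, hx, hxy⟩
  have e : (sameSurface N) x y := Quotient.exact hxy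
  have := (LL_of_same e).1 U (hU.mem_nhds hx)
  filter_upwards [this] with y' hy'
  obtain ⟨x', hx', e'⟩ := hy'
  exact ⟨x', hx', Quotient.sound e'⟩

lemma exists_near {x : Surf N} {O : Set (Moduli N)} (hx : x.toModuli ∈ closure O)
    {U : Set (Surf N)} (hU : U ∈ 𝓝 x) : ∃ x' ∈ U, x'.toModuli ∈ O := by
  rw [mem_closure_iff_nhds] at hx
  obtain ⟨Y, ⟨x', hx', rfl⟩, hY⟩ := hx _ (isOpenMap_toModuli.image_mem_nhds hU)
  exact ⟨x', hx', hY⟩

end

end Pool.Agent.W729.Dil
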