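import Pool.Agent.W729.D6

/-!
The example: surfaces of genus two with one cone point, glued from two tori with one hole.
-/

set_option autoImplicit false

namespace Pool.Agent.W729.Dil

noncomputable section

open Topology Filter

/-- the gluing -/
def σ0 : Fin 18 → Fin 18 := ![9, 7, 3, 2, 8, 6, 5, 1, 4, 0, 16, 12, 11, 17, 15, 14, 10, 13]

/-- the rotation of the faces -/
def φ0 : Fin 18 → Fin 18 := ![1, 2, 0, 4, 5, 3, 7, 8, 6, 10, 11, 9, 13, 14, 12, 16, 17, 15]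

/-- position in the cycle of corners -/
def pos0 : Fin 18 → ℕ := ![0, 8, 4, 1, 3, 6, 2, 5, 7, 9, 17, 13, 10, 12, 15, 11, 14, 16]

lemma cyc1 : ∀ h : Fin 18, (fun z => σ0 (φ0 (φ0 z)))^[pos0 h] 0 = h := by decide

lemma cyc2 : ∀ h : Fin 18, (fun z => σ0 (φ0 (φ0 z)))^[18 - pos0 h] h = 0 := by decide

lemma cyc (h h' : Fin 18) : ∃ m : ℕ, (fun z => σ0 (φ0 (φ0 z)))^[m] h = h' :=
  ⟨pos0 h' + (18 - pos0 h), by rw [Function.iterate_add_apply, cyc2, cyc1]⟩

lemma σ0_inv : ∀ h, σ0 (σ0 h) = h := by decide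
lemma σ0_nofix : ∀ h, σ0 h ≠ h := by decide
lemma φ0_tri : ∀ h, φ0 (φ0 (φ0 h)) = h := by decide
lemma φ0_nofix : ∀ h, φ0 h ≠ h := by decide

lemma conn0 (s : Set (Fin 18)) (hs : s.Nonempty) (hs' : ∀ h ∈ s, σ0 h ∈ s ∧ φ0 h ∈ s) :
    s = Set.univ := by
  obtain ⟨h, hh⟩ := hs
  apply Set.eq_univ_of_forall
  intro z
  obtain ⟨m, hm⟩ := cyc h z
  rw [← hm]
  clear hm
  induction m with
  | zero => exact hh
  | succ m ih =>
    rw [Function.iterate_succ_apply']
    exact (hs' _ (hs' _ (hs' _ ih).2).2).1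

/-- the vectors -/
def vD (s : ℝ) : Fin 18 → ℂ :=
  ![⟨1, 0⟩, ⟨1, 1⟩, ⟨-2, -1⟩, ⟨2, 1⟩, ⟨-2, 0⟩, ⟨0, -1⟩, ⟨0, 2⟩, ⟨-2, -2⟩, ⟨2, 0⟩,
    ⟨-1, 0⟩, ⟨-1, -s⟩, ⟨2, s⟩, ⟨-2, -s⟩, ⟨2, 0⟩, ⟨0, s⟩, ⟨0, -2 * s⟩, ⟨2, 2 * s⟩, ⟨-2, 0⟩]

/-- the ratios -/
def rD : Fin 18 → ℝ := ![1, 2, 1, 1, 1, 2, 1 / 2, 1 / 2, 1, 1, 2, 1, 1, 1, 2, 1 / 2, 1 / 2, 1]

/-- the scales -/
def κD : Fin 18 → ℝ := ![1, 1, 2, 1, 2, 2, 2, 4, 2, 1, 1, 2, 1, 2, 2, 2, 4, 2]

lemma glue_D (s : ℝ) (h : Fin 18) : 0 < rD h ∧ vD s (σ0 h) = -(rD h : ℂ) * vD s h := by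
  constructor
  · fin_cases h <;> simp [rD]
  · fin_cases h <;> apply Complex.ext <;> simp [vD, rD, σ0]

lemma isTri_D (s : ℝ) (hs : 0 < s) : IsTri σ0 φ0 (vD s) := by
  have hglue := glue_D s
  refine ⟨σ0_inv, σ0_nofix, φ0_tri, φ0_nofix, conn0, ?_, ?_, ?_, ?_⟩
  · intro h
    fin_cases h <;> apply Complex.ext <;> simp [vD, φ0] <;> norm_num
  · intro h
    rw [cr_eq]
    fin_cases h <;> simp [vD, φ0, cr]
    all_goals nlinarith
  · intro h
    exact ⟨rD h, hglue h⟩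
  · refine ⟨κD, ?_, ?_⟩
    · intro h; fin_cases h <;> simp [κD]
    · intro h
      obtain ⟨h1, h2⟩ := hglue h
      rw [h2, neg_mul, norm_neg, norm_mul, Complex.norm_real, Real.norm_of_nonneg h1.le]
      have : κD (σ0 h) = κD (φ0 h) * rD h := by
        fin_cases h <;> simp [κD, σ0, φ0, rD] <;> norm_num
      rw [this]; ring

/-- the family of surfaces -/
def Dsurf (s : Set.Ioi (0 : ℝ)) : Surf 18 := ⟨(σ0, φ0, vD s), isTri_D s s.2⟩

lemma continuous_Dsurf : Continuous Dsurf := by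
  refine Continuous.subtype_mk ?_ _
  refine Continuous.prodMk continuous_const (Continuous.prodMk continuous_const ?_)
  refine continuous_pi fun h => ?_
  have hc : Continuous fun s : Set.Ioi (0 : ℝ) => (s : ℝ) := continuous_subtype_val
  have key : ∀ f g : Set.Ioi (0 : ℝ) → ℝ, Continuous f → Continuous g →
      Continuous fun s => (⟨f s, g s⟩ : ℂ) := by
    intro f g hf hg
    have : (fun s => (⟨f s, g s⟩ : ℂ)) = fun s => (f s : ℂ) + (g s : ℂ) * Complex.I := by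
      funext s; apply Complex.ext <;> simp
    rw [this]
    fun_prop
  fin_cases h <;> simp only [vD] <;> refine key _ _ ?_ ?_ <;> fun_prop

/-- the sum of the angles of a triangle -/
lemma angle_sum {N : ℕ} (x : Surf N) (h : Fin N) :
    x.angle h + x.angle (x.φ h) + x.angle (x.φ (x.φ h)) = Real.pi := by
  set v0 := x.v h with hv0
  set v1 := x.v (x.φ h) with hv1
  set v2 := x.v (x.φ (x.φ h)) with hv2
  have n0 : v0 ≠ 0 := x.v_ne _
  have n1 : v1 ≠ 0 := x.v_ne _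
  have n2 : v2 ≠ 0 := x.v_ne _
  have hc : v0 + v1 + v2 = 0 := x.closed h
  have p0 : 0 < cr v0 v1 := by have := x.pos h; rwa [cr_eq] at this
  have p1 : 0 < cr v1 v2 := by have := x.pos (x.φ h); rwa [cr_eq] at this
  have p2 : 0 < cr v2 v0 := by
    have := x.pos (x.φ (x.φ h)); rwa [cr_eq, x.tri] at this
  have a0 : x.angle h = Complex.arg (-v2 / v0) := rfl
  have a1 : x.angle (x.φ h) = Complex.arg (-v0 / v1) := by
    unfold Surf.angle; rw [x.tri]
  have a2 : x.angle (x.φ (x.φ h)) = Complex.arg (-v1 / v2) := by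
    unfold Surf.angle; rw [x.tri]
  have him : ∀ z w : ℂ, z ≠ 0 → 0 < cr z w → 0 < (w / z).im := by
    intro z w hz hw
    have hn : 0 < Complex.normSq z := Complex.normSq_pos.2 hz
    rw [Complex.div_im]
    have : w.im * z.re / Complex.normSq z - w.re * z.im / Complex.normSq z =
      cr z w / Complex.normSq z := by rw [cr]; ring
    rw [this]
    exact div_pos hw hn
  have q0 : 0 < (-v2 / v0).im := by
    apply him _ _ n0
    have : -v2 = v0 + v1 := by linear_combination -hc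
    rw [this]
    simp only [cr, Complex.add_re, Complex.add_im] at p0 ⊢
    linarith
  have q1 : 0 < (-v0 / v1).im := by
    apply him _ _ n1
    have : -v0 = v1 + v2 := by linear_combination -hc
    rw [this]
    simp only [cr, Complex.add_re, Complex.add_im] at p1 ⊢
    linarith
  have q2 : 0 < (-v1 / v2).im := by
    apply him _ _ n2
    have : -v1 = v2 + v0 := by linear_combination -hc
    rw [this]
    simp only [cr, Complex.add_re, Complex.add_im] at p2 ⊢
    linarith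
  have harg : ∀ z : ℂ, 0 < z.im → 0 < Complex.arg z ∧ Complex.arg z < Real.pi := by
    intro z hz
    refine ⟨?_, ?_⟩
    · have h1 : 0 ≤ Complex.arg z := Complex.arg_nonneg_iff.2 hz.le
      rcases h1.eq_or_lt with h2 | h2
      · exfalso
        have := (Complex.arg_eq_zero_iff.1 h2.symm).2
        linarith
      · exact h2
    · refine lt_of_le_of_ne (Complex.arg_le_pi z) ?_
      intro h2
      have := (Complex.arg_eq_pi_iff.1 h2).2
      linarith
  have m0 : -v2 / v0 ≠ 0 := div_ne_zero (neg_ne_zero.2 n2) n0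
  have m1 : -v0 / v1 ≠ 0 := div_ne_zero (neg_ne_zero.2 n0) n1
  have m2 : -v1 / v2 ≠ 0 := div_ne_zero (neg_ne_zero.2 n1) n2
  have hprod : (-v2 / v0) * (-v0 / v1) * (-v1 / v2) = -1 := by field_simp
  have hang : ((Complex.arg (-v2 / v0) + Complex.arg (-v0 / v1) + Complex.arg (-v1 / v2) : ℝ) :
      Real.Angle) = (Real.pi : ℝ) := by
    rw [Real.Angle.coe_add, Real.Angle.coe_add, ← Complex.arg_mul_coe_angle m0 m1,
      ← Complex.arg_mul_coe_angle (mul_ne_zero m0 m1) m2, hprod, Complex.arg_neg_one]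
  rw [Real.Angle.angle_eq_iff_two_pi_dvd_sub] at hang
  obtain ⟨k, hk⟩ := hang
  rw [a0, a1, a2]
  obtain ⟨b0, c0⟩ := harg _ q0
  obtain ⟨b1, c1⟩ := harg _ q1
  obtain ⟨b2, c2⟩ := harg _ q2
  have hpi := Real.pi_pos
  have hk0 : k = 0 := by
    by_contra hne
    rcases lt_or_gt_of_ne hne with h1 | h1
    · have : (k : ℝ) ≤ -1 := by exact_mod_cast Int.le_sub_one_of_lt h1
      nlinarith
    · have : (1 : ℝ) ≤ k := by exact_mod_cast h1
      nlinarith
  rw [hk0] at hk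
  simp at hk
  linarith

lemma sum_angle {N : ℕ} (x : Surf N) : 3 * ∑ h, x.angle h = N * Real.pi := by
  have hb : Function.Bijective x.φ :=
    Finite.injective_iff_bijective.1 (fun _ _ e => x.φ_inj e)
  have h1 : ∑ h, x.angle (x.φ h) = ∑ h, x.angle h := hb.sum_comp _
  have h2 : ∑ h, x.angle (x.φ (x.φ h)) = ∑ h, x.angle h := by
    rw [← h1]; exact hb.sum_comp (fun h => x.angle (x.φ h))
  have h3 : ∑ h, (x.angle h + x.angle (x.φ h) + x.angle (x.φ (x.φ h))) = ∑ _h : Fin N, Real.pi :=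
    Finset.sum_congr rfl fun h _ => angle_sum x h
  rw [Finset.sum_add_distrib, Finset.sum_add_distrib, h1, h2, Finset.sum_const, Finset.card_univ,
    Fintype.card_fin, nsmul_eq_mul] at h3
  linarith

lemma coneAngles_D (s : Set.Ioi (0 : ℝ)) : (Dsurf s).HasConeAngles (fun _ : Fin 1 => 3) := by
  refine ⟨fun _ => 0, ?_, ?_, ?_⟩
  · intro i; exact ⟨0, Subsingleton.elim _ _⟩
  · intro h h'
    refine ⟨fun _ => ?_, fun _ => rfl⟩
    exact cyc h h'
  · intro i
    have : (Finset.univ.filter fun _ : Fin 18 => (0 : Fin 1) = i) = Finset.univ := by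
      apply Finset.filter_true_of_mem
      intro _ _; exact Subsingleton.elim _ _
    rw [this]
    have := sum_angle (Dsurf s)
    push_cast at this ⊢
    linarith

end

end Pool.Agent.W729.Dil
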