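import Pool.Agent.W729.D7

/-!
Rigidity of the structure on surfaces glued from two tori with one hole.
-/

set_option autoImplicit false

namespace Pool.Agent.W729.Dil

noncomputable section

/-- the standard structure of a surface glued from two tori with one hole -/
structure Std (x : Surf 18) (κ : Fin 18 → ℝ) (ω : ℂ →ₗ[ℝ] ℝ) (H1 H2 : ℝ) : Prop where
  hσ : x.σ = σ0
  hφ : x.φ = φ0
  hκ : ScaleOn x κ
  p1 : 0 < H1
  p2 : 0 < H2
  hR : HasR x κ ω H1 H2
  w0 : ω (x.v 0) = 0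
  w1 : ω (x.v 1) = H1 * (κ 2 - κ 1)
  k1 : κ 1 ≠ κ 2
  w10 : ω (x.v 10) = -(H2 * (κ 11 - κ 10))
  k10 : κ 10 ≠ κ 11

/-- corner scales are unique up to a factor -/
lemma scale_unique {x : Surf 18} (hσ : x.σ = σ0) (hφ : x.φ = φ0) {κ κ' : Fin 18 → ℝ}
    (h : ScaleOn x κ) (h' : ScaleOn x κ') : ∃ q : ℝ, 0 < q ∧ κ' = fun z => q * κ z := by
  have key : ∀ z, κ' (σ0 z) / κ (σ0 z) = κ' (φ0 z) / κ (φ0 z) := by
    intro z
    have e := h.2 z
    have e' := h'.2 z
    rw [hσ, hφ] at e e'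
    have n1 := x.norm_pos z
    have n2 := x.norm_pos (σ0 z)
    have k1 := h.1 (σ0 z)
    have k2 := h.1 (φ0 z)
    have k3 := h'.1 (σ0 z)
    have k4 := h'.1 (φ0 z)
    rw [div_eq_div_iff k1.ne' k2.ne']
    have : (κ' (σ0 z) * κ (φ0 z)) * (‖x.v z‖ * ‖x.v (σ0 z)‖) =
        (κ' (φ0 z) * κ (σ0 z)) * (‖x.v z‖ * ‖x.v (σ0 z)‖) := by
      linear_combination (κ (φ0 z) * ‖x.v (σ0 z)‖) * e' - (κ' (φ0 z) * ‖x.v (σ0 z)‖) * e
    exact mul_right_cancel₀ (mul_pos n1 n2).ne' this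
  have step : ∀ z, κ' (σ0 (φ0 (φ0 z))) / κ (σ0 (φ0 (φ0 z))) = κ' z / κ z := by
    intro z
    rw [key, φ0_tri]
  refine ⟨κ' 0 / κ 0, div_pos (h'.1 0) (h.1 0), ?_⟩
  funext z
  have : κ' z / κ z = κ' 0 / κ 0 := by
    obtain ⟨m, hm⟩ := cyc 0 z
    rw [← hm]
    clear hm
    induction m with
    | zero => rfl
    | succ m ih => rw [Function.iterate_succ_apply', step, ih]
  rw [← this]
  have := (h.1 z).ne'
  field_simp

/-- the boundary edge is in the kernel of the height form -/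
lemma w0_of_RS {x : Surf 18} (hσ : x.σ = σ0) (hφ : x.φ = φ0) {κ : Fin 18 → ℝ}
    (hκ : ScaleOn x κ) {ω : ℂ →ₗ[ℝ] ℝ} {H1 H2 : ℝ} (hH1 : 0 < H1) (hH2 : 0 < H2)
    {y k0 : Fin 18 → ℝ} (R : RS x κ ω H1 H2 y k0) : ω (x.v 0) = 0 := by
  -- the cross relation
  have cross : ∀ W : Fin 18 → ℝ, (∀ z, 0 < W z) →
      (∀ z, W (σ0 z) * W z = W (φ0 (σ0 z)) * W (φ0 z)) → W 1 = W 0 := by
    intro W hW hc
    have c2 : W 3 * W 2 = W 4 * W 0 := hc 2
    have c5 : W 6 * W 5 = W 7 * W 3 := hc 5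
    have c8 : W 4 * W 8 = W 5 * W 6 := hc 8
    have c1 : W 7 * W 1 = W 8 * W 2 := hc 1
    have hpos : 0 < W 2 * W 3 * W 4 * W 5 * W 6 * W 7 * W 8 := by
      have := hW 2; have := hW 3; have := hW 4; have := hW 5; have := hW 6; have := hW 7
      have := hW 8
      positivity
    have : W 1 * (W 2 * W 3 * W 4 * W 5 * W 6 * W 7 * W 8) =
        W 0 * (W 2 * W 3 * W 4 * W 5 * W 6 * W 7 * W 8) := by
      calc W 1 * (W 2 * W 3 * W 4 * W 5 * W 6 * W 7 * W 8)
          = (W 7 * W 1) * (W 3 * W 2) * (W 6 * W 5) * (W 4 * W 8) := by ring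
        _ = (W 8 * W 2) * (W 4 * W 0) * (W 7 * W 3) * (W 5 * W 6) := by rw [c1, c2, c5, c8]
        _ = W 0 * (W 2 * W 3 * W 4 * W 5 * W 6 * W 7 * W 8) := by ring
    exact mul_right_cancel₀ hpos.ne' this
  have hag := R.ag
  rw [hσ, hφ] at hag
  have hk2 : ∀ z, κ (σ0 z) * ‖x.v z‖ = κ (φ0 z) * ‖x.v (σ0 z)‖ := by
    intro z; have := hκ.2 z; rwa [hσ, hφ] at this
  have hk3 : ∀ z, κ (φ0 (σ0 z)) * ‖x.v z‖ = κ z * ‖x.v (σ0 z)‖ := by
    intro z; have := hk2 (σ0 z); rw [σ0_inv] at this; exact this.symm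
  have hkφ : ∀ z, k0 (φ0 z) = k0 z := by
    intro z; have := R.kφ z; rwa [hφ] at this
  have hyφ : y 1 = y 0 + ω (x.v 0) := by
    have := R.yφ 0; rw [hφ] at this; exact this
  have hk01 : k0 1 = k0 0 := hkφ 0
  -- type lemmas
  have ty0 : ∀ z, y z = 0 → κ z = k0 z := by
    intro z hz
    rcases R.ty z with ⟨_, h⟩ | ⟨_, h⟩ <;> rw [hz] at h
    · rcases mul_eq_zero.1 h.symm with h' | h'
      · exact absurd h' hH1.ne'
      · linarith
    · have : H2 * (κ z - k0 z) = 0 := by linarith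
      rcases mul_eq_zero.1 this with h' | h'
      · exact absurd h' hH2.ne'
      · linarith
  -- the two cocycles
  have gen : ∀ c : ℝ → Prop, (∀ a b n1 n2 : ℝ, 0 < n1 → 0 < n2 → a * n1 = b * n2 → (c a ↔ c b)) →
      (((∀ a : ℝ, 0 ≤ a → c a) ∧ (∀ a : ℝ, a < 0 → ¬ c a)) ∨
        ((∀ a : ℝ, a ≤ 0 → c a) ∧ (∀ a : ℝ, 0 < a → ¬ c a))) →
      ∀ W : Fin 18 → ℝ, (∀ z, c (y z) → W z = κ z) → (∀ z, ¬ c (y z) → W z = k0 z) →
      W 1 = W 0 := by
    intro c hc hc2 W hW1 hW2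
    have hWpos : ∀ z, 0 < W z := by
      intro z
      by_cases h : c (y z)
      · rw [hW1 z h]; exact hκ.1 z
      · rw [hW2 z h]; exact R.kpos z
    apply cross W hWpos
    intro z
    have n1 := x.norm_pos z
    have n2 := x.norm_pos (σ0 z)
    -- it suffices to compare ratios
    suffices h : (W (σ0 z) * ‖x.v z‖ = W (φ0 z) * ‖x.v (σ0 z)‖ ∧
        W (φ0 (σ0 z)) * ‖x.v z‖ = W z * ‖x.v (σ0 z)‖) ∨
        (W (σ0 z) = W (φ0 (σ0 z)) ∧ W z = W (φ0 z)) by
      rcases h with ⟨h1, h2⟩ | ⟨h1, h2⟩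
      · have : (W (σ0 z) * W z) * (‖x.v z‖ * ‖x.v (σ0 z)‖) =
            (W (φ0 (σ0 z)) * W (φ0 z)) * (‖x.v z‖ * ‖x.v (σ0 z)‖) := by
          linear_combination (W z * ‖x.v (σ0 z)‖) * h1 - (W (φ0 z) * ‖x.v (σ0 z)‖) * h2
        exact mul_right_cancel₀ (mul_pos n1 n2).ne' this
      · rw [h1, h2]
    -- all four corners in the region of `κ`
    have allk : W (σ0 z) = κ (σ0 z) → W (φ0 z) = κ (φ0 z) → W (φ0 (σ0 z)) = κ (φ0 (σ0 z)) →
        W z = κ z → (W (σ0 z) * ‖x.v z‖ = W (φ0 z) * ‖x.v (σ0 z)‖ ∧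
        W (φ0 (σ0 z)) * ‖x.v z‖ = W z * ‖x.v (σ0 z)‖) := by
      intro a1 a2 a3 a4
      rw [a1, a2, a3, a4]
      exact ⟨hk2 z, hk3 z⟩
    have all0 : W (σ0 z) = k0 (σ0 z) → W (φ0 z) = k0 (φ0 z) → W (φ0 (σ0 z)) = k0 (φ0 (σ0 z)) →
        W z = k0 z → (W (σ0 z) = W (φ0 (σ0 z)) ∧ W z = W (φ0 z)) := by
      intro a1 a2 a3 a4
      rw [a1, a2, a3, a4, hkφ, hkφ]
      exact ⟨rfl, rfl⟩
    have hge : (0 ≤ y z ∧ 0 ≤ y (φ0 z) ∧ 0 ≤ y (σ0 z) ∧ 0 ≤ y (φ0 (σ0 z))) →
        (W (σ0 z) * ‖x.v z‖ = W (φ0 z) * ‖x.v (σ0 z)‖ ∧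
        W (φ0 (σ0 z)) * ‖x.v z‖ = W z * ‖x.v (σ0 z)‖) ∨
        (W (σ0 z) = W (φ0 (σ0 z)) ∧ W z = W (φ0 z)) := by
      rintro ⟨g1, g2, g3, g4⟩
      rcases hc2 with ⟨d1, d2⟩ | ⟨d1, d2⟩
      · exact Or.inl (allk (hW1 _ (d1 _ g3)) (hW1 _ (d1 _ g2)) (hW1 _ (d1 _ g4)) (hW1 _ (d1 _ g1)))
      · have e : ∀ u, 0 ≤ y u → W u = k0 u := by
          intro u hu
          rcases hu.lt_or_eq with h | h
          · exact hW2 u (d2 _ h)
          · rw [hW1 u (d1 _ (by rw [← h])), ty0 u h.symm]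
        exact Or.inr (all0 (e _ g3) (e _ g2) (e _ g4) (e _ g1))
    have hle : (y z ≤ 0 ∧ y (φ0 z) ≤ 0 ∧ y (σ0 z) ≤ 0 ∧ y (φ0 (σ0 z)) ≤ 0) →
        (W (σ0 z) * ‖x.v z‖ = W (φ0 z) * ‖x.v (σ0 z)‖ ∧
        W (φ0 (σ0 z)) * ‖x.v z‖ = W z * ‖x.v (σ0 z)‖) ∨
        (W (σ0 z) = W (φ0 (σ0 z)) ∧ W z = W (φ0 z)) := by
      rintro ⟨g1, g2, g3, g4⟩
      rcases hc2 with ⟨d1, d2⟩ | ⟨d1, d2⟩
      · have e : ∀ u, y u ≤ 0 → W u = k0 u := by
          intro u hu
          rcases hu.lt_or_eq with h | h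
          · exact hW2 u (d2 _ h)
          · rw [hW1 u (d1 _ (by rw [h])), ty0 u h]
        exact Or.inr (all0 (e _ g3) (e _ g2) (e _ g4) (e _ g1))
      · exact Or.inl (allk (hW1 _ (d1 _ g3)) (hW1 _ (d1 _ g2)) (hW1 _ (d1 _ g4)) (hW1 _ (d1 _ g1)))
    rcases hag z with ⟨h1, h2, h3⟩ | h | h
    · left
      constructor
      · have := hc _ _ _ _ n1 n2 h2
        by_cases g : c (y (σ0 z))
        · rw [hW1 _ g, hW1 _ (this.1 g)]; exact hk2 z
        · rw [hW2 _ g, hW2 _ (fun g' => g (this.2 g')), hkφ]; exact h1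
      · have := hc _ _ _ _ n1 n2 h3
        by_cases g : c (y (φ0 (σ0 z)))
        · rw [hW1 _ g, hW1 _ (this.1 g)]; exact hk3 z
        · rw [hW2 _ g, hW2 _ (fun g' => g (this.2 g')), hkφ]; exact h1
    · exact hge h
    · exact hle h
  have sgn : ∀ a b n1 n2 : ℝ, 0 < n1 → 0 < n2 → a * n1 = b * n2 → 0 ≤ a → 0 ≤ b := by
    intro a b n1 n2 h1 h2 h3 h4
    exact nonneg_of_mul_eq h2 h1 h3.symm h4
  have sgn' : ∀ a b n1 n2 : ℝ, 0 < n1 → 0 < n2 → a * n1 = b * n2 → a ≤ 0 → b ≤ 0 := by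
    intro a b n1 n2 h1 h2 h3 h4
    exact nonpos_of_mul_eq h2 h1 h3.symm h4
  let P : Fin 18 → ℝ := fun z => if 0 ≤ y z then κ z else k0 z
  let M : Fin 18 → ℝ := fun z => if y z ≤ 0 then κ z else k0 z
  have hP : P 1 = P 0 := by
    apply gen (fun a => 0 ≤ a)
    · intro a b n1 n2 h1 h2 h3
      exact ⟨sgn a b n1 n2 h1 h2 h3, sgn b a n2 n1 h2 h1 h3.symm⟩
    · exact Or.inl ⟨fun a ha => ha, fun a ha => not_le.2 ha⟩
    · intro z hz; exact if_pos hz
    · intro z hz; exact if_neg hz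
  have hM : M 1 = M 0 := by
    apply gen (fun a => a ≤ 0)
    · intro a b n1 n2 h1 h2 h3
      exact ⟨sgn' a b n1 n2 h1 h2 h3, sgn' b a n2 n1 h2 h1 h3.symm⟩
    · exact Or.inr ⟨fun a ha => ha, fun a ha => not_le.2 ha⟩
    · intro z hz; exact if_pos hz
    · intro z hz; exact if_neg hz
  -- conclusion
  have tnn : ∀ z, 0 ≤ y z → y z = H1 * (κ z - k0 z) := fun z hz => (R.ty z).of_nonneg hH1 hH2 hz
  have tnp : ∀ z, y z ≤ 0 → y z = -(H2 * (κ z - k0 z)) := by
    intro z hz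
    have := (R.ty z).neg.of_nonneg hH2 hH1 (by linarith : 0 ≤ -y z)
    linarith
  have fin : y 1 = y 0 := by
    rcases le_or_gt 0 (y 0) with a | a <;> rcases le_or_gt 0 (y 1) with b | b
    · have e : κ 1 = κ 0 := by
        have := hP; simp only [P, if_pos a, if_pos b] at this; exact this
      rw [tnn _ a, tnn _ b, e, hk01]
    · have e : k0 1 = κ 0 := by
        have := hP; simp only [P, if_pos a, if_neg (not_le.2 b)] at this; exact this
      have y0 : y 0 = 0 := by rw [tnn _ a, ← e, hk01]; ring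
      have e' : κ 1 = κ 0 := by
        have := hM; simp only [M, if_pos y0.le, if_pos b.le] at this; exact this
      have : y 1 = 0 := by rw [tnp _ b.le, e', ← e]; ring
      linarith
    · have e : κ 1 = k0 0 := by
        have := hP; simp only [P, if_neg (not_le.2 a), if_pos b] at this; exact this
      have y1 : y 1 = 0 := by rw [tnn _ b, e, hk01]; ring
      have e' : κ 1 = κ 0 := by
        have := hM; simp only [M, if_pos y1.le, if_pos a.le] at this; exact this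
      have : y 0 = 0 := by rw [tnp _ a.le, ← e', e]; ring
      linarith
    · have e : κ 1 = κ 0 := by
        have := hM; simp only [M, if_pos a.le, if_pos b.le] at this; exact this
      rw [tnp _ a.le, tnp _ b.le, e, hk01]
  linarith

lemma typed_ineq {s H H1' H2' k κa κb ya yb q : ℝ} (hs : 0 < s) (hH : 0 < H) (hq : 0 < q)
    (h1 : 0 < H1') (h2 : 0 < H2') (ta : Typed H1' H2' k ya (q * κa))
    (tb : Typed H1' H2' k yb (q * κb)) (hne : κa ≠ κb) (hy : yb - ya = s * (H * (κb - κa))) :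
    q * H1' ≤ s * H := by
  have tnn : ∀ {y κ : ℝ}, Typed H1' H2' k y κ → 0 ≤ y → y = H1' * (κ - k) :=
    fun t h => t.of_nonneg h1 h2 h
  have tnp : ∀ {y κ : ℝ}, Typed H1' H2' k y κ → y ≤ 0 → y = -(H2' * (κ - k)) := by
    intro y κ t h
    have := t.neg.of_nonneg h2 h1 (by linarith : 0 ≤ -y)
    linarith
  have hsH : 0 < s * H := mul_pos hs hH
  rcases le_total 0 ya with a | a <;> rcases le_total 0 yb with b | b
  · have ea := tnn ta a
    have eb := tnn tb b
    have : (q * H1') * (κb - κa) = (s * H) * (κb - κa) := by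
      rw [ea, eb] at hy; linear_combination hy
    exact (mul_right_cancel₀ (sub_ne_zero.2 hne.symm) this).le
  · -- `ya ≥ 0 ≥ yb`
    have ea := tnn ta a
    have eb := tnp tb b
    have hlt : κb < κa := by
      by_contra hcon
      push Not at hcon
      have hlt : 0 < κb - κa := sub_pos.2 (lt_of_le_of_ne hcon hne)
      have := mul_pos hsH hlt
      nlinarith
    have hb : 0 ≤ q * κb - k := by
      by_contra hcon
      push Not at hcon
      have := mul_neg_of_pos_of_neg h2 hcon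
      linarith
    have : (q * H1') * (κa - κb) ≤ (s * H) * (κa - κb) := by
      have e : (s * H) * (κa - κb) = ya - yb := by linear_combination hy
      rw [e, ea, eb]
      have := mul_nonneg h1.le hb
      have := mul_nonneg h2.le hb
      nlinarith
    exact le_of_mul_le_mul_right this (sub_pos.2 hlt)
  · -- `ya ≤ 0 ≤ yb`
    have ea := tnp ta a
    have eb := tnn tb b
    have hlt : κa < κb := by
      by_contra hcon
      push Not at hcon
      have hlt : 0 < κa - κb := sub_pos.2 (lt_of_le_of_ne hcon hne.symm)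
      have := mul_pos hsH hlt
      nlinarith
    have hb : 0 ≤ q * κa - k := by
      by_contra hcon
      push Not at hcon
      have := mul_neg_of_pos_of_neg h2 hcon
      linarith
    have : (q * H1') * (κb - κa) ≤ (s * H) * (κb - κa) := by
      have e : (s * H) * (κb - κa) = yb - ya := by linear_combination -hy
      rw [e, ea, eb]
      have := mul_nonneg h1.le hb
      have := mul_nonneg h2.le hb
      nlinarith
    exact le_of_mul_le_mul_right this (sub_pos.2 hlt)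
  · have ea := tnp ta a
    have eb := tnp tb b
    exfalso
    have : (q * H2' + s * H) * (κb - κa) = 0 := by
      rw [ea, eb] at hy; linear_combination -hy
    rcases mul_eq_zero.1 this with h | h
    · have := mul_pos hq h2; linarith
    · exact hne (by linarith)

/-- Comparison of an arbitrary structure with the standard one. -/
theorem compare {x : Surf 18} {κ : Fin 18 → ℝ} {ω : ℂ →ₗ[ℝ] ℝ} {H1 H2 : ℝ}
    (S : Std x κ ω H1 H2) {q : ℝ} (hq : 0 < q) {ω' : ℂ →ₗ[ℝ] ℝ} {H1' H2' : ℝ}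
    (h1' : 0 < H1') (h2' : 0 < H2') (hω' : ω' ≠ 0)
    (hR : HasR x (fun h => q * κ h) ω' H1' H2') :
    ∃ s : ℝ, ω' = s • ω ∧ ((0 < s ∧ q * H1' ≤ s * H1 ∧ q * H2' ≤ s * H2) ∨
      (s < 0 ∧ q * H2' ≤ -s * H1 ∧ q * H1' ≤ -s * H2)) := by
  obtain ⟨y, k0, R⟩ := hR
  have hκ' : ScaleOn x (fun h => q * κ h) := by
    refine ⟨fun h => mul_pos hq (S.hκ.1 h), fun h => ?_⟩
    linear_combination q * S.hκ.2 h
  have w0' : ω' (x.v 0) = 0 := w0_of_RS S.hσ S.hφ hκ' h1' h2' R
  have hcr : 0 < cr (x.v 0) (x.v 1) := by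
    have := x.pos 0; rw [cr_eq, S.hφ] at this; exact this
  have hw1 : ω (x.v 1) ≠ 0 := by
    rw [S.w1]
    exact mul_ne_zero S.p1.ne' (sub_ne_zero.2 S.k1.symm)
  have form : ∀ η : ℂ →ₗ[ℝ] ℝ, η (x.v 0) = 0 → ∀ z,
      cr (x.v 0) (x.v 1) * η z = cr (x.v 0) z * η (x.v 1) := by
    intro η hη z
    have := congrArg η (cr_identity z (x.v 0) (x.v 1))
    rw [map_add, omega_smul, omega_smul, omega_smul, hη] at this
    linarith
  set s := ω' (x.v 1) / ω (x.v 1) with hs
  have hsω : ω' = s • ω := by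
    apply LinearMap.ext
    intro z
    rw [LinearMap.smul_apply, smul_eq_mul]
    have e1 := form ω S.w0 z
    have e2 := form ω' w0' z
    apply mul_left_cancel₀ hcr.ne'
    rw [e2, hs]
    field_simp
    linear_combination -ω' (x.v 1) * e1
  have hs0 : s ≠ 0 := by
    intro h
    apply hω'
    rw [hsω, h, zero_smul]
  refine ⟨s, hsω, ?_⟩
  have hy1 : y 2 - y 1 = s * (H1 * (κ 2 - κ 1)) := by
    have := R.yφ 1
    rw [S.hφ, hsω, LinearMap.smul_apply, smul_eq_mul, S.w1] at this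
    have e : φ0 1 = 2 := rfl
    rw [e] at this
    linarith
  have hy10 : y 11 - y 10 = -(s * (H2 * (κ 11 - κ 10))) := by
    have := R.yφ 10
    rw [S.hφ, hsω, LinearMap.smul_apply, smul_eq_mul, S.w10] at this
    have e : φ0 10 = 11 := rfl
    rw [e] at this
    linarith
  have hk1 : k0 2 = k0 1 := by
    have := R.kφ 1; rw [S.hφ] at this; exact this
  have hk10 : k0 11 = k0 10 := by
    have := R.kφ 10; rw [S.hφ] at this; exact this
  have t1 := R.ty 1
  have t2 := R.ty 2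
  have t10 := R.ty 10
  have t11 := R.ty 11
  rw [hk1] at t2
  rw [hk10] at t11
  rcases lt_or_gt_of_ne hs0 with hneg | hpos
  · right
    refine ⟨hneg, ?_, ?_⟩
    · exact typed_ineq (by linarith : 0 < -s) S.p1 hq h2' h1' t1.neg t2.neg S.k1
        (by linear_combination -hy1)
    · exact typed_ineq (by linarith : 0 < -s) S.p2 hq h1' h2' t10 t11 S.k10
        (by linear_combination hy10)
  · left
    refine ⟨hpos, ?_, ?_⟩
    · exact typed_ineq hpos S.p1 hq h1' h2' t1 t2 S.k1 hy1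
    · exact typed_ineq hpos S.p2 hq h2' h1' t10.neg t11.neg S.k10 (by linear_combination -hy10)

/-- Corresponding surfaces have the same invariant. -/
theorem final_ratio {x y : Surf 18} {κ κy κ' : Fin 18 → ℝ} {ω ωy : ℂ →ₗ[ℝ] ℝ} {H1 H2 G1 G2 : ℝ}
    (S : Std x κ ω H1 H2) (T : Std y κy ωy G1 G2) (r : RelG x κ y κ') :
    H1 * G2 = H2 * G1 ∨ H1 * G1 = H2 * G2 := by
  obtain ⟨_, r2, L, hL⟩ := r
  obtain ⟨q, hq, rfl⟩ := scale_unique T.hσ T.hφ T.hκ r2
  have hne : ∀ {x : Surf 18} {κ ω H1 H2}, Std x κ ω H1 H2 → ω ≠ 0 := by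
    intro x κ ω H1 H2 S h
    have := S.w1
    rw [h, LinearMap.zero_apply] at this
    exact mul_ne_zero S.p1.ne' (sub_ne_zero.2 S.k1.symm) this.symm
  -- first comparison
  have a1 : HasR y (fun h => q * κy h) (ω ∘ₗ L.toLinearMap) H1 H2 := by
    have := (hL ω H1 H2 1 S.p1 S.p2 one_pos).1 (by simpa using S.hR)
    simpa using this
  have hω1 : ω ∘ₗ L.toLinearMap ≠ 0 := by
    intro h
    apply hne S
    apply LinearMap.ext
    intro z
    have := LinearMap.congr_fun h (L.symm z)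
    simpa using this
  obtain ⟨s, hs, hs'⟩ := compare T hq S.p1 S.p2 hω1 a1
  -- second comparison
  have a2 : HasR x (fun h => q⁻¹ * κ h) (ωy ∘ₗ L.symm.toLinearMap) G1 G2 := by
    refine (hL _ G1 G2 q⁻¹ T.p1 T.p2 (inv_pos.2 hq)).2 ?_
    have e1 : (ωy ∘ₗ L.symm.toLinearMap) ∘ₗ L.toLinearMap = ωy := by
      apply LinearMap.ext; intro z; simp
    have e2 : (fun h => q⁻¹ * (fun z => q * κy z) h) = κy := by
      funext h
      have := hq.ne'
      simp only
      field_simp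
    rw [e1, e2]
    exact T.hR
  have hω2 : ωy ∘ₗ L.symm.toLinearMap ≠ 0 := by
    intro h
    apply hne T
    apply LinearMap.ext
    intro z
    have := LinearMap.congr_fun h (L z)
    simpa using this
  obtain ⟨s', ht, ht'⟩ := compare S (inv_pos.2 hq) T.p1 T.p2 hω2 a2
  have hss : s * s' = 1 := by
    obtain ⟨z, hz⟩ : ∃ z, ω z ≠ 0 := by
      by_contra hcon
      push Not at hcon
      exact hne S (LinearMap.ext hcon)
    have b1 : ω z = s * ωy (L.symm z) := by
      have := LinearMap.congr_fun hs (L.symm z)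
      simpa using this
    have b2 : ωy (L.symm z) = s' * ω z := by
      have := LinearMap.congr_fun ht z
      simpa using this
    rw [b2] at b1
    apply mul_right_cancel₀ hz
    linear_combination -b1
  have hqq : q * q⁻¹ = 1 := mul_inv_cancel₀ hq.ne'
  have hG1 := T.p1
  have hG2 := T.p2
  have hH1 := S.p1
  have hH2 := S.p2
  rcases hs' with ⟨s0, c1, c2⟩ | ⟨s0, c1, c2⟩
  · left
    rcases ht' with ⟨t0, d1, d2⟩ | ⟨t0, d1, d2⟩
    · have f1 : s * G1 ≤ q * H1 := by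
        have := mul_le_mul_of_nonneg_left d1 (mul_pos s0 hq).le
        have e1 : s * q * (q⁻¹ * G1) = s * G1 := by linear_combination (s * G1) * hqq
        have e2 : s * q * (s' * H1) = q * H1 := by linear_combination (q * H1) * hss
        linarith
      have f2 : s * G2 ≤ q * H2 := by
        have := mul_le_mul_of_nonneg_left d2 (mul_pos s0 hq).le
        have e1 : s * q * (q⁻¹ * G2) = s * G2 := by linear_combination (s * G2) * hqq
        have e2 : s * q * (s' * H2) = q * H2 := by linear_combination (q * H2) * hss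
        linarith
      have g1 : q * H1 = s * G1 := le_antisymm c1 f1
      have g2 : q * H2 = s * G2 := le_antisymm c2 f2
      apply mul_left_cancel₀ hq.ne'
      linear_combination G2 * g1 - G1 * g2
    · exfalso
      have := mul_neg_of_pos_of_neg s0 t0
      linarith
  · right
    rcases ht' with ⟨t0, d1, d2⟩ | ⟨t0, d1, d2⟩
    · exfalso
      have := mul_neg_of_neg_of_pos s0 t0
      linarith
    · have hsq : 0 < -s * q := mul_pos (by linarith) hq
      have f1 : -s * G2 ≤ q * H1 := by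
        have := mul_le_mul_of_nonneg_left d1 hsq.le
        have e1 : -s * q * (q⁻¹ * G2) = -s * G2 := by linear_combination (-s * G2) * hqq
        have e2 : -s * q * (-s' * H1) = q * H1 := by linear_combination (q * H1) * hss
        linarith
      have f2 : -s * G1 ≤ q * H2 := by
        have := mul_le_mul_of_nonneg_left d2 hsq.le
        have e1 : -s * q * (q⁻¹ * G1) = -s * G1 := by linear_combination (-s * G1) * hqq
        have e2 : -s * q * (-s' * H2) = q * H2 := by linear_combination (q * H2) * hss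
        linarith
      have g1 : q * H2 = -s * G1 := le_antisymm c1 f2
      have g2 : q * H1 = -s * G2 := le_antisymm c2 f1
      apply mul_left_cancel₀ hq.ne'
      linear_combination G1 * g2 - G2 * g1

end

end Pool.Agent.W729.Dil
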