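import Pool.Agent.W729.D8

/-!
The standard structure of surfaces near the example.
-/

set_option autoImplicit false

namespace Pool.Agent.W729.Dil

noncomputable section

open Topology Filter

/-- the height form -/
def crL (z : ℂ) : ℂ →ₗ[ℝ] ℝ where
  toFun := cr z
  map_add' := by intro a b; simp [cr]; ring
  map_smul' := by intro r a; simp [cr]; ring

lemma crL_apply (z w : ℂ) : crL z w = cr z w := rfl

/-- heights on a torus with one hole -/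
lemma half {l n w1 w2 w3 w4 w5 w6 w7 w8 H : ℝ} (hn : 1 < n) (c0 : w1 + w2 = 0)
    (c1 : w3 + w4 + w5 = 0) (c2 : w6 + w7 + w8 = 0) (g1 : w2 = -w3) (g2 : w4 = -w8)
    (g3 : w7 = -l * w1) (g4 : w6 = -n * w5) (hH : H * (n - 1) = w1) :
    w2 = H * (1 - n) ∧ w3 = H * (n - 1) ∧ w4 = H * (l - n) ∧ w5 = H * (1 - l) ∧
      w6 = H * (l * n - n) ∧ w7 = H * (l - l * n) ∧ w8 = H * (n - l) := by
  have a2 : w2 = -w1 := by linarith
  have a3 : w3 = w1 := by linarith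
  have a5 : w5 = -w1 - w4 := by linarith
  have a8 : w8 = -w4 := by linarith
  have a6 : w6 = n * (w1 + w4) := by rw [g4, a5]; ring
  rw [a6, g3, a8] at c2
  have h4 : w4 = H * (l - n) := by
    have h : (n - 1) * w4 = (n - 1) * (H * (l - n)) := by
      linear_combination c2 - (l - n) * hH
    exact mul_left_cancel₀ (by linarith : n - 1 ≠ 0) h
  refine ⟨?_, ?_, h4, ?_, ?_, ?_, ?_⟩
  · rw [a2, ← hH]; ring
  · rw [a3, ← hH]
  · rw [a5, h4, ← hH]; ring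
  · rw [a6, h4, ← hH]; ring
  · rw [g3, ← hH]; ring
  · rw [a8, h4]; ring

lemma forall18 {P : Fin 18 → Prop} (h0 : P 0) (h1 : P 1) (h2 : P 2) (h3 : P 3) (h4 : P 4) (h5 : P 5) (h6 : P 6) (h7 : P 7) (h8 : P 8) (h9 : P 9) (h10 : P 10) (h11 : P 11) (h12 : P 12) (h13 : P 13) (h14 : P 14) (h15 : P 15) (h16 : P 16) (h17 : P 17) : ∀ h, P h := by
  intro h
  fin_cases h <;> assumption

/-- the normalised scales -/
def κN (l1 n1 l2 n2 : ℝ) : Fin 18 → ℝ :=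
  ![1, 1, n1, 1, n1, l1, n1, l1 * n1, l1, 1, 1, n2, 1, n2, l2, n2, l2 * n2, l2]

/-- the normalised heights -/
def yN (l1 n1 l2 n2 H1 H2 : ℝ) : Fin 18 → ℝ :=
  ![0,
    0,
    H1 * (n1 - 1),
    0,
    H1 * (n1 - 1),
    H1 * (l1 - 1),
    H1 * (n1 - 1),
    H1 * (l1 * n1 - 1),
    H1 * (l1 - 1),
    0,
    0,
    -(H2 * (n2 - 1)),
    0,
    -(H2 * (n2 - 1)),
    -(H2 * (l2 - 1)),
    -(H2 * (n2 - 1)),
    -(H2 * (l2 * n2 - 1)),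
    -(H2 * (l2 - 1))]

lemma sv0 : σ0 0 = 9 := rfl
lemma sv1 : σ0 1 = 7 := rfl
lemma sv2 : σ0 2 = 3 := rfl
lemma sv3 : σ0 3 = 2 := rfl
lemma sv4 : σ0 4 = 8 := rfl
lemma sv5 : σ0 5 = 6 := rfl
lemma sv6 : σ0 6 = 5 := rfl
lemma sv7 : σ0 7 = 1 := rfl
lemma sv8 : σ0 8 = 4 := rfl
lemma sv9 : σ0 9 = 0 := rfl
lemma sv10 : σ0 10 = 16 := rfl
lemma sv11 : σ0 11 = 12 := rfl
lemma sv12 : σ0 12 = 11 := rfl
lemma sv13 : σ0 13 = 17 := rfl
lemma sv14 : σ0 14 = 15 := rfl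
lemma sv15 : σ0 15 = 14 := rfl
lemma sv16 : σ0 16 = 10 := rfl
lemma sv17 : σ0 17 = 13 := rfl
lemma fv0 : φ0 0 = 1 := rfl
lemma fv1 : φ0 1 = 2 := rfl
lemma fv2 : φ0 2 = 0 := rfl
lemma fv3 : φ0 3 = 4 := rfl
lemma fv4 : φ0 4 = 5 := rfl
lemma fv5 : φ0 5 = 3 := rfl
lemma fv6 : φ0 6 = 7 := rfl
lemma fv7 : φ0 7 = 8 := rfl
lemma fv8 : φ0 8 = 6 := rfl
lemma fv9 : φ0 9 = 10 := rfl
lemma fv10 : φ0 10 = 11 := rfl
lemma fv11 : φ0 11 = 9 := rfl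
lemma fv12 : φ0 12 = 13 := rfl
lemma fv13 : φ0 13 = 14 := rfl
lemma fv14 : φ0 14 = 12 := rfl
lemma fv15 : φ0 15 = 16 := rfl
lemma fv16 : φ0 16 = 17 := rfl
lemma fv17 : φ0 17 = 15 := rfl
lemma kv0 (l1 n1 l2 n2 : ℝ) : κN l1 n1 l2 n2 0 = 1 := rfl
lemma kv1 (l1 n1 l2 n2 : ℝ) : κN l1 n1 l2 n2 1 = 1 := rfl
lemma kv2 (l1 n1 l2 n2 : ℝ) : κN l1 n1 l2 n2 2 = n1 := rfl
lemma kv3 (l1 n1 l2 n2 : ℝ) : κN l1 n1 l2 n2 3 = 1 := rfl
lemma kv4 (l1 n1 l2 n2 : ℝ) : κN l1 n1 l2 n2 4 = n1 := rfl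
lemma kv5 (l1 n1 l2 n2 : ℝ) : κN l1 n1 l2 n2 5 = l1 := rfl
lemma kv6 (l1 n1 l2 n2 : ℝ) : κN l1 n1 l2 n2 6 = n1 := rfl
lemma kv7 (l1 n1 l2 n2 : ℝ) : κN l1 n1 l2 n2 7 = l1 * n1 := rfl
lemma kv8 (l1 n1 l2 n2 : ℝ) : κN l1 n1 l2 n2 8 = l1 := rfl
lemma kv9 (l1 n1 l2 n2 : ℝ) : κN l1 n1 l2 n2 9 = 1 := rfl
lemma kv10 (l1 n1 l2 n2 : ℝ) : κN l1 n1 l2 n2 10 = 1 := rfl
lemma kv11 (l1 n1 l2 n2 : ℝ) : κN l1 n1 l2 n2 11 = n2 := rfl
lemma kv12 (l1 n1 l2 n2 : ℝ) : κN l1 n1 l2 n2 12 = 1 := rfl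
lemma kv13 (l1 n1 l2 n2 : ℝ) : κN l1 n1 l2 n2 13 = n2 := rfl
lemma kv14 (l1 n1 l2 n2 : ℝ) : κN l1 n1 l2 n2 14 = l2 := rfl
lemma kv15 (l1 n1 l2 n2 : ℝ) : κN l1 n1 l2 n2 15 = n2 := rfl
lemma kv16 (l1 n1 l2 n2 : ℝ) : κN l1 n1 l2 n2 16 = l2 * n2 := rfl
lemma kv17 (l1 n1 l2 n2 : ℝ) : κN l1 n1 l2 n2 17 = l2 := rfl
lemma yv0 (l1 n1 l2 n2 H1 H2 : ℝ) : yN l1 n1 l2 n2 H1 H2 0 = 0 := rfl
lemma yv1 (l1 n1 l2 n2 H1 H2 : ℝ) : yN l1 n1 l2 n2 H1 H2 1 = 0 := rfl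
lemma yv2 (l1 n1 l2 n2 H1 H2 : ℝ) : yN l1 n1 l2 n2 H1 H2 2 = H1 * (n1 - 1) := rfl
lemma yv3 (l1 n1 l2 n2 H1 H2 : ℝ) : yN l1 n1 l2 n2 H1 H2 3 = 0 := rfl
lemma yv4 (l1 n1 l2 n2 H1 H2 : ℝ) : yN l1 n1 l2 n2 H1 H2 4 = H1 * (n1 - 1) := rfl
lemma yv5 (l1 n1 l2 n2 H1 H2 : ℝ) : yN l1 n1 l2 n2 H1 H2 5 = H1 * (l1 - 1) := rfl
lemma yv6 (l1 n1 l2 n2 H1 H2 : ℝ) : yN l1 n1 l2 n2 H1 H2 6 = H1 * (n1 - 1) := rfl
lemma yv7 (l1 n1 l2 n2 H1 H2 : ℝ) : yN l1 n1 l2 n2 H1 H2 7 = H1 * (l1 * n1 - 1) := rfl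
lemma yv8 (l1 n1 l2 n2 H1 H2 : ℝ) : yN l1 n1 l2 n2 H1 H2 8 = H1 * (l1 - 1) := rfl
lemma yv9 (l1 n1 l2 n2 H1 H2 : ℝ) : yN l1 n1 l2 n2 H1 H2 9 = 0 := rfl
lemma yv10 (l1 n1 l2 n2 H1 H2 : ℝ) : yN l1 n1 l2 n2 H1 H2 10 = 0 := rfl
lemma yv11 (l1 n1 l2 n2 H1 H2 : ℝ) : yN l1 n1 l2 n2 H1 H2 11 = -(H2 * (n2 - 1)) := rfl
lemma yv12 (l1 n1 l2 n2 H1 H2 : ℝ) : yN l1 n1 l2 n2 H1 H2 12 = 0 := rfl
lemma yv13 (l1 n1 l2 n2 H1 H2 : ℝ) : yN l1 n1 l2 n2 H1 H2 13 = -(H2 * (n2 - 1)) := rfl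
lemma yv14 (l1 n1 l2 n2 H1 H2 : ℝ) : yN l1 n1 l2 n2 H1 H2 14 = -(H2 * (l2 - 1)) := rfl
lemma yv15 (l1 n1 l2 n2 H1 H2 : ℝ) : yN l1 n1 l2 n2 H1 H2 15 = -(H2 * (n2 - 1)) := rfl
lemma yv16 (l1 n1 l2 n2 H1 H2 : ℝ) : yN l1 n1 l2 n2 H1 H2 16 = -(H2 * (l2 * n2 - 1)) := rfl
lemma yv17 (l1 n1 l2 n2 H1 H2 : ℝ) : yN l1 n1 l2 n2 H1 H2 17 = -(H2 * (l2 - 1)) := rfl

lemma κN_pos {l1 n1 l2 n2 : ℝ} (hl1 : 1 < l1) (hn1 : 1 < n1) (hl2 : 1 < l2) (hn2 : 1 < n2) :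
    ∀ h, 0 < κN l1 n1 l2 n2 h := by
  have hln1 : 1 < l1 * n1 := by nlinarith
  have hln2 : 1 < l2 * n2 := by nlinarith
  apply forall18
  · rw [kv0]; linarith
  · rw [kv1]; linarith
  · rw [kv2]; linarith
  · rw [kv3]; linarith
  · rw [kv4]; linarith
  · rw [kv5]; linarith
  · rw [kv6]; linarith
  · rw [kv7]; linarith
  · rw [kv8]; linarith
  · rw [kv9]; linarith
  · rw [kv10]; linarith
  · rw [kv11]; linarith
  · rw [kv12]; linarith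
  · rw [kv13]; linarith
  · rw [kv14]; linarith
  · rw [kv15]; linarith
  · rw [kv16]; linarith
  · rw [kv17]; linarith

lemma std_of_normalized (x : Surf 18) (hσ : x.σ = σ0) (hφ : x.φ = φ0) {l1 n1 l2 n2 : ℝ}
    (hl1 : 1 < l1) (hn1 : 1 < n1) (hl2 : 1 < l2) (hn2 : 1 < n2)
    (e2 : x.v 2 = -x.v 3) (e4 : x.v 4 = -x.v 8) (e7 : x.v 7 = -(l1 : ℂ) * x.v 1)
    (e6 : x.v 6 = -(n1 : ℂ) * x.v 5) (e0 : x.v 0 = -x.v 9) (e11 : x.v 11 = -x.v 12)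
    (e13 : x.v 13 = -x.v 17) (e16 : x.v 16 = -(l2 : ℂ) * x.v 10)
    (e15 : x.v 15 = -(n2 : ℂ) * x.v 14) :
    Std x (κN l1 n1 l2 n2) (crL (x.v 0)) (cr (x.v 0) (x.v 1) / (n1 - 1))
      (-cr (x.v 0) (x.v 10) / (n2 - 1)) := by
  have hln1 : 1 < l1 * n1 := by nlinarith
  have hln2 : 1 < l2 * n2 := by nlinarith
  have hκpos := κN_pos hl1 hn1 hl2 hn2
  have c0 : x.v 0 + x.v 1 + x.v 2 = 0 := by have := x.closed 0; rwa [hφ] at this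
  have c1 : x.v 3 + x.v 4 + x.v 5 = 0 := by have := x.closed 3; rwa [hφ] at this
  have c2 : x.v 6 + x.v 7 + x.v 8 = 0 := by have := x.closed 6; rwa [hφ] at this
  have c3 : x.v 9 + x.v 10 + x.v 11 = 0 := by have := x.closed 9; rwa [hφ] at this
  have c4 : x.v 12 + x.v 13 + x.v 14 = 0 := by have := x.closed 12; rwa [hφ] at this
  have c5 : x.v 15 + x.v 16 + x.v 17 = 0 := by have := x.closed 15; rwa [hφ] at this
  have p1 : 0 < cr (x.v 0) (x.v 1) := by have := x.pos 0; rwa [cr_eq, hφ] at this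
  have p2 : 0 < -cr (x.v 0) (x.v 10) := by
    have := x.pos 9; rw [cr_eq, hφ] at this
    have e : φ0 9 = 10 := rfl
    rw [e] at this
    rw [e0]
    simp only [cr, Complex.neg_re, Complex.neg_im] at this ⊢
    linarith
  set H1 := cr (x.v 0) (x.v 1) / (n1 - 1) with hH1
  set H2 := -cr (x.v 0) (x.v 10) / (n2 - 1) with hH2
  have q1 : 0 < H1 := div_pos p1 (by linarith)
  have q2 : 0 < H2 := div_pos p2 (by linarith)
  set ω := crL (x.v 0) with hω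
  have ω0 : ω (x.v 0) = 0 := by rw [hω, crL_apply, cr]; ring
  have ω9 : ω (x.v 9) = 0 := by
    have : x.v 9 = -x.v 0 := by rw [e0, neg_neg]
    rw [this, map_neg, ω0, neg_zero]
  have hH1' : H1 * (n1 - 1) = ω (x.v 1) := by
    rw [hH1, hω, crL_apply]
    have : n1 - 1 ≠ 0 := by linarith
    field_simp
  have hH2' : -H2 * (n2 - 1) = ω (x.v 10) := by
    rw [hH2, hω, crL_apply]
    have : n2 - 1 ≠ 0 := by linarith
    field_simp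
  have om : ∀ (t : ℝ) (z : ℂ), ω (-(t : ℂ) * z) = -t * ω z := by
    intro t z
    rw [neg_mul, map_neg, omega_smul]; ring
  -- heights
  obtain ⟨b2, b3, b4, b5, b6, b7, b8⟩ := half (l := l1) (n := n1) (w1 := ω (x.v 1))
    (w2 := ω (x.v 2)) (w3 := ω (x.v 3)) (w4 := ω (x.v 4)) (w5 := ω (x.v 5)) (w6 := ω (x.v 6))
    (w7 := ω (x.v 7)) (w8 := ω (x.v 8)) (H := H1) hn1
    (by have := congrArg ω c0; rw [map_add, map_add, map_zero, ω0] at this; linarith)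
    (by have := congrArg ω c1; rw [map_add, map_add, map_zero] at this; linarith)
    (by have := congrArg ω c2; rw [map_add, map_add, map_zero] at this; linarith)
    (by rw [e2, map_neg]) (by rw [e4, map_neg]) (by rw [e7, om]) (by rw [e6, om]) hH1'
  obtain ⟨d2, d3, d4, d5, d6, d7, d8⟩ := half (l := l2) (n := n2) (w1 := ω (x.v 10))
    (w2 := ω (x.v 11)) (w3 := ω (x.v 12)) (w4 := ω (x.v 13)) (w5 := ω (x.v 14)) (w6 := ω (x.v 15))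
    (w7 := ω (x.v 16)) (w8 := ω (x.v 17)) (H := -H2) hn2
    (by have := congrArg ω c3; rw [map_add, map_add, map_zero, ω9] at this; linarith)
    (by have := congrArg ω c4; rw [map_add, map_add, map_zero] at this; linarith)
    (by have := congrArg ω c5; rw [map_add, map_add, map_zero] at this; linarith)
    (by rw [e11, map_neg]) (by rw [e13, map_neg]) (by rw [e16, om]) (by rw [e15, om]) hH2'
  -- norms
  have nm : ∀ (t : ℝ), 1 < t → ∀ z : ℂ, ‖-(t : ℂ) * z‖ = t * ‖z‖ := by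
    intro t ht z
    rw [neg_mul, norm_neg, norm_mul, Complex.norm_real, Real.norm_of_nonneg (by linarith)]
  have N2 : ‖x.v 2‖ = ‖x.v 3‖ := by rw [e2, norm_neg]
  have N4 : ‖x.v 4‖ = ‖x.v 8‖ := by rw [e4, norm_neg]
  have N7 : ‖x.v 7‖ = l1 * ‖x.v 1‖ := by rw [e7, nm l1 hl1]
  have N6 : ‖x.v 6‖ = n1 * ‖x.v 5‖ := by rw [e6, nm n1 hn1]
  have N0 : ‖x.v 0‖ = ‖x.v 9‖ := by rw [e0, norm_neg]
  have N11 : ‖x.v 11‖ = ‖x.v 12‖ := by rw [e11, norm_neg]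
  have N13 : ‖x.v 13‖ = ‖x.v 17‖ := by rw [e13, norm_neg]
  have N16 : ‖x.v 16‖ = l2 * ‖x.v 10‖ := by rw [e16, nm l2 hl2]
  have N15 : ‖x.v 15‖ = n2 * ‖x.v 14‖ := by rw [e15, nm n2 hn2]
  have hκ : ScaleOn x (κN l1 n1 l2 n2) := by
    refine ⟨hκpos, ?_⟩
    rw [hσ, hφ]
    apply forall18
    · rw [sv0, fv0, kv9, kv1, N0]; try ring
    · rw [sv1, fv1, kv7, kv2, N7]; try ring
    · rw [sv2, fv2, kv3, kv0, N2]; try ring
    · rw [sv3, fv3, kv2, kv4, N2]; try ring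
    · rw [sv4, fv4, kv8, kv5, N4]; try ring
    · rw [sv5, fv5, kv6, kv3, N6]; try ring
    · rw [sv6, fv6, kv5, kv7, N6]; try ring
    · rw [sv7, fv7, kv1, kv8, N7]; try ring
    · rw [sv8, fv8, kv4, kv6, N4]; try ring
    · rw [sv9, fv9, kv0, kv10, N0]; try ring
    · rw [sv10, fv10, kv16, kv11, N16]; try ring
    · rw [sv11, fv11, kv12, kv9, N11]; try ring
    · rw [sv12, fv12, kv11, kv13, N11]; try ring
    · rw [sv13, fv13, kv17, kv14, N13]; try ring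
    · rw [sv14, fv14, kv15, kv12, N15]; try ring
    · rw [sv15, fv15, kv14, kv16, N15]; try ring
    · rw [sv16, fv16, kv10, kv17, N16]; try ring
    · rw [sv17, fv17, kv13, kv15, N13]; try ring
  have z0 := le_refl (0 : ℝ)
  have u1 : 0 ≤ H1 * (n1 - 1) := by apply mul_nonneg q1.le; linarith
  have u2 : 0 ≤ H1 * (l1 - 1) := by apply mul_nonneg q1.le; linarith
  have u3 : 0 ≤ H1 * (l1 * n1 - 1) := by apply mul_nonneg q1.le; linarith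
  have u4 : -(H2 * (n2 - 1)) ≤ 0 := by
    have := mul_nonneg q2.le (by linarith : (0 : ℝ) ≤ n2 - 1); linarith
  have u5 : -(H2 * (l2 - 1)) ≤ 0 := by
    have := mul_nonneg q2.le (by linarith : (0 : ℝ) ≤ l2 - 1); linarith
  have u6 : -(H2 * (l2 * n2 - 1)) ≤ 0 := by
    have := mul_nonneg q2.le (by linarith : (0 : ℝ) ≤ l2 * n2 - 1); linarith
  refine
    { hσ := hσ, hφ := hφ, hκ := hκ, p1 := q1, p2 := q2, w0 := ω0, w1 := ?_, k1 := ?_,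
      w10 := ?_, k10 := ?_, hR := ⟨yN l1 n1 l2 n2 H1 H2, fun _ => 1, ?_, ?_, ?_, ?_, ?_⟩ }
  · intro h; exact one_pos
  · intro h; rfl
  · rw [hφ]
    apply forall18
    · rw [fv0, yv1, yv0, ω0]; ring
    · rw [fv1, yv2, yv1, ← hH1']; ring
    · rw [fv2, yv0, yv2, b2]; ring
    · rw [fv3, yv4, yv3, b3]; ring
    · rw [fv4, yv5, yv4, b4]; ring
    · rw [fv5, yv3, yv5, b5]; ring
    · rw [fv6, yv7, yv6, b6]; ring
    · rw [fv7, yv8, yv7, b7]; ring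
    · rw [fv8, yv6, yv8, b8]; ring
    · rw [fv9, yv10, yv9, ω9]; ring
    · rw [fv10, yv11, yv10, ← hH2']; ring
    · rw [fv11, yv9, yv11, d2]; ring
    · rw [fv12, yv13, yv12, d3]; ring
    · rw [fv13, yv14, yv13, d4]; ring
    · rw [fv14, yv12, yv14, d5]; ring
    · rw [fv15, yv16, yv15, d6]; ring
    · rw [fv16, yv17, yv16, d7]; ring
    · rw [fv17, yv15, yv17, d8]; ring
  · apply forall18
    · rw [yv0, kv0]; exact Or.inl ⟨z0, by ring⟩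
    · rw [yv1, kv1]; exact Or.inl ⟨z0, by ring⟩
    · rw [yv2, kv2]; exact Or.inl ⟨u1, rfl⟩
    · rw [yv3, kv3]; exact Or.inl ⟨z0, by ring⟩
    · rw [yv4, kv4]; exact Or.inl ⟨u1, rfl⟩
    · rw [yv5, kv5]; exact Or.inl ⟨u2, rfl⟩
    · rw [yv6, kv6]; exact Or.inl ⟨u1, rfl⟩
    · rw [yv7, kv7]; exact Or.inl ⟨u3, rfl⟩
    · rw [yv8, kv8]; exact Or.inl ⟨u2, rfl⟩
    · rw [yv9, kv9]; exact Or.inl ⟨z0, by ring⟩
    · rw [yv10, kv10]; exact Or.inl ⟨z0, by ring⟩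
    · rw [yv11, kv11]; exact Or.inr ⟨u4, rfl⟩
    · rw [yv12, kv12]; exact Or.inl ⟨z0, by ring⟩
    · rw [yv13, kv13]; exact Or.inr ⟨u4, rfl⟩
    · rw [yv14, kv14]; exact Or.inr ⟨u5, rfl⟩
    · rw [yv15, kv15]; exact Or.inr ⟨u4, rfl⟩
    · rw [yv16, kv16]; exact Or.inr ⟨u6, rfl⟩
    · rw [yv17, kv17]; exact Or.inr ⟨u5, rfl⟩
  · rw [hσ, hφ]
    apply forall18
    · rw [sv0, fv0, fv9, yv0, yv1, yv9, yv10]
      exact Or.inr (Or.inl ⟨z0, z0, z0, z0⟩)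
    · rw [sv1, fv1, fv7, yv1, yv2, yv7, yv8]
      exact Or.inr (Or.inl ⟨z0, u1, u3, u2⟩)
    · rw [sv2, fv2, fv3, yv2, yv0, yv3, yv4]
      exact Or.inr (Or.inl ⟨u1, z0, z0, u1⟩)
    · rw [sv3, fv3, fv2, yv3, yv4, yv2, yv0]
      exact Or.inr (Or.inl ⟨z0, u1, u1, z0⟩)
    · rw [sv4, fv4, fv8, yv4, yv5, yv8, yv6]
      exact Or.inr (Or.inl ⟨u1, u2, u2, u1⟩)
    · rw [sv5, fv5, fv6, yv5, yv3, yv6, yv7]
      exact Or.inr (Or.inl ⟨u2, z0, u1, u3⟩)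
    · rw [sv6, fv6, fv5, yv6, yv7, yv5, yv3]
      exact Or.inr (Or.inl ⟨u1, u3, u2, z0⟩)
    · rw [sv7, fv7, fv1, yv7, yv8, yv1, yv2]
      exact Or.inr (Or.inl ⟨u3, u2, z0, u1⟩)
    · rw [sv8, fv8, fv4, yv8, yv6, yv4, yv5]
      exact Or.inr (Or.inl ⟨u2, u1, u1, u2⟩)
    · rw [sv9, fv9, fv0, yv9, yv10, yv0, yv1]
      exact Or.inr (Or.inl ⟨z0, z0, z0, z0⟩)
    · rw [sv10, fv10, fv16, yv10, yv11, yv16, yv17]
      exact Or.inr (Or.inr ⟨z0, u4, u6, u5⟩)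
    · rw [sv11, fv11, fv12, yv11, yv9, yv12, yv13]
      exact Or.inr (Or.inr ⟨u4, z0, z0, u4⟩)
    · rw [sv12, fv12, fv11, yv12, yv13, yv11, yv9]
      exact Or.inr (Or.inr ⟨z0, u4, u4, z0⟩)
    · rw [sv13, fv13, fv17, yv13, yv14, yv17, yv15]
      exact Or.inr (Or.inr ⟨u4, u5, u5, u4⟩)
    · rw [sv14, fv14, fv15, yv14, yv12, yv15, yv16]
      exact Or.inr (Or.inr ⟨u5, z0, u4, u6⟩)
    · rw [sv15, fv15, fv14, yv15, yv16, yv14, yv12]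
      exact Or.inr (Or.inr ⟨u4, u6, u5, z0⟩)
    · rw [sv16, fv16, fv10, yv16, yv17, yv10, yv11]
      exact Or.inr (Or.inr ⟨u6, u5, z0, u4⟩)
    · rw [sv17, fv17, fv13, yv17, yv15, yv13, yv14]
      exact Or.inr (Or.inr ⟨u5, u4, u4, u5⟩)
  · rw [kv1, kv2, hH1']
  · rw [kv1, kv2]; exact hn1.ne
  · rw [kv10, kv11, ← hH2']; ring
  · rw [kv10, kv11]; exact hn2.ne

/-- the ratio of the lengths of the sides of an edge -/
def ρ (x : Surf 18) (h : Fin 18) : ℝ := ‖x.v (σ0 h)‖ / ‖x.v h‖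

lemma ρ_pos (x : Surf 18) (h : Fin 18) : 0 < ρ x h := div_pos (x.norm_pos _) (x.norm_pos _)

lemma continuous_ρ (h : Fin 18) : Continuous fun x : Surf 18 => ρ x h :=
  (continuous_v _).norm.div (continuous_v h).norm (fun x => (x.norm_pos h).ne')

lemma v_σ {x : Surf 18} (hσ : x.σ = σ0) (h : Fin 18) : x.v (σ0 h) = -(ρ x h : ℂ) * x.v h := by
  obtain ⟨r, hr, h1⟩ := x.glue h
  rw [hσ] at h1
  have : ρ x h = r := by
    rw [ρ, h1, neg_mul, norm_neg, norm_mul, Complex.norm_real, Real.norm_of_nonneg hr.le]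
    have := (x.norm_pos h).ne'
    field_simp
  rw [this, h1]

/-- the scales of the normalisation -/
def mN (x : Surf 18) : Fin 18 → ℝ :=
  ![1,
    1,
    1,
    ρ x 3,
    ρ x 3,
    ρ x 3,
    ρ x 3 * ρ x 8,
    ρ x 3 * ρ x 8,
    ρ x 3 * ρ x 8,
    ρ x 9,
    ρ x 9,
    ρ x 9,
    ρ x 9 * ρ x 12,
    ρ x 9 * ρ x 12,
    ρ x 9 * ρ x 12,
    ρ x 9 * ρ x 12 * ρ x 17,
    ρ x 9 * ρ x 12 * ρ x 17,
    ρ x 9 * ρ x 12 * ρ x 17]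

lemma mv0 (x : Surf 18) : mN x 0 = 1 := rfl
lemma mv1 (x : Surf 18) : mN x 1 = 1 := rfl
lemma mv2 (x : Surf 18) : mN x 2 = 1 := rfl
lemma mv3 (x : Surf 18) : mN x 3 = ρ x 3 := rfl
lemma mv4 (x : Surf 18) : mN x 4 = ρ x 3 := rfl
lemma mv5 (x : Surf 18) : mN x 5 = ρ x 3 := rfl
lemma mv6 (x : Surf 18) : mN x 6 = ρ x 3 * ρ x 8 := rfl
lemma mv7 (x : Surf 18) : mN x 7 = ρ x 3 * ρ x 8 := rfl
lemma mv8 (x : Surf 18) : mN x 8 = ρ x 3 * ρ x 8 := rfl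
lemma mv9 (x : Surf 18) : mN x 9 = ρ x 9 := rfl
lemma mv10 (x : Surf 18) : mN x 10 = ρ x 9 := rfl
lemma mv11 (x : Surf 18) : mN x 11 = ρ x 9 := rfl
lemma mv12 (x : Surf 18) : mN x 12 = ρ x 9 * ρ x 12 := rfl
lemma mv13 (x : Surf 18) : mN x 13 = ρ x 9 * ρ x 12 := rfl
lemma mv14 (x : Surf 18) : mN x 14 = ρ x 9 * ρ x 12 := rfl
lemma mv15 (x : Surf 18) : mN x 15 = ρ x 9 * ρ x 12 * ρ x 17 := rfl
lemma mv16 (x : Surf 18) : mN x 16 = ρ x 9 * ρ x 12 * ρ x 17 := rfl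
lemma mv17 (x : Surf 18) : mN x 17 = ρ x 9 * ρ x 12 * ρ x 17 := rfl

/-- first ratio -/
def nu1 (x : Surf 18) : ℝ := ρ x 8 * ρ x 5
/-- second ratio -/
def lam1 (x : Surf 18) : ℝ := ρ x 3 * ρ x 8 * ρ x 1
/-- third ratio -/
def nu2 (x : Surf 18) : ℝ := ρ x 17 * ρ x 14
/-- fourth ratio -/
def lam2 (x : Surf 18) : ℝ := ρ x 12 * ρ x 17 * ρ x 10
/-- first height -/
def H1f (x : Surf 18) : ℝ := cr (x.v 0) (x.v 1) / (nu1 x - 1)
/-- second height -/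
def H2f (x : Surf 18) : ℝ := -(ρ x 9 * cr (x.v 0) (x.v 10)) / (nu2 x - 1)

theorem exists_std (x : Surf 18) (hσ : x.σ = σ0) (hφ : x.φ = φ0) (hl1 : 1 < lam1 x)
    (hn1 : 1 < nu1 x) (hl2 : 1 < lam2 x) (hn2 : 1 < nu2 x) :
    ∃ x' κ ω, (sameSurface 18) x' x ∧ Std x' κ ω (H1f x) (H2f x) := by
  have r3 := ρ_pos x 3
  have r8 := ρ_pos x 8
  have r9 := ρ_pos x 9
  have r12 := ρ_pos x 12
  have r17 := ρ_pos x 17
  have hm : ∀ h, 0 < mN x h := by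
    apply forall18
    · rw [mv0]; positivity
    · rw [mv1]; positivity
    · rw [mv2]; positivity
    · rw [mv3]; positivity
    · rw [mv4]; positivity
    · rw [mv5]; positivity
    · rw [mv6]; positivity
    · rw [mv7]; positivity
    · rw [mv8]; positivity
    · rw [mv9]; positivity
    · rw [mv10]; positivity
    · rw [mv11]; positivity
    · rw [mv12]; positivity
    · rw [mv13]; positivity
    · rw [mv14]; positivity
    · rw [mv15]; positivity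
    · rw [mv16]; positivity
    · rw [mv17]; positivity
  have hmφ : ∀ h, mN x (x.φ h) = mN x h := by
    rw [hφ]
    apply forall18
    · rw [fv0, mv0, mv1]
    · rw [fv1, mv1, mv2]
    · rw [fv2, mv2, mv0]
    · rw [fv3, mv3, mv4]
    · rw [fv4, mv4, mv5]
    · rw [fv5, mv5, mv3]
    · rw [fv6, mv6, mv7]
    · rw [fv7, mv7, mv8]
    · rw [fv8, mv8, mv6]
    · rw [fv9, mv9, mv10]
    · rw [fv10, mv10, mv11]
    · rw [fv11, mv11, mv9]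
    · rw [fv12, mv12, mv13]
    · rw [fv13, mv13, mv14]
    · rw [fv14, mv14, mv12]
    · rw [fv15, mv15, mv16]
    · rw [fv16, mv16, mv17]
    · rw [fv17, mv17, mv15]
  obtain ⟨x', e1, e2⟩ := exists_rescale (mN x) x hm hmφ
  have f1 : x'.σ = σ0 := by
    have := congrArg Prod.fst e1; exact this.trans hσ
  have f2 : x'.φ = φ0 := by
    have := congrArg (fun p => p.2.1) e1; exact this.trans hφ
  have f3 : x'.v = fun z => (mN x z : ℂ) * x.v z := by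
    have := congrArg (fun p => p.2.2) e1; exact this
  have g : ∀ z, x'.v z = (mN x z : ℂ) * x.v z := fun z => by rw [f3]
  have s3 : x.v 2 = -(ρ x 3 : ℂ) * x.v 3 := v_σ hσ 3
  have s8 : x.v 4 = -(ρ x 8 : ℂ) * x.v 8 := v_σ hσ 8
  have s1 : x.v 7 = -(ρ x 1 : ℂ) * x.v 1 := v_σ hσ 1
  have s5 : x.v 6 = -(ρ x 5 : ℂ) * x.v 5 := v_σ hσ 5
  have s9 : x.v 0 = -(ρ x 9 : ℂ) * x.v 9 := v_σ hσ 9
  have s12 : x.v 11 = -(ρ x 12 : ℂ) * x.v 12 := v_σ hσ 12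
  have s17 : x.v 13 = -(ρ x 17 : ℂ) * x.v 17 := v_σ hσ 17
  have s10 : x.v 16 = -(ρ x 10 : ℂ) * x.v 10 := v_σ hσ 10
  have s14 : x.v 15 = -(ρ x 14 : ℂ) * x.v 14 := v_σ hσ 14
  have S := std_of_normalized x' f1 f2 hl1 hn1 hl2 hn2
    (by rw [g, g, mv2, mv3, s3]; push_cast; ring)
    (by rw [g, g, mv4, mv8, s8]; push_cast; ring)
    (by rw [g, g, mv7, mv1, s1, lam1]; push_cast; ring)
    (by rw [g, g, mv6, mv5, s5, nu1]; push_cast; ring)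
    (by rw [g, g, mv0, mv9, s9]; push_cast; ring)
    (by rw [g, g, mv11, mv12, s12]; push_cast; ring)
    (by rw [g, g, mv13, mv17, s17]; push_cast; ring)
    (by rw [g, g, mv16, mv10, s10, lam2]; push_cast; ring)
    (by rw [g, g, mv15, mv14, s14, nu2]; push_cast; ring)
  refine ⟨x', κN (lam1 x) (nu1 x) (lam2 x) (nu2 x), crL (x'.v 0),
    (sameSurface 18).symm (same_of_move (Or.inr (Or.inl e2))), ?_⟩
  · have h1 : H1f x = cr (x'.v 0) (x'.v 1) / (nu1 x - 1) := by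
      rw [g, g, mv0, mv1, H1f]; simp
    have h2 : H2f x = -cr (x'.v 0) (x'.v 10) / (nu2 x - 1) := by
      rw [g, g, mv0, mv10, H2f]
      simp only [cr]
      simp
      ring
    rw [h1, h2]
    exact S

lemma ρ_D (s : Set.Ioi (0 : ℝ)) (h : Fin 18) : ρ (Dsurf s) h = rD h := by
  obtain ⟨h1, h2⟩ := glue_D s h
  have e : (Dsurf s).v (σ0 h) = -(rD h : ℂ) * (Dsurf s).v h := h2
  rw [ρ, e, neg_mul, norm_neg, norm_mul, Complex.norm_real, Real.norm_of_nonneg h1.le]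
  have := ((Dsurf s).norm_pos h).ne'
  field_simp

theorem near_std (s : Set.Ioi (0 : ℝ)) {I : Set ℝ} (hI : I ∈ 𝓝 (1 / (s : ℝ))) :
    ∀ᶠ x in 𝓝 (Dsurf s), ∃ x' κ ω H1 H2, (sameSurface 18) x' x ∧ Std x' κ ω H1 H2 ∧
      H1 / H2 ∈ I := by
  have hs : (0 : ℝ) < s := s.2
  have a1 : nu1 (Dsurf s) = 2 := by
    rw [nu1, ρ_D, ρ_D]; show (1 : ℝ) * 2 = 2; norm_num
  have a2 : lam1 (Dsurf s) = 2 := by
    rw [lam1, ρ_D, ρ_D, ρ_D]; show (1 : ℝ) * 1 * 2 = 2; norm_num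
  have a3 : nu2 (Dsurf s) = 2 := by
    rw [nu2, ρ_D, ρ_D]; show (1 : ℝ) * 2 = 2; norm_num
  have a4 : lam2 (Dsurf s) = 2 := by
    rw [lam2, ρ_D, ρ_D, ρ_D]; show (1 : ℝ) * 1 * 2 = 2; norm_num
  have a5 : H1f (Dsurf s) = 1 := by
    rw [H1f, a1]
    show cr ⟨1, 0⟩ ⟨1, 1⟩ / (2 - 1) = 1
    simp [cr]; norm_num
  have a6 : H2f (Dsurf s) = s := by
    rw [H2f, a3, ρ_D]
    show -((1 : ℝ) * cr ⟨1, 0⟩ ⟨-1, -s⟩) / (2 - 1) = s
    simp [cr]; norm_num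
  have c1 : Continuous nu1 := (continuous_ρ 8).mul (continuous_ρ 5)
  have c2 : Continuous lam1 := ((continuous_ρ 3).mul (continuous_ρ 8)).mul (continuous_ρ 1)
  have c3 : Continuous nu2 := (continuous_ρ 17).mul (continuous_ρ 14)
  have c4 : Continuous lam2 := ((continuous_ρ 12).mul (continuous_ρ 17)).mul (continuous_ρ 10)
  have ccr : ∀ a b : Fin 18, Continuous fun x : Surf 18 => cr (x.v a) (x.v b) := by
    intro a b
    have h1 := continuous_v (N := 18) a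
    have h2 := continuous_v (N := 18) b
    exact ((Complex.continuous_re.comp h1).mul (Complex.continuous_im.comp h2)).sub
      ((Complex.continuous_im.comp h1).mul (Complex.continuous_re.comp h2))
  have c5 : ContinuousAt H1f (Dsurf s) := by
    refine ContinuousAt.div (ccr 0 1).continuousAt (c1.sub continuous_const).continuousAt ?_
    rw [a1]; norm_num
  have c6 : ContinuousAt H2f (Dsurf s) := by
    refine ContinuousAt.div (((continuous_ρ 9).mul (ccr 0 10)).neg).continuousAt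
      (c3.sub continuous_const).continuousAt ?_
    rw [a3]; norm_num
  have c7 : ContinuousAt (fun x => H1f x / H2f x) (Dsurf s) := by
    refine c5.div c6 ?_
    rw [a6]; exact hs.ne'
  have b1 : ∀ᶠ x in 𝓝 (Dsurf s), 1 < nu1 x :=
    c1.continuousAt.eventually (lt_mem_nhds (by rw [a1]; norm_num))
  have b2 : ∀ᶠ x in 𝓝 (Dsurf s), 1 < lam1 x :=
    c2.continuousAt.eventually (lt_mem_nhds (by rw [a2]; norm_num))
  have b3 : ∀ᶠ x in 𝓝 (Dsurf s), 1 < nu2 x :=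
    c3.continuousAt.eventually (lt_mem_nhds (by rw [a3]; norm_num))
  have b4 : ∀ᶠ x in 𝓝 (Dsurf s), 1 < lam2 x :=
    c4.continuousAt.eventually (lt_mem_nhds (by rw [a4]; norm_num))
  have b5 : ∀ᶠ x in 𝓝 (Dsurf s), H1f x / H2f x ∈ I := by
    apply c7.eventually
    show ∀ᶠ y in 𝓝 (H1f (Dsurf s) / H2f (Dsurf s)), y ∈ I
    rw [a5, a6]; exact hI
  filter_upwards [b1, b2, b3, b4, b5, eventually_σ (Dsurf s), eventually_φ (Dsurf s)]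
    with x d1 d2 d3 d4 d5 d6 d7
  obtain ⟨x', κ, ω, f1, f2⟩ := exists_std x d6 d7 d2 d1 d4 d3
  exact ⟨x', κ, ω, _, _, f1, f2, d5⟩

/-- The triangulable locus of the stratum of surfaces of genus two with one cone point of angle
`6 π`. -/
abbrev T6 : Set (Moduli (6 * (2 * 2 - 2 + 1))) := triangulableStratum 2 1 (fun _ => 3)

/-- the base point -/
def s1 : Set.Ioi (0 : ℝ) := ⟨1, Set.mem_Ioi.2 one_pos⟩
/-- the other point -/
def s2 : Set.Ioi (0 : ℝ) := ⟨2, Set.mem_Ioi.2 two_pos⟩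

lemma D_mem (s : Set.Ioi (0 : ℝ)) : (Dsurf s).toModuli ∈ T6 := ⟨Dsurf s, rfl, coneAngles_D s⟩

lemma D_comp (s : Set.Ioi (0 : ℝ)) :
    (Dsurf s).toModuli ∈ connectedComponentIn T6 (Dsurf s1).toModuli := by
  have hc : Continuous fun s : Set.Ioi (0 : ℝ) => (Dsurf s).toModuli :=
    continuous_quotient_mk'.comp continuous_Dsurf
  have : PreconnectedSpace (Set.Ioi (0 : ℝ)) := Subtype.preconnectedSpace isPreconnected_Ioi
  have hp : IsPreconnected (Set.range fun s : Set.Ioi (0 : ℝ) => (Dsurf s).toModuli) :=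
    isPreconnected_range hc
  have hsub : (Set.range fun s : Set.Ioi (0 : ℝ) => (Dsurf s).toModuli) ⊆ T6 := by
    rintro _ ⟨s, rfl⟩; exact D_mem s
  exact hp.subset_connectedComponentIn ⟨s1, rfl⟩ hsub ⟨s, rfl⟩

theorem no_dense (Y : Moduli 18) :
    ¬ (connectedComponentIn T6 (Dsurf s1).toModuli ⊆ closure (orbit Y)) := by
  intro hY
  have h1 := hY (D_comp s1)
  have h2 := hY (D_comp s2)
  obtain ⟨x, ⟨x', κ, ω, H1, H2, e1, S, r1⟩, m1⟩ := exists_near h1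
    (near_std s1 (I := Set.Ioo (9 / 10) (11 / 10)) (Ioo_mem_nhds (by simp [s1]; norm_num)
      (by simp [s1]; norm_num)))
  obtain ⟨y, ⟨y', κy, ωy, G1, G2, e2, T, r2⟩, m2⟩ := exists_near h2
    (near_std s2 (I := Set.Ioo (4 / 10) (6 / 10)) (Ioo_mem_nhds (by simp [s2]; norm_num)
      (by simp [s2]; norm_num)))
  have m1' : x'.toModuli ∈ orbit Y := by
    have : x'.toModuli = x.toModuli := Quotient.sound e1
    rw [this]; exact m1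
  have m2' : y'.toModuli ∈ orbit Y := by
    have : y'.toModuli = y.toModuli := Quotient.sound e2
    rw [this]; exact m2
  obtain ⟨κ', R⟩ := relG_of_orbit m1' m2' S.hκ
  have hH2 := S.p2
  have hG2 := T.p2
  have hH1 := S.p1
  have hG1 := T.p1
  obtain ⟨a1, a2⟩ := r1
  obtain ⟨a3, a4⟩ := r2
  rw [lt_div_iff₀ hH2] at a1
  rw [div_lt_iff₀ hH2] at a2
  rw [lt_div_iff₀ hG2] at a3
  rw [div_lt_iff₀ hG2] at a4
  rcases final_ratio S T R with h | h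
  · have k1 := mul_lt_mul_of_pos_right a1 hG2
    have k2 := mul_lt_mul_of_pos_left a4 hH2
    nlinarith
  · have k1 := mul_lt_mul_of_pos_right a1 hG1
    have k2 := mul_lt_mul_of_pos_left a4 hH2
    nlinarith [mul_pos hH2 hG2, mul_pos hH2 hG1]

end

end Pool.Agent.W729.Dil
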