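import Mathlib

/-!
Series of exponentials on the unit ball: basic estimates.
-/

set_option autoImplicit false

namespace Pool.Agent.W729.NB

open Metric Set Filter Topology

noncomputable section

variable {n : ℕ}

/-- the coefficient `(1/2)^(k^2)` -/
def cf (k : ℕ) : ℝ := (1 / 2) ^ (k ^ 2)

lemma cf_pos (k : ℕ) : 0 < cf k := by unfold cf; positivity

lemma cf_bound (s k : ℕ) : cf k * (2 ^ k) ^ s ≤ 2 ^ ((s + 1) ^ 2) * (1 / 2 : ℝ) ^ k := by
  unfold cf
  rw [one_div_pow, one_div_pow, ← pow_mul, one_div_mul_eq_div, mul_one_div, div_le_div_iff₀ (by positivity) (by positivity),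
    ← pow_add, ← pow_add]
  apply pow_le_pow_right₀ (by norm_num)
  nlinarith [sq_nonneg ((k : ℤ) - (s + 1)), Nat.zero_le k, sq_nonneg ((k:ℤ)), two_mul_le_add_sq k (s+1)]

/-- the summable majorant for the `s`-th derivatives -/
def maj (s k : ℕ) : ℝ := 2 ^ ((s + 1) ^ 2) * (1 / 2 : ℝ) ^ k

lemma summable_maj (s : ℕ) : Summable (maj s) := by
  unfold maj
  exact (summable_geometric_of_lt_one (by norm_num) (by norm_num)).mul_left _

lemma cf_le_maj (s k : ℕ) : cf k * (2 ^ k) ^ s ≤ maj s k := cf_bound s k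

end

end Pool.Agent.W729.NB
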