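import Pool.Agent.W729.NB1

set_option autoImplicit false

namespace Pool.Agent.W729.NB

open Metric Set Filter Topology

noncomputable section

variable {n : ℕ}

/-- `0/1` weights -/
def wt (b : Bool) : ℂ := if b then 1 else 0

lemma norm_wt_le (b : Bool) : ‖wt b‖ ≤ 1 := by cases b <;> simp [wt]

/-- one variable exponential -/
def ex (k : ℕ) (w : ℂ) : ℂ := (cf k : ℂ) * Complex.exp (2 ^ k * (w - 1))

lemma hasDerivAt_ex (c : ℂ) (k : ℕ) (w : ℂ) :
    HasDerivAt (fun w => c * Complex.exp (2 ^ k * (w - 1))) ((c * 2 ^ k) * Complex.exp (2 ^ k * (w - 1))) w := by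
  have h : HasDerivAt (fun w : ℂ => (2:ℂ) ^ k * (w - 1)) (2 ^ k) w := by
    simpa using ((hasDerivAt_id w).sub_const 1).const_mul ((2:ℂ) ^ k)
  have := (h.cexp).const_mul c
  refine this.congr_deriv ?_
  ring

lemma iteratedDeriv_ex (c : ℂ) (k s : ℕ) :
    iteratedDeriv s (fun w => c * Complex.exp (2 ^ k * (w - 1))) =
      fun w => (c * (2 ^ k) ^ s) * Complex.exp (2 ^ k * (w - 1)) := by
  induction s with
  | zero => simp
  | succ s ih =>
    rw [iteratedDeriv_succ, ih]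
    ext w
    rw [(hasDerivAt_ex _ k w).deriv]
    ring

lemma contDiff_ex (c : ℂ) (k : ℕ) {m : WithTop ℕ∞} :
    ContDiff ℂ m (fun w : ℂ => c * Complex.exp (2 ^ k * (w - 1))) := by
  fun_prop

/-- the `k`-th term of the series -/
def tm (u : ℕ → EuclideanSpace ℂ (Fin n)) (x : ℕ → Bool) (k : ℕ) (z : EuclideanSpace ℂ (Fin n)) : ℂ :=
  (wt (x k) * cf k) * Complex.exp (2 ^ k * (inner ℂ (u k) z - 1))

lemma contDiff_tm (u : ℕ → EuclideanSpace ℂ (Fin n)) (x : ℕ → Bool) (k : ℕ) {m : WithTop ℕ∞} :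
    ContDiff ℂ m (tm u x k) := by
  have : tm u x k = (fun w : ℂ => (wt (x k) * cf k) * Complex.exp (2 ^ k * (w - 1))) ∘
      (innerSL ℂ (u k)) := by
    ext z; simp [tm]
  rw [this]
  exact (contDiff_ex _ k).comp (innerSL ℂ (u k)).contDiff

lemma norm_exp_le {k : ℕ} {w : ℂ} (hw : w.re ≤ 1) : ‖Complex.exp (2 ^ k * (w - 1))‖ ≤ 1 := by
  rw [Complex.norm_exp]
  rw [Real.exp_le_one_iff]
  have : ((2:ℂ) ^ k * (w - 1)).re = 2 ^ k * (w.re - 1) := by
    have h2 : ((2:ℂ) ^ k) = (((2:ℝ) ^ k : ℝ) : ℂ) := by push_cast; rfl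
    rw [h2, Complex.re_ofReal_mul]; simp
  rw [this]
  have : (0:ℝ) < 2 ^ k := by positivity
  nlinarith

lemma re_inner_le {a z : EuclideanSpace ℂ (Fin n)} (ha : ‖a‖ ≤ 1) (hz : ‖z‖ ≤ 1) :
    (inner ℂ a z : ℂ).re ≤ 1 := by
  calc (inner ℂ a z : ℂ).re ≤ ‖(inner ℂ a z : ℂ)‖ := Complex.re_le_norm _
    _ ≤ ‖a‖ * ‖z‖ := norm_inner_le_norm _ _
    _ ≤ 1 * 1 := by gcongr
    _ = 1 := by norm_num

lemma norm_cf (k : ℕ) : ‖(cf k : ℂ)‖ = cf k := by
  rw [Complex.norm_real, Real.norm_of_nonneg (cf_pos k).le]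

lemma norm_iteratedFDeriv_tm_le {u : ℕ → EuclideanSpace ℂ (Fin n)} (hu : ∀ k, ‖u k‖ ≤ 1)
    (x : ℕ → Bool) (k s : ℕ) {z : EuclideanSpace ℂ (Fin n)} (hz : ‖z‖ ≤ 1) :
    ‖iteratedFDeriv ℂ s (tm u x k) z‖ ≤ maj s k := by
  have h0 : tm u x k = (fun w : ℂ => (wt (x k) * cf k) * Complex.exp (2 ^ k * (w - 1))) ∘
      (innerSL ℂ (u k)) := by
    ext z; simp [tm]
  rw [h0, ContinuousLinearMap.iteratedFDeriv_comp_right (n := s) (innerSL ℂ (u k)) (contDiff_ex _ k) z le_rfl]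
  refine (ContinuousMultilinearMap.norm_compContinuousLinearMap_le _ _).trans ?_
  rw [norm_iteratedFDeriv_eq_norm_iteratedDeriv, iteratedDeriv_ex]
  have h1 : ∏ _i : Fin s, ‖innerSL ℂ (u k)‖ ≤ 1 := by
    apply Finset.prod_le_one
    · intro i _; positivity
    · intro i _; rw [innerSL_apply_norm]; exact hu k
  have h2 : ‖wt (x k) * (cf k : ℂ) * (2 ^ k) ^ s * Complex.exp (2 ^ k * ((innerSL ℂ (u k)) z - 1))‖
      ≤ cf k * (2 ^ k) ^ s := by
    rw [norm_mul, norm_mul, norm_mul, norm_cf]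
    have e1 := norm_wt_le (x k)
    have e2 : ‖Complex.exp (2 ^ k * ((innerSL ℂ (u k)) z - 1))‖ ≤ 1 :=
      norm_exp_le (by simpa using re_inner_le (hu k) hz)
    have e3 : ‖((2:ℂ) ^ k) ^ s‖ = (2 ^ k) ^ s := by simp
    rw [e3]
    have e4 := (cf_pos k).le
    calc ‖wt (x k)‖ * cf k * (2 ^ k) ^ s * ‖Complex.exp (2 ^ k * ((innerSL ℂ (u k)) z - 1))‖
        ≤ 1 * cf k * (2 ^ k) ^ s * 1 := by gcongr
      _ = _ := by ring
  have h3 : 0 ≤ cf k * (2 ^ k) ^ s := mul_nonneg (cf_pos k).le (by positivity)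
  calc _ ≤ cf k * (2 ^ k) ^ s * 1 := mul_le_mul h2 h1 (by positivity) h3
    _ ≤ maj s k := by rw [mul_one]; exact cf_le_maj s k

/-- the sum of the series -/
def fn (u : ℕ → EuclideanSpace ℂ (Fin n)) (x : ℕ → Bool) (z : EuclideanSpace ℂ (Fin n)) : ℂ :=
  ∑' k, tm u x k z

lemma norm_tm_le {u : ℕ → EuclideanSpace ℂ (Fin n)} (hu : ∀ k, ‖u k‖ ≤ 1)
    (x : ℕ → Bool) (k : ℕ) {z : EuclideanSpace ℂ (Fin n)} (hz : ‖z‖ ≤ 1) :
    ‖tm u x k z‖ ≤ maj 0 k := by
  have := norm_iteratedFDeriv_tm_le hu x k 0 hz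
  simpa using this

lemma iteratedFDeriv_fn {u : ℕ → EuclideanSpace ℂ (Fin n)} (hu : ∀ k, ‖u k‖ ≤ 1)
    (x : ℕ → Bool) (s : ℕ) : ∀ z ∈ ball (0 : EuclideanSpace ℂ (Fin n)) 1,
    iteratedFDeriv ℂ s (fn u x) z = ∑' k, iteratedFDeriv ℂ s (tm u x k) z := by
  induction s with
  | zero =>
    intro z hz
    simp_rw [iteratedFDeriv_zero_eq_comp]
    exact (continuousMultilinearCurryFin0 ℂ (EuclideanSpace ℂ (Fin n)) ℂ).symm.toContinuousLinearEquiv.map_tsum
  | succ s IH =>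
    intro z hz
    have hle : ∀ y ∈ ball (0 : EuclideanSpace ℂ (Fin n)) 1, ‖y‖ ≤ 1 := fun y hy => by
      simpa using (mem_ball_zero_iff.1 hy).le
    have hev : iteratedFDeriv ℂ s (fn u x) =ᶠ[𝓝 z] fun y => ∑' k, iteratedFDeriv ℂ s (tm u x k) y := by
      filter_upwards [isOpen_ball.mem_nhds hz] with y hy using IH y hy
    have hd : HasFDerivAt (fun y => ∑' k, iteratedFDeriv ℂ s (tm u x k) y)
        (∑' k, fderiv ℂ (iteratedFDeriv ℂ s (tm u x k)) z) z := by
      refine hasFDerivAt_tsum_of_isPreconnected (x₀ := 0) (s := ball 0 1)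
        (f := fun k => iteratedFDeriv ℂ s (tm u x k))
        (f' := fun k => fderiv ℂ (iteratedFDeriv ℂ s (tm u x k)))
        (summable_maj (s + 1)) isOpen_ball (convex_ball _ _).isPreconnected ?_ ?_ (by simp) ?_ hz
      · intro k y hy
        have : Differentiable ℂ (iteratedFDeriv ℂ s (tm u x k)) :=
          (contDiff_tm u x k (m := ((s + 1 : ℕ) : WithTop ℕ∞))).differentiable_iteratedFDeriv (by exact_mod_cast Nat.lt_succ_self s)
        exact (this y).hasFDerivAt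
      · intro k y hy
        rw [norm_fderiv_iteratedFDeriv]
        exact norm_iteratedFDeriv_tm_le hu x k (s + 1) (hle y hy)
      · exact Summable.of_norm_bounded (summable_maj s)
          (fun k => norm_iteratedFDeriv_tm_le hu x k s (by simp))
    rw [iteratedFDeriv_succ_eq_comp_left]
    simp_rw [iteratedFDeriv_succ_eq_comp_left]
    simp only [Function.comp_apply]
    rw [hev.fderiv_eq, hd.fderiv]
    exact (continuousMultilinearCurryLeftEquiv ℂ
        (fun _ : Fin (s + 1) => EuclideanSpace ℂ (Fin n)) ℂ).symm.toContinuousLinearEquiv.map_tsum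

lemma continuousOn_tsum_iteratedFDeriv {u : ℕ → EuclideanSpace ℂ (Fin n)} (hu : ∀ k, ‖u k‖ ≤ 1)
    (x : ℕ → Bool) (s : ℕ) :
    ContinuousOn (fun z => ∑' k, iteratedFDeriv ℂ s (tm u x k) z)
      (closedBall (0 : EuclideanSpace ℂ (Fin n)) 1) := by
  refine continuousOn_tsum (u := maj s) ?_ (summable_maj s) ?_
  · intro k
    exact ((contDiff_tm u x k (m := (s : WithTop ℕ∞))).continuous_iteratedFDeriv le_rfl).continuousOn
  · intro k z hz
    exact norm_iteratedFDeriv_tm_le hu x k s (by simpa using hz)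

lemma continuousOn_fn {u : ℕ → EuclideanSpace ℂ (Fin n)} (hu : ∀ k, ‖u k‖ ≤ 1)
    (x : ℕ → Bool) : ContinuousOn (fn u x) (closedBall (0 : EuclideanSpace ℂ (Fin n)) 1) := by
  refine continuousOn_tsum (u := maj 0) ?_ (summable_maj 0) ?_
  · intro k
    exact ((contDiff_tm u x k (m := 0)).continuous).continuousOn
  · intro k z hz
    exact norm_tm_le hu x k (by simpa using hz)

lemma differentiableOn_fn {u : ℕ → EuclideanSpace ℂ (Fin n)} (hu : ∀ k, ‖u k‖ ≤ 1)
    (x : ℕ → Bool) : DifferentiableOn ℂ (fn u x) (ball (0 : EuclideanSpace ℂ (Fin n)) 1) := by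
  intro z hz
  have hle : ∀ y ∈ ball (0 : EuclideanSpace ℂ (Fin n)) 1, ‖y‖ ≤ 1 := fun y hy => by
      simpa using (mem_ball_zero_iff.1 hy).le
  have : HasFDerivAt (fn u x) (∑' k, fderiv ℂ (tm u x k) z) z := by
    refine hasFDerivAt_tsum_of_isPreconnected (x₀ := 0) (s := ball 0 1)
        (f := fun k => tm u x k)
        (f' := fun k => fderiv ℂ (tm u x k))
        (summable_maj 1) isOpen_ball (convex_ball _ _).isPreconnected ?_ ?_ (by simp) ?_ hz
    · intro k y hy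
      exact ((contDiff_tm u x k (m := 1)).differentiable (by norm_num) y).hasFDerivAt
    · intro k y hy
      have := norm_iteratedFDeriv_tm_le hu x k 1 (hle y hy)
      rwa [norm_iteratedFDeriv_one] at this
    · exact Summable.of_norm_bounded (summable_maj 0)
          (fun k => norm_tm_le hu x k (by simp))
  exact this.differentiableAt.differentiableWithinAt

end

end Pool.Agent.W729.NB
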