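import Pool.Agent.W729.NB2

set_option autoImplicit false

namespace Pool.Agent.W729.NB

open Metric Set Filter Topology

noncomputable section

variable {n : ℕ}

/-- the `k`-th term of the `s`-th derivative along the line `a + l b` -/
def co (u : ℕ → EuclideanSpace ℂ (Fin n)) (x : ℕ → Bool) (s k : ℕ)
    (a b : EuclideanSpace ℂ (Fin n)) (l : ℂ) : ℂ :=
  (wt (x k) * cf k * (2 ^ k * inner ℂ (u k) b) ^ s) *
    Complex.exp (2 ^ k * (inner ℂ (u k) (a + l • b) - 1))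

/-- the `s`-th derivative along the line -/
def De (u : ℕ → EuclideanSpace ℂ (Fin n)) (x : ℕ → Bool) (s : ℕ)
    (a b : EuclideanSpace ℂ (Fin n)) (l : ℂ) : ℂ :=
  ∑' k, co u x s k a b l

lemma fn_eq_De (u : ℕ → EuclideanSpace ℂ (Fin n)) (x : ℕ → Bool)
    (a b : EuclideanSpace ℂ (Fin n)) (l : ℂ) : fn u x (a + l • b) = De u x 0 a b l := by
  simp [fn, De, tm, co]

lemma norm_co_le {u : ℕ → EuclideanSpace ℂ (Fin n)} (hu : ∀ k, ‖u k‖ ≤ 1) (x : ℕ → Bool) (s k : ℕ)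
    {a b : EuclideanSpace ℂ (Fin n)} {l : ℂ} (hb : ‖b‖ ≤ 1) (hl : ‖a + l • b‖ ≤ 1) :
    ‖co u x s k a b l‖ ≤ maj s k := by
  refine le_trans ?_ (cf_le_maj s k)
  unfold co
  rw [norm_mul, norm_mul, norm_mul, norm_cf, norm_pow, norm_mul]
  have e1 := norm_wt_le (x k)
  have e2 : ‖Complex.exp (2 ^ k * (inner ℂ (u k) (a + l • b) - 1))‖ ≤ 1 :=
    norm_exp_le (re_inner_le (hu k) hl)
  have e3 : ‖(inner ℂ (u k) b : ℂ)‖ ≤ 1 :=
    (norm_inner_le_norm _ _).trans (mul_le_one₀ (hu k) (norm_nonneg _) hb)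
  have e4 := (cf_pos k).le
  have e5 : ‖((2:ℂ) ^ k)‖ = 2 ^ k := by simp
  rw [e5]
  calc ‖wt (x k)‖ * cf k * (2 ^ k * ‖(inner ℂ (u k) b : ℂ)‖) ^ s *
        ‖Complex.exp (2 ^ k * (inner ℂ (u k) (a + l • b) - 1))‖
      ≤ 1 * cf k * (2 ^ k * 1) ^ s * 1 := by gcongr
    _ = _ := by ring

lemma hasDerivAt_co (u : ℕ → EuclideanSpace ℂ (Fin n)) (x : ℕ → Bool) (s k : ℕ)
    (a b : EuclideanSpace ℂ (Fin n)) (l : ℂ) :
    HasDerivAt (fun l => co u x s k a b l) (co u x (s + 1) k a b l) l := by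
  unfold co
  have h : HasDerivAt (fun l : ℂ => (2:ℂ) ^ k * (inner ℂ (u k) (a + l • b) - 1))
      (2 ^ k * inner ℂ (u k) b) l := by
    have h1 : (fun l : ℂ => (2:ℂ) ^ k * (inner ℂ (u k) (a + l • b) - 1)) =
        fun l : ℂ => (2:ℂ) ^ k * (inner ℂ (u k) a + l * inner ℂ (u k) b - 1) := by
      ext l; rw [inner_add_right, inner_smul_right]
    rw [h1]
    have h2 := (((hasDerivAt_id l).mul_const (inner ℂ (u k) b : ℂ)).const_add
      (inner ℂ (u k) a : ℂ)).sub_const 1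
    simpa using h2.const_mul ((2:ℂ) ^ k)
  refine ((h.cexp).const_mul _).congr_deriv ?_
  ring

lemma hasDerivAt_De {u : ℕ → EuclideanSpace ℂ (Fin n)} (hu : ∀ k, ‖u k‖ ≤ 1) (x : ℕ → Bool) (s : ℕ)
    {a b : EuclideanSpace ℂ (Fin n)} (hb : ‖b‖ ≤ 1)
    (hab : ∀ l ∈ ball (0:ℂ) 1, ‖a + l • b‖ ≤ 1) {l : ℂ} (hl : l ∈ ball (0:ℂ) 1) :
    HasDerivAt (fun l => De u x s a b l) (De u x (s + 1) a b l) l := by
  refine hasDerivAt_tsum_of_isPreconnected (y₀ := 0) (t := ball 0 1)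
        (g := fun k => co u x s k a b)
        (g' := fun k => co u x (s + 1) k a b)
        (summable_maj (s + 1)) isOpen_ball (convex_ball _ _).isPreconnected ?_ ?_ (by simp) ?_ hl
  · intro k y hy
    exact hasDerivAt_co u x s k a b y
  · intro k y hy
    exact norm_co_le hu x (s + 1) k hb (hab y hy)
  · exact Summable.of_norm_bounded (summable_maj s)
          (fun k => norm_co_le hu x s k hb (hab 0 (by simp)))

lemma iteratedDeriv_fn {u : ℕ → EuclideanSpace ℂ (Fin n)} (hu : ∀ k, ‖u k‖ ≤ 1) (x : ℕ → Bool)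
    {a b : EuclideanSpace ℂ (Fin n)} (hb : ‖b‖ ≤ 1)
    (hab : ∀ l ∈ ball (0:ℂ) 1, ‖a + l • b‖ ≤ 1) (s : ℕ) :
    ∀ l ∈ ball (0:ℂ) 1, iteratedDeriv s (fun l => fn u x (a + l • b)) l = De u x s a b l := by
  induction s with
  | zero => intro l _; simp [fn_eq_De]
  | succ s ih =>
    intro l hl
    rw [iteratedDeriv_succ]
    have : iteratedDeriv s (fun l => fn u x (a + l • b)) =ᶠ[𝓝 l] fun l => De u x s a b l := by
      filter_upwards [isOpen_ball.mem_nhds hl] with y hy using ih y hy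
    rw [this.deriv_eq]
    exact (hasDerivAt_De hu x s hb hab hl).deriv

/-- parameters of affine discs -/
abbrev Par (n : ℕ) := EuclideanSpace ℂ (Fin n) × EuclideanSpace ℂ (Fin n) × ℂ

/-- the compact set of parameters: discs with boundary in the sphere, a point of the circle,
such that slightly outside the disc the real part of the inner product with `v` is large -/
def KK (v : EuclideanSpace ℂ (Fin n)) (η γ : ℝ) : Set (Par n) :=
  {p | ‖p.2.2‖ = 1 ∧ (∀ σ : ℂ, ‖σ‖ = 1 → ‖p.1 + σ • p.2.1‖ = 1) ∧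
    1 + γ ≤ (inner ℂ v (p.1 + ((1 + η) * p.2.2 : ℂ) • p.2.1) : ℂ).re}

lemma norm_le_of_circle {a b : EuclideanSpace ℂ (Fin n)}
    (h : ∀ σ : ℂ, ‖σ‖ = 1 → ‖a + σ • b‖ = 1) : ‖a‖ ≤ 1 ∧ ‖b‖ ≤ 1 := by
  have h1 := h 1 (by simp)
  have h2 := h (-1) (by simp)
  simp only [one_smul, neg_smul] at h1 h2
  constructor
  · have : (2:ℝ) * ‖a‖ = ‖(a + b) + (a + -b)‖ := by
      have : (a + b) + (a + -b) = (2:ℝ) • a := by rw [two_smul]; abel
      rw [this, norm_smul]; simp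
    have h3 := norm_add_le (a + b) (a + -b)
    linarith
  · have : (2:ℝ) * ‖b‖ = ‖(a + b) - (a + -b)‖ := by
      have : (a + b) - (a + -b) = (2:ℝ) • b := by rw [two_smul]; abel
      rw [this, norm_smul]; simp
    have h3 := norm_sub_le (a + b) (a + -b)
    linarith

lemma norm_le_of_mem_disc {a b : EuclideanSpace ℂ (Fin n)}
    (h : ∀ σ : ℂ, ‖σ‖ = 1 → ‖a + σ • b‖ = 1) {l : ℂ} (hl : ‖l‖ ≤ 1) : ‖a + l • b‖ ≤ 1 := by
  obtain ⟨σ, hσ, hσl⟩ : ∃ σ : ℂ, ‖σ‖ = 1 ∧ l = (‖l‖ : ℂ) * σ := by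
    by_cases h0 : l = 0
    · exact ⟨1, by simp, by simp [h0]⟩
    · refine ⟨l / ‖l‖, ?_, ?_⟩
      · rw [norm_div, Complex.norm_real, norm_norm, div_self (norm_ne_zero_iff.2 h0)]
      · have : (‖l‖ : ℂ) ≠ 0 := by exact_mod_cast norm_ne_zero_iff.2 h0
        field_simp
  have e : a + l • b = (((1 + ‖l‖) / 2 : ℝ)) • (a + σ • b) + (((1 - ‖l‖) / 2 : ℝ)) • (a + (-σ) • b) := by
    have e1 : l • b = (‖l‖ : ℝ) • (σ • b) := by
      conv_lhs => rw [hσl, mul_smul]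
      rfl
    rw [e1]
    module
  rw [e]
  refine (norm_add_le _ _).trans ?_
  rw [norm_smul, norm_smul, h σ hσ, h (-σ) (by simpa using hσ)]
  rw [Real.norm_of_nonneg (by positivity), Real.norm_of_nonneg (by linarith)]
  linarith

lemma isClosed_KK (v : EuclideanSpace ℂ (Fin n)) (η γ : ℝ) : IsClosed (KK v η γ) := by
  unfold KK
  have h1 : IsClosed {p : Par n | ‖p.2.2‖ = 1} :=
    isClosed_eq (by fun_prop) continuous_const
  have h2 : IsClosed {p : Par n | ∀ σ : ℂ, ‖σ‖ = 1 → ‖p.1 + σ • p.2.1‖ = 1} := by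
    simp only [setOf_forall]
    exact isClosed_iInter fun σ => isClosed_iInter fun _ => isClosed_eq (by fun_prop) continuous_const
  have h3 : IsClosed {p : Par n | 1 + γ ≤ (inner ℂ v (p.1 + ((1 + η) * p.2.2 : ℂ) • p.2.1) : ℂ).re} := by
    refine isClosed_le continuous_const ?_
    fun_prop
  exact h1.inter (h2.inter h3)

lemma isCompact_KK (v : EuclideanSpace ℂ (Fin n)) (η γ : ℝ) : IsCompact (KK v η γ) := by
  refine Metric.isCompact_of_isClosed_isBounded (isClosed_KK v η γ) ?_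
  refine (Metric.isBounded_closedBall (x := (0 : Par n)) (r := 1)).subset ?_
  intro p hp
  obtain ⟨h1, h2, h3⟩ := hp
  obtain ⟨ha, hb⟩ := norm_le_of_circle h2
  rw [mem_closedBall_zero_iff]
  simp only [Prod.norm_def, sup_le_iff]
  exact ⟨ha, hb, h1.le⟩

/-- the bad set of parameters -/
def FF (u : ℕ → EuclideanSpace ℂ (Fin n)) (v : EuclideanSpace ℂ (Fin n)) (η γ M : ℝ) :
    Set (ℕ → Bool) :=
  {x | ∃ p ∈ KK v η γ, ∀ s : ℕ,
    ‖De u x s p.1 p.2.1 ((1 - η) * p.2.2 : ℂ)‖ * (3 * η) ^ s ≤ M * s.factorial}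

lemma norm_l1 {η : ℝ} (h0 : 0 < η) (h1 : η < 1) {τ : ℂ} (hτ : ‖τ‖ = 1) :
    ‖((1 - η) * τ : ℂ)‖ = 1 - η := by
  rw [norm_mul, hτ, mul_one]
  have : (1 - η : ℂ) = ((1 - η : ℝ) : ℂ) := by push_cast; rfl
  rw [this, Complex.norm_real, Real.norm_of_nonneg (by linarith)]

lemma continuousOn_De {u : ℕ → EuclideanSpace ℂ (Fin n)} (hu : ∀ k, ‖u k‖ ≤ 1)
    (v : EuclideanSpace ℂ (Fin n)) {η : ℝ} (h0 : 0 < η) (h1 : η < 1) (γ : ℝ) (s : ℕ) :
    ContinuousOn (fun q : (ℕ → Bool) × Par n => De u q.1 s q.2.1 q.2.2.1 ((1 - η) * q.2.2.2 : ℂ))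
      (univ ×ˢ KK v η γ) := by
  unfold De
  refine continuousOn_tsum (u := maj s) ?_ (summable_maj s) ?_
  · intro k
    apply Continuous.continuousOn
    unfold co
    have : Continuous (fun q : (ℕ → Bool) × Par n => wt (q.1 k)) :=
      (continuous_of_discreteTopology (f := wt)).comp ((continuous_apply k).comp continuous_fst)
    fun_prop
  · intro k q hq
    obtain ⟨-, hq1, hq2, hq3⟩ := hq
    refine norm_co_le hu _ s k (norm_le_of_circle hq2).2 (norm_le_of_mem_disc hq2 ?_)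
    rw [norm_l1 h0 h1 hq1]; linarith

lemma isClosed_FF {u : ℕ → EuclideanSpace ℂ (Fin n)} (hu : ∀ k, ‖u k‖ ≤ 1)
    (v : EuclideanSpace ℂ (Fin n)) {η : ℝ} (h0 : 0 < η) (h1 : η < 1) (γ M : ℝ) :
    IsClosed (FF u v η γ M) := by
  have hc : IsCompact ((univ : Set (ℕ → Bool)) ×ˢ KK v η γ) := isCompact_univ.prod (isCompact_KK v η γ)
  have hcl : IsClosed ((univ : Set (ℕ → Bool)) ×ˢ KK v η γ) := hc.isClosed
  have hZ : IsClosed ((univ : Set (ℕ → Bool)) ×ˢ KK v η γ ∩ {q | ∀ s : ℕ,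
      ‖De u q.1 s q.2.1 q.2.2.1 ((1 - η) * q.2.2.2 : ℂ)‖ * (3 * η) ^ s ≤ M * s.factorial}) := by
    have : ((univ : Set (ℕ → Bool)) ×ˢ KK v η γ ∩ {q | ∀ s : ℕ,
      ‖De u q.1 s q.2.1 q.2.2.1 ((1 - η) * q.2.2.2 : ℂ)‖ * (3 * η) ^ s ≤ M * s.factorial}) =
      ⋂ s : ℕ, ((univ : Set (ℕ → Bool)) ×ˢ KK v η γ ∩ {q |
      ‖De u q.1 s q.2.1 q.2.2.1 ((1 - η) * q.2.2.2 : ℂ)‖ * (3 * η) ^ s ≤ M * s.factorial}) := by
      ext q
      simp only [mem_inter_iff, mem_setOf_eq, mem_iInter]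
      constructor
      · rintro ⟨h, h'⟩ s; exact ⟨h, h' s⟩
      · intro h; exact ⟨(h 0).1, fun s => (h s).2⟩
    rw [this]
    refine isClosed_iInter fun s => ?_
    have hf : ContinuousOn (fun q : (ℕ → Bool) × Par n =>
        ‖De u q.1 s q.2.1 q.2.2.1 ((1 - η) * q.2.2.2 : ℂ)‖ * (3 * η) ^ s)
        ((univ : Set (ℕ → Bool)) ×ˢ KK v η γ) :=
      ((continuousOn_De hu v h0 h1 γ s).norm).mul continuousOn_const
    exact hf.preimage_isClosed_of_isClosed hcl (isClosed_Iic (a := M * s.factorial))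
  have hZc : IsCompact ((univ : Set (ℕ → Bool)) ×ˢ KK v η γ ∩ {q | ∀ s : ℕ,
      ‖De u q.1 s q.2.1 q.2.2.1 ((1 - η) * q.2.2.2 : ℂ)‖ * (3 * η) ^ s ≤ M * s.factorial}) :=
    hc.of_isClosed_subset hZ inter_subset_left
  have : FF u v η γ M = Prod.fst '' ((univ : Set (ℕ → Bool)) ×ˢ KK v η γ ∩ {q | ∀ s : ℕ,
      ‖De u q.1 s q.2.1 q.2.2.1 ((1 - η) * q.2.2.2 : ℂ)‖ * (3 * η) ^ s ≤ M * s.factorial}) := by
    ext x
    constructor
    · rintro ⟨p, hp, h⟩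
      exact ⟨(x, p), ⟨⟨mem_univ _, hp⟩, h⟩, rfl⟩
    · rintro ⟨⟨x', p⟩, ⟨⟨-, hp⟩, h⟩, rfl⟩
      exact ⟨p, hp, h⟩
  rw [this]
  exact (hZc.image continuous_fst).isClosed

end

end Pool.Agent.W729.NB
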