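import Pool.Agent.W729.NB3

set_option autoImplicit false

namespace Pool.Agent.W729.NB

open Metric Set Filter Topology

noncomputable section

variable {n : ℕ}

lemma tendsto_growth {γ : ℝ} (hγ : 0 < γ) :
    Tendsto (fun k : ℕ => cf k * Real.exp (2 ^ k * γ)) atTop atTop := by
  have h1 : Tendsto (fun k : ℕ => (k:ℝ) ^ 2 / 2 ^ k) atTop (𝓝 0) :=
    tendsto_pow_const_div_const_pow_of_one_lt 2 (by norm_num)
  have h2 : Tendsto (fun k : ℕ => γ - Real.log 2 * ((k:ℝ) ^ 2 / 2 ^ k)) atTop (𝓝 γ) := by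
    simpa using tendsto_const_nhds.sub (h1.const_mul (Real.log 2))
  have h3 : Tendsto (fun k : ℕ => (2:ℝ) ^ k) atTop atTop :=
    tendsto_pow_atTop_atTop_of_one_lt (by norm_num)
  have h4 : Tendsto (fun k : ℕ => (2:ℝ) ^ k * (γ - Real.log 2 * ((k:ℝ) ^ 2 / 2 ^ k))) atTop atTop :=
    h3.atTop_mul_pos hγ h2
  have h5 : Tendsto (fun k : ℕ => Real.exp ((2:ℝ) ^ k * (γ - Real.log 2 * ((k:ℝ) ^ 2 / 2 ^ k))))
      atTop atTop := Real.tendsto_exp_atTop.comp h4
  refine h5.congr fun k => ?_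
  have e1 : cf k = Real.exp (-(Real.log 2 * (k:ℝ) ^ 2)) := by
    unfold cf
    rw [one_div, inv_pow, Real.exp_neg, Real.exp_mul, Real.exp_log (by norm_num)]
    congr 1
    rw [← Nat.cast_pow, Real.rpow_natCast]
  rw [e1, ← Real.exp_add]
  congr 1
  have : (2:ℝ) ^ k ≠ 0 := by positivity
  field_simp
  ring

lemma norm_exp_eq {k : ℕ} {w : ℂ} : ‖Complex.exp (2 ^ k * (w - 1))‖ = Real.exp (2 ^ k * (w.re - 1)) := by
  rw [Complex.norm_exp]
  congr 1
  have h2 : ((2:ℂ) ^ k) = (((2:ℝ) ^ k : ℝ) : ℂ) := by push_cast; rfl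
  rw [h2, Complex.re_ofReal_mul]; simp

lemma interior_FF {u : ℕ → EuclideanSpace ℂ (Fin n)} (hu : ∀ k, ‖u k‖ ≤ 1)
    (v : EuclideanSpace ℂ (Fin n)) (hv : ∀ m, ∃ k ≥ m, u k = v) {η γ : ℝ} (h0 : 0 < η) (h1 : η < 1)
    (hγ : 0 < γ) {M : ℝ} (hM : 0 ≤ M) : interior (FF u v η γ M) = ∅ := by
  rw [Set.eq_empty_iff_forall_notMem]
  intro x hx
  -- choose the far index
  have hk : ∀ m : ℕ, ∃ k ≥ m, u k = v ∧
      3 * M + ∑ i ∈ Finset.range m, Real.exp (2 ^ i * 2) < cf k * Real.exp (2 ^ k * γ) := by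
    intro m
    have := (tendsto_growth hγ).eventually_gt_atTop (3 * M + ∑ i ∈ Finset.range m, Real.exp (2 ^ i * 2))
    obtain ⟨k0, hk0⟩ := Filter.eventually_atTop.1 this
    obtain ⟨k, hk1, hk2⟩ := hv (max m k0)
    exact ⟨k, le_trans (le_max_left _ _) hk1, hk2, hk0 k (le_trans (le_max_right _ _) hk1)⟩
  choose k hkm hkv hkg using hk
  let y : ℕ → (ℕ → Bool) := fun m i => if i < m then x i else decide (i = k m)
  have hy : Tendsto y atTop (𝓝 x) := by
    rw [tendsto_pi_nhds]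
    intro i
    refine tendsto_const_nhds.congr' ?_
    filter_upwards [eventually_gt_atTop i] with m hm
    simp [y, hm]
  have hev : ∀ᶠ m in atTop, y m ∈ FF u v η γ M := by
    filter_upwards [hy (isOpen_interior.mem_nhds hx)] with m hm using interior_subset hm
  obtain ⟨m, hm⟩ := hev.exists
  obtain ⟨⟨a, b, τ⟩, ⟨hτ, hab, hre⟩, hDe⟩ := hm
  simp only at hτ hab hre hDe
  obtain ⟨ha, hb⟩ := norm_le_of_circle hab
  set S : Finset ℕ := insert (k m) (Finset.range m) with hS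
  have hkm' : k m ∉ Finset.range m := by simpa using hkm m
  have hzero : ∀ i ∉ S, ∀ z, tm u (y m) i z = 0 := by
    intro i hi z
    simp only [hS, Finset.mem_insert, Finset.mem_range, not_or] at hi
    have : y m i = false := by simp [y, hi.1, hi.2]
    simp [tm, this, wt]
  have hfn : ∀ z, fn u (y m) z = ∑ i ∈ S, tm u (y m) i z := fun z =>
    tsum_eq_sum (fun i hi => hzero i hi z)
  set g : ℂ → ℂ := fun l => fn u (y m) (a + l • b) with hg
  have hgd : Differentiable ℂ g := by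
    have : g = fun l => ∑ i ∈ S, tm u (y m) i (a + l • b) := by
      ext l; exact hfn _
    rw [this]
    refine Differentiable.fun_sum fun i _ => ?_
    have h1 : Differentiable ℂ (tm u (y m) i) := (contDiff_tm u (y m) i (m := 1)).differentiable (by norm_num)
    exact h1.comp (by fun_prop : Differentiable ℂ fun l : ℂ => a + l • b)
  set l1 : ℂ := (1 - η) * τ with hl1
  set l0 : ℂ := (1 + η) * τ with hl0
  have hl1n : l1 ∈ ball (0:ℂ) 1 := by
    rw [mem_ball_zero_iff, hl1, norm_l1 h0 h1 hτ]; linarith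
  have hid : ∀ s, iteratedDeriv s g l1 = De u (y m) s a b l1 := fun s =>
    iteratedDeriv_fn hu (y m) hb (fun l hl => norm_le_of_mem_disc hab (mem_ball_zero_iff.1 hl).le) s l1 hl1n
  have hts := Complex.hasSum_taylorSeries_of_entire hgd l1 l0
  have hdist : ‖l0 - l1‖ = 2 * η := by
    have : l0 - l1 = ((2 * η : ℝ) : ℂ) * τ := by rw [hl0, hl1]; push_cast; ring
    rw [this, norm_mul, hτ, mul_one, Complex.norm_real, Real.norm_of_nonneg (by linarith)]
  have hterm : ∀ s : ℕ, ‖((s.factorial : ℂ))⁻¹ • (l0 - l1) ^ s • iteratedDeriv s g l1‖ ≤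
      M * (2 / 3) ^ s := by
    intro s
    rw [hid s, norm_smul, norm_smul, norm_pow, hdist, norm_inv]
    have e1 := hDe s
    have e2 : ‖(s.factorial : ℂ)‖ = s.factorial := by simp
    rw [e2]
    have e3 : (0:ℝ) < s.factorial := by positivity
    have e4 : (2 * η) ^ s = (2 / 3) ^ s * (3 * η) ^ s := by rw [← mul_pow]; congr 1; ring
    calc ((s.factorial : ℝ))⁻¹ * ((2 * η) ^ s * ‖De u (y m) s a b l1‖)
        = ((s.factorial : ℝ))⁻¹ * (2 / 3) ^ s * (‖De u (y m) s a b l1‖ * (3 * η) ^ s) := by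
          rw [e4]; ring
      _ ≤ ((s.factorial : ℝ))⁻¹ * (2 / 3) ^ s * (M * s.factorial) := by gcongr
      _ = M * (2 / 3) ^ s := by field_simp
  have hgeo : HasSum (fun s : ℕ => M * (2 / 3 : ℝ) ^ s) (M * 3) := by
    have := (hasSum_geometric_of_lt_one (r := (2/3 : ℝ)) (by norm_num) (by norm_num)).mul_left M
    have e : (1 - 2 / 3 : ℝ)⁻¹ = 3 := by norm_num
    rwa [e] at this
  have hup : ‖g l0‖ ≤ 3 * M := by
    rw [← hts.tsum_eq]
    have := tsum_of_norm_bounded hgeo hterm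
    linarith
  have hz : ‖a + l0 • b‖ ≤ 3 := by
    have e1 : ‖l0‖ = 1 + η := by
      have : l0 = ((1 + η : ℝ) : ℂ) * τ := by rw [hl0]; push_cast; ring
      rw [this, norm_mul, hτ, mul_one, Complex.norm_real, Real.norm_of_nonneg (by linarith)]
    calc ‖a + l0 • b‖ ≤ ‖a‖ + ‖l0‖ * ‖b‖ := by rw [← norm_smul]; exact norm_add_le _ _
      _ ≤ 1 + 2 * 1 := by
          gcongr
          rw [e1]; linarith
      _ = 3 := by norm_num
  have hlow : cf (k m) * Real.exp (2 ^ (k m) * γ) ≤ ‖g l0‖ + ∑ i ∈ Finset.range m, Real.exp (2 ^ i * 2) := by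
    have e1 : g l0 = tm u (y m) (k m) (a + l0 • b) + ∑ i ∈ Finset.range m, tm u (y m) i (a + l0 • b) := by
      rw [hg]; simp only; rw [hfn, hS, Finset.sum_insert hkm']
    have e2 : ‖tm u (y m) (k m) (a + l0 • b)‖ ≤ ‖g l0‖ + ‖∑ i ∈ Finset.range m, tm u (y m) i (a + l0 • b)‖ := by
      rw [e1]
      calc _ = ‖(tm u (y m) (k m) (a + l0 • b) + ∑ i ∈ Finset.range m, tm u (y m) i (a + l0 • b)) -
          ∑ i ∈ Finset.range m, tm u (y m) i (a + l0 • b)‖ := by congr 1; ring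
        _ ≤ _ := norm_sub_le _ _
    have e3 : ‖∑ i ∈ Finset.range m, tm u (y m) i (a + l0 • b)‖ ≤ ∑ i ∈ Finset.range m, Real.exp (2 ^ i * 2) := by
      refine (norm_sum_le _ _).trans (Finset.sum_le_sum fun i _ => ?_)
      unfold tm
      rw [norm_mul, norm_mul, norm_cf, norm_exp_eq]
      have f1 := norm_wt_le (y m i)
      have f2 : cf i ≤ 1 := by
        unfold cf; exact pow_le_one₀ (by norm_num) (by norm_num)
      have f3 : (inner ℂ (u i) (a + l0 • b) : ℂ).re ≤ 3 := by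
        calc (inner ℂ (u i) (a + l0 • b) : ℂ).re ≤ ‖(inner ℂ (u i) (a + l0 • b) : ℂ)‖ := Complex.re_le_norm _
          _ ≤ ‖u i‖ * ‖a + l0 • b‖ := norm_inner_le_norm _ _
          _ ≤ 1 * 3 := by gcongr; exact hu i
          _ = 3 := by norm_num
      have f4 := (cf_pos i).le
      calc ‖wt (y m i)‖ * cf i * Real.exp (2 ^ i * ((inner ℂ (u i) (a + l0 • b) : ℂ).re - 1))
          ≤ 1 * 1 * Real.exp (2 ^ i * (3 - 1)) := by gcongr
        _ = _ := by norm_num
    have e4 : cf (k m) * Real.exp (2 ^ (k m) * γ) ≤ ‖tm u (y m) (k m) (a + l0 • b)‖ := by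
      unfold tm
      rw [norm_mul, norm_mul, norm_cf, norm_exp_eq, hkv m]
      have f1 : y m (k m) = true := by
        have : ¬ k m < m := not_lt.2 (hkm m)
        simp [y, this]
      rw [f1]
      have f2 : ‖wt true‖ = 1 := by simp [wt]
      rw [f2, one_mul]
      have f3 := (cf_pos (k m)).le
      gcongr
      linarith
    linarith
  have := hkg m
  linarith

end

end Pool.Agent.W729.NB
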