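import Pool.Agent.W729.NB4

set_option autoImplicit false

namespace Pool.Agent.W729.NB

open Metric Set Filter Topology

noncomputable section

variable {n : ℕ}

/-- If `f_x` composed with an affine disc extends across a point of the circle, then `x` belongs to
one of the bad sets. -/
lemma mem_FF_of_extends {u : ℕ → EuclideanSpace ℂ (Fin n)} (hu : ∀ k, ‖u k‖ ≤ 1)
    {v : ℕ → EuclideanSpace ℂ (Fin n)}
    (hv : ∀ ζ : EuclideanSpace ℂ (Fin n), ‖ζ‖ = 1 → ∀ ε > 0, ∃ j, ‖v j - ζ‖ < ε)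
    (x : ℕ → Bool) {a b : EuclideanSpace ℂ (Fin n)} (hb0 : b ≠ 0)
    (hab : ∀ σ : ℂ, ‖σ‖ = 1 → ‖a + σ • b‖ = 1) {τ : ℂ} (hτ : ‖τ‖ = 1) {c : ℂ} {r : ℝ}
    (hτr : τ ∈ ball c r) {h : ℂ → ℂ} (hh : DifferentiableOn ℂ h (ball c r))
    (hhf : ∀ l ∈ ball c r, ‖l‖ < 1 → h l = fn u x (a + l • b)) :
    ∃ N L M j : ℕ, x ∈ FF u (v j) (1 / (N + 2)) (1 / (L + 1)) M := by
  obtain ⟨ha, hb⟩ := norm_le_of_circle hab
  -- radius
  obtain ⟨ε, hε, hεr⟩ : ∃ ε > 0, closedBall τ ε ⊆ ball c r := by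
    obtain ⟨ε, hε, h1⟩ := Metric.isOpen_iff.1 isOpen_ball τ hτr
    exact ⟨ε / 2, by positivity, (closedBall_subset_ball (by linarith)).trans h1⟩
  obtain ⟨N, hN⟩ := exists_nat_gt (4 / ε)
  set η : ℝ := 1 / (N + 2) with hη
  have hN0 : (0:ℝ) < N + 2 := by positivity
  have h0 : 0 < η := by positivity
  have h1 : η < 1 := by
    rw [hη, div_lt_one hN0]
    have : (0:ℝ) ≤ N := by positivity
    linarith
  have hηε : 4 * η ≤ ε := by
    rw [hη, mul_one_div, div_le_iff₀ hN0]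
    rw [div_lt_iff₀ hε] at hN
    nlinarith
  -- the bound
  have hsub : closedBall τ (4 * η) ⊆ ball c r := (closedBall_subset_closedBall hηε).trans hεr
  obtain ⟨M0, hM0⟩ := (isCompact_closedBall τ (4 * η)).exists_bound_of_continuousOn
    (hh.continuousOn.mono hsub)
  obtain ⟨M, hM⟩ := exists_nat_ge M0
  -- the gap
  have hbpos : 0 < ‖b‖ := norm_pos_iff.2 hb0
  set β : ℝ := η * ‖b‖ ^ 2 with hβ
  have hβ0 : 0 < β := by positivity
  obtain ⟨L, hL⟩ := exists_nat_gt (2 / β)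
  obtain ⟨j, hj⟩ := hv (a + τ • b) (hab τ hτ) (β / 6) (by positivity)
  refine ⟨N, L, M, j, ⟨(a, b, τ), ⟨hτ, hab, ?_⟩, ?_⟩⟩
  · -- the real part
    simp only
    rw [← hη]
    set ζ : EuclideanSpace ℂ (Fin n) := a + τ • b with hζ
    have hζ1 : ‖ζ‖ = 1 := hab τ hτ
    have hinn : (inner ℂ ζ (τ • b) : ℂ).re = ‖b‖ ^ 2 := by
      have e1 : ‖a + (-τ) • b‖ = 1 := hab (-τ) (by simpa using hτ)
      have e2 : a + (-τ) • b = ζ - (2:ℂ) • (τ • b) := by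
        rw [hζ]; module
      rw [e2] at e1
      have e3 := @norm_sub_sq ℂ _ _ _ _ ζ ((2:ℂ) • (τ • b))
      rw [e1, hζ1, norm_smul, norm_smul, hτ, inner_smul_right] at e3
      have e4 : (RCLike.re ((2:ℂ) * inner ℂ ζ (τ • b)) : ℝ) = 2 * (inner ℂ ζ (τ • b) : ℂ).re := by
        simp
      rw [e4] at e3
      have e5 : ‖(2:ℂ)‖ = 2 := by simp
      rw [e5] at e3
      nlinarith
    have e1 : a + ((1 + η : ℂ) * τ) • b = ζ + (η : ℂ) • (τ • b) := by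
      rw [hζ]; module
    rw [e1]
    have e2 : (inner ℂ ζ (ζ + (η : ℂ) • (τ • b)) : ℂ).re = 1 + β := by
      rw [inner_add_right, inner_smul_right, Complex.add_re, Complex.re_ofReal_mul, hinn]
      have : (inner ℂ ζ ζ : ℂ).re = 1 := by
        have := @inner_self_eq_norm_sq ℂ _ _ _ _ ζ
        simp only [RCLike.re_to_complex] at this
        rw [this, hζ1]; norm_num
      rw [this]
    have e3 : (inner ℂ (v j) (ζ + (η : ℂ) • (τ • b)) : ℂ).re =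
        (inner ℂ ζ (ζ + (η : ℂ) • (τ • b)) : ℂ).re + (inner ℂ (v j - ζ) (ζ + (η : ℂ) • (τ • b)) : ℂ).re := by
      rw [← Complex.add_re, ← inner_add_left]
      congr 2
      abel
    have e4 : ‖ζ + (η : ℂ) • (τ • b)‖ ≤ 2 := by
      refine (norm_add_le _ _).trans ?_
      rw [norm_smul, norm_smul, hζ1, hτ, Complex.norm_real, Real.norm_of_nonneg h0.le]
      nlinarith [norm_nonneg b]
    have e5 : -(β / 3) ≤ (inner ℂ (v j - ζ) (ζ + (η : ℂ) • (τ • b)) : ℂ).re := by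
      have f1 := Complex.abs_re_le_norm (inner ℂ (v j - ζ) (ζ + (η : ℂ) • (τ • b)) : ℂ)
      have f2 : ‖(inner ℂ (v j - ζ) (ζ + (η : ℂ) • (τ • b)) : ℂ)‖ ≤ (β / 6) * 2 :=
        (norm_inner_le_norm _ _).trans (by gcongr)
      have f3 := neg_abs_le (inner ℂ (v j - ζ) (ζ + (η : ℂ) • (τ • b)) : ℂ).re
      linarith
    rw [e3, e2]
    have e6 : 1 / ((L:ℝ) + 1) ≤ β / 2 := by
      rw [div_le_iff₀ (by positivity)]
      rw [div_lt_iff₀ hβ0] at hL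
      nlinarith
    linarith
  · intro s
    simp only
    rw [← hη]
    set l1 : ℂ := (1 - η) * τ with hl1
    have hl1n : l1 ∈ ball (0:ℂ) 1 := by
      rw [mem_ball_zero_iff, hl1, norm_l1 h0 h1 hτ]; linarith
    have hdist : dist l1 τ = η := by
      have : l1 - τ = -((η : ℝ) : ℂ) * τ := by rw [hl1]; ring
      rw [dist_eq_norm, this, norm_mul, hτ, mul_one, norm_neg, Complex.norm_real, Real.norm_of_nonneg h0.le]
    have hsub2 : closedBall l1 (3 * η) ⊆ closedBall τ (4 * η) := by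
      apply closedBall_subset_closedBall'
      rw [hdist]; linarith
    have hl1c : l1 ∈ ball c r := hsub (by rw [mem_closedBall, hdist]; linarith)
    have hdc : DiffContOnCl ℂ h (ball l1 (3 * η)) := by
      apply DifferentiableOn.diffContOnCl
      rw [closure_ball _ (by positivity)]
      exact hh.mono (hsub2.trans hsub)
    have hcauchy := Complex.norm_iteratedDeriv_le_of_forall_mem_sphere_norm_le s
      (by positivity : 0 < 3 * η) hdc (C := M) (fun z hz => (hM0 z (hsub2 (sphere_subset_closedBall hz))).trans hM)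
    have heq : h =ᶠ[𝓝 l1] fun l => fn u x (a + l • b) := by
      filter_upwards [isOpen_ball.mem_nhds hl1c, isOpen_ball.mem_nhds hl1n] with l hl hl'
      exact hhf l hl (mem_ball_zero_iff.1 hl')
    rw [heq.iteratedDeriv_eq, iteratedDeriv_fn hu x hb
      (fun l hl => norm_le_of_mem_disc hab (mem_ball_zero_iff.1 hl).le) s l1 hl1n] at hcauchy
    rw [le_div_iff₀ (by positivity)] at hcauchy
    linarith

lemma exists_dense_seq (hn : 0 < n) : ∃ v : ℕ → EuclideanSpace ℂ (Fin n), (∀ j, ‖v j‖ = 1) ∧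
    ∀ ζ : EuclideanSpace ℂ (Fin n), ‖ζ‖ = 1 → ∀ ε > 0, ∃ j, ‖v j - ζ‖ < ε := by
  have : Nonempty (Fin n) := ⟨⟨0, hn⟩⟩
  have : Nontrivial (EuclideanSpace ℂ (Fin n)) := inferInstance
  have : Nonempty (sphere (0 : EuclideanSpace ℂ (Fin n)) 1) :=
    (NormedSpace.sphere_nonempty.2 zero_le_one).to_subtype
  have hw : DenseRange (TopologicalSpace.denseSeq (sphere (0 : EuclideanSpace ℂ (Fin n)) 1)) :=
    TopologicalSpace.denseRange_denseSeq _
  generalize TopologicalSpace.denseSeq (sphere (0 : EuclideanSpace ℂ (Fin n)) 1) = w at hw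
  refine ⟨fun j => (w j : EuclideanSpace ℂ (Fin n)), fun j => mem_sphere_zero_iff_norm.1 (w j).2, ?_⟩
  intro ζ hζ ε hε
  obtain ⟨j, hj⟩ := hw.exists_dist_lt (⟨ζ, mem_sphere_zero_iff_norm.2 hζ⟩ : sphere (0 : EuclideanSpace ℂ (Fin n)) 1) hε
  refine ⟨j, ?_⟩
  rw [dist_comm, Subtype.dist_eq, dist_eq_norm] at hj
  exact hj

lemma exists_rep_seq (v : ℕ → EuclideanSpace ℂ (Fin n)) (hv : ∀ j, ‖v j‖ = 1) :
    ∃ u : ℕ → EuclideanSpace ℂ (Fin n), (∀ k, ‖u k‖ ≤ 1) ∧ ∀ j m, ∃ k ≥ m, u k = v j := by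
  refine ⟨fun k => v k.unpair.1, fun k => (hv _).le, fun j m => ⟨Nat.pair j m, Nat.right_le_pair j m, ?_⟩⟩
  simp

lemma exists_good {u v : ℕ → EuclideanSpace ℂ (Fin n)} (hu : ∀ k, ‖u k‖ ≤ 1)
    (huj : ∀ j m, ∃ k ≥ m, u k = v j) :
    ∃ x : ℕ → Bool, ∀ N L M j : ℕ, x ∉ FF u (v j) (1 / (N + 2)) (1 / (L + 1)) M := by
  by_contra hcon
  push Not at hcon
  have hU : ⋃ q : ℕ × ℕ × ℕ × ℕ, FF u (v q.2.2.2) (1 / ((q.1 : ℝ) + 2)) (1 / ((q.2.1 : ℝ) + 1)) (q.2.2.1 : ℝ) = univ := by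
    rw [eq_univ_iff_forall]
    intro x
    obtain ⟨N, L, M, j, hx⟩ := hcon x
    exact mem_iUnion.2 ⟨(N, L, M, j), hx⟩
  have hη : ∀ N : ℕ, 0 < 1 / ((N:ℝ) + 2) ∧ 1 / ((N:ℝ) + 2) < 1 := by
    intro N
    refine ⟨by positivity, ?_⟩
    rw [div_lt_one (by positivity)]
    have : (0:ℝ) ≤ N := by positivity
    linarith
  obtain ⟨q, hq⟩ := nonempty_interior_of_iUnion_of_closed
    (fun q : ℕ × ℕ × ℕ × ℕ => isClosed_FF hu (v q.2.2.2) (hη q.1).1 (hη q.1).2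
      (1 / ((q.2.1 : ℝ) + 1)) (q.2.2.1 : ℝ)) hU
  have h0 : (0:ℝ) < 1 / ((q.2.1 : ℝ) + 1) := by positivity
  have h1 : (0:ℝ) ≤ (q.2.2.1 : ℝ) := by positivity
  rw [interior_FF hu _ (huj _) (hη q.1).1 (hη q.1).2 h0 h1] at hq
  exact Set.not_nonempty_empty hq

/-- The main construction. -/
theorem exists_fn (hn : 0 < n) : ∃ (u : ℕ → EuclideanSpace ℂ (Fin n)) (x : ℕ → Bool),
    (∀ k, ‖u k‖ ≤ 1) ∧
    ∀ a b : EuclideanSpace ℂ (Fin n), b ≠ 0 → (∀ σ : ℂ, ‖σ‖ = 1 → ‖a + σ • b‖ = 1) →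
      ∀ τ : ℂ, ‖τ‖ = 1 → ∀ (c : ℂ) (r : ℝ), τ ∈ ball c r →
        ¬ ∃ h : ℂ → ℂ, DifferentiableOn ℂ h (ball c r) ∧
          ∀ l ∈ ball c r, ‖l‖ < 1 → h l = fn u x (a + l • b) := by
  obtain ⟨v, hv1, hvd⟩ := exists_dense_seq hn
  obtain ⟨u, hu, huj⟩ := exists_rep_seq v hv1
  obtain ⟨x, hx⟩ := exists_good hu huj
  refine ⟨u, x, hu, ?_⟩
  rintro a b hb0 hab τ hτ c r hτr ⟨h, hh, hhf⟩
  obtain ⟨N, L, M, j, hx'⟩ := mem_FF_of_extends hu hvd x hb0 hab hτ hτr hh hhf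
  exact hx N L M j hx'

end

end Pool.Agent.W729.NB
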